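import Pool.Agent.Helper85.CL.TestFn
import Pool.Agent.Helper53.CL.Iface
import Pool.Agent.Helper53.CL.C.C01
import Pool.Agent.Helper53.CL.H.H02

/-!
PROJECT CL, block B3: the maximum principle for weak solutions.
-/

open Set MeasureTheory Filter Topology Metric

open scoped ContDiff Real

open Pool.Agent.Helper53.CL Pool.Agent.Helper53.CL.C

namespace Pool.Agent.Helper85.CL

noncomputable section

/-- Auxiliary function. -/
def kh (t : ℝ) : ℝ := √(1 + q2 (t - π)) - 1

/-- The test function of the maximum principle. -/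
def kk (t : ℝ) : ℝ := kh t - kh (-t)

lemma one_add_q2_pos (s : ℝ) : 0 < 1 + q2 s := by unfold q2; positivity

lemma hasDerivAt_kh (t : ℝ) : HasDerivAt kh (max (t - π) 0 / √(1 + q2 (t - π))) t := by
  have h1 : HasDerivAt (fun t : ℝ => t - π) 1 t := (hasDerivAt_id t).sub_const π
  have h2 := ((hasDerivAt_q2 (t - π)).comp t h1).const_add 1
  have h3 := (h2.sqrt (one_add_q2_pos _).ne').sub_const 1
  have h4 : HasDerivAt kh _ t := h3
  convert h4 using 1
  simp only [Function.comp]
  have : √(1 + q2 (t - π)) ≠ 0 := (Real.sqrt_pos.mpr (one_add_q2_pos _)).ne'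
  field_simp

lemma contDiff_kh : ContDiff ℝ 1 kh := by
  unfold kh
  refine ContDiff.sub (ContDiff.sqrt ?_ fun t => (one_add_q2_pos _).ne') contDiff_const
  exact contDiff_const.add (contDiff_q2.comp (contDiff_id.sub contDiff_const))

lemma contDiff_kk : ContDiff ℝ 1 kk := contDiff_kh.sub (contDiff_kh.comp contDiff_neg)

lemma hasDerivAt_kk (t : ℝ) : HasDerivAt kk (max (t - π) 0 / √(1 + q2 (t - π)) +
    max (-t - π) 0 / √(1 + q2 (-t - π))) t := by
  have h1 := (hasDerivAt_kh (-t)).comp t (hasDerivAt_neg t)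
  have h2 := (hasDerivAt_kh t).sub h1
  have h3 : HasDerivAt kk _ t := h2
  convert h3 using 1
  ring

lemma slope_bd (s : ℝ) : 0 ≤ max s 0 / √(1 + q2 s) ∧ max s 0 / √(1 + q2 s) ≤ 1 := by
  have h0 : 0 ≤ max s 0 := le_max_right _ _
  have h1 : 0 < √(1 + q2 s) := Real.sqrt_pos.mpr (one_add_q2_pos _)
  refine ⟨by positivity, ?_⟩
  rw [div_le_one h1]
  refine Real.le_sqrt_of_sq_le ?_
  unfold q2
  linarith

lemma deriv_kk_nonneg (t : ℝ) : 0 ≤ deriv kk t := by
  rw [(hasDerivAt_kk t).deriv]
  exact add_nonneg (slope_bd _).1 (slope_bd _).1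

lemma abs_deriv_kk_le (t : ℝ) : |deriv kk t| ≤ 2 := by
  rw [abs_of_nonneg (deriv_kk_nonneg t), (hasDerivAt_kk t).deriv]
  linarith [(slope_bd (t - π)).2, (slope_bd (-t - π)).2]

lemma kh_eq_zero {t : ℝ} (h : t ≤ π) : kh t = 0 := by
  unfold kh q2
  rw [max_eq_right (by linarith)]
  norm_num

lemma kh_pos {t : ℝ} (h : π < t) : 0 < kh t := by
  unfold kh q2
  rw [max_eq_left (by linarith)]
  have h1 : 0 < t - π := by linarith
  have : 1 < √(1 + (t - π) ^ 2) := by
    rw [Real.lt_sqrt zero_le_one]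
    nlinarith [sq_nonneg (t - π), mul_pos h1 h1]
  linarith

lemma Wt'_kk_nonneg (t : ℝ) : 0 ≤ Wt' t * kk t := by
  rcases le_or_gt |t| π with h | h
  · rw [abs_le] at h
    have : kk t = 0 := by
      unfold kk
      rw [kh_eq_zero h.2, kh_eq_zero (by linarith)]
      norm_num
    rw [this, mul_zero]
  · have h1 := Wt'_sign h
    have hpi := Real.pi_pos
    rcases lt_abs.mp h with h2 | h2
    · have h3 : 0 < kk t := by
        unfold kk
        rw [kh_eq_zero (t := -t) (by linarith)]
        linarith [kh_pos h2]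
      have h4 : 0 < Wt' t := by
        by_contra hcon
        push Not at hcon
        nlinarith
      positivity
    · have h3 : kk t < 0 := by
        unfold kk
        rw [kh_eq_zero (t := t) (by linarith)]
        linarith [kh_pos h2]
      have h4 : Wt' t < 0 := by
        by_contra hcon
        push Not at hcon
        nlinarith
      nlinarith

lemma Wt'_kk_pos {t : ℝ} (h : π < |t|) : 0 < Wt' t * kk t := by
  have h1 := Wt'_sign h
  have hpi := Real.pi_pos
  rcases lt_abs.mp h with h2 | h2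
  · have h3 : 0 < kk t := by
      unfold kk
      rw [kh_eq_zero (t := -t) (by linarith)]
      linarith [kh_pos h2]
    have h4 : 0 < Wt' t := by
      by_contra hcon
      push Not at hcon
      nlinarith
    positivity
  · have h3 : kk t < 0 := by
      unfold kk
      rw [kh_eq_zero (t := t) (by linarith)]
      linarith [kh_pos h2]
    have h4 : Wt' t < 0 := by
      by_contra hcon
      push Not at hcon
      nlinarith
    nlinarith

/-- The maximum principle. -/
theorem abs_le_pi {Ω : Type*} [MeasurableSpace Ω] {A : Measure Ω} [IsFiniteMeasure A]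
    {H : Submodule ℝ (JetSp A)} (hH : CompStable H) {ε : ℝ} (hε : 0 < ε) {w : Ω → ℝ} (hw : IsWeight w)
    {U : JetSp A} (hU : IsWeak H ε w U) : ∀ᵐ x ∂A, |U.fst x| ≤ π := by
  obtain ⟨hUH, hweak⟩ := hU
  obtain ⟨hwm, c, C, hc, hwb⟩ := hw
  obtain ⟨V, hVH, hV1, hV2⟩ := hH kk contDiff_kk ⟨2, abs_deriv_kk_le⟩ U hUH
  have h1 := hweak V hVH
  have hin : 0 ≤ inner ℝ U.snd V.snd := by
    rw [L2.inner_def]
    refine integral_nonneg_of_ae ?_
    filter_upwards [hV2] with x hx
    rw [hx]
    have : inner ℝ (U.snd x) (((deriv kk (U.fst x) : ℝ) : ℂ) * U.snd x) =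
        deriv kk (U.fst x) * ‖U.snd x‖ ^ 2 := by
      rw [← Complex.real_smul, inner_smul_right, real_inner_self_eq_norm_sq]
    rw [this]
    exact mul_nonneg (deriv_kk_nonneg _) (sq_nonneg _)
  have hnn : ∀ᵐ x ∂A, 0 ≤ w x * Wt' (U.fst x) * V.fst x := by
    filter_upwards [hV1] with x hx
    rw [hx, mul_assoc]
    exact mul_nonneg (hc.le.trans (hwb x).1) (Wt'_kk_nonneg _)
  have hint : Integrable (fun x => w x * Wt' (U.fst x) * V.fst x) A := by
    have m1 : MemLp (fun x => Wt' (U.fst x)) 2 A := by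
      refine (Lp.memLp U.fst).mono (lip_Wt'.continuous.comp_aestronglyMeasurable (Lp.aestronglyMeasurable _))
        (Eventually.of_forall fun x => ?_)
      rw [Real.norm_eq_abs, Real.norm_eq_abs]
      exact abs_Wt'_le _
    have m2 : Integrable (fun x => Wt' (U.fst x) * V.fst x) A := m1.integrable_mul (Lp.memLp V.fst)
    have m3 : Integrable (fun x => w x * (Wt' (U.fst x) * V.fst x)) A :=
      m2.bdd_mul hwm.aestronglyMeasurable (c := C) (Eventually.of_forall fun x => by
        rw [Real.norm_eq_abs, abs_of_nonneg (hc.le.trans (hwb x).1)]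
        exact (hwb x).2)
    refine m3.congr (Eventually.of_forall fun x => ?_)
    simp only
    ring
  have h2 : 0 ≤ ∫ x, w x * Wt' (U.fst x) * V.fst x ∂A := integral_nonneg_of_ae hnn
  have h3 : ∫ x, w x * Wt' (U.fst x) * V.fst x ∂A = 0 := by
    have : 0 ≤ ε ^ 2 * inner ℝ U.snd V.snd := by positivity
    linarith
  have h4 := (integral_eq_zero_iff_of_nonneg_ae hnn hint).mp h3
  filter_upwards [h4, hV1] with x hx1 hx2
  by_contra hcon
  push Not at hcon
  have h5 := Wt'_kk_pos hcon
  have h6 : 0 < w x := hc.trans_le (hwb x).1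
  simp only [Pi.zero_apply] at hx1
  rw [hx2] at hx1
  have h7 : 0 < w x * (Wt' (U.fst x) * kk (U.fst x)) := mul_pos h6 h5
  rw [← mul_assoc, hx1] at h7
  exact lt_irrefl _ h7

end

end Pool.Agent.Helper85.CL
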