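import Pool.Agent.Helper85.CL.RegChart
import Pool.Agent.Helper85.CL.RegBound
import Pool.Agent.Helper53.CL.Iface

/-!
PROJECT CL, block B3: weak solutions on the surface are smooth solutions.
-/

open Set MeasureTheory Filter Topology Metric

open scoped ContDiff Real

open Pool.Agent.Helper53.CL Pool.Agent.Helper53.CL.C Pool.Agent.Helper53.CL.H

set_option linter.unusedSectionVars false

namespace Pool.Agent.Helper85.CL

noncomputable section

/-- Regularity of bounded weak solutions in the disc of radius `3`. -/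
def LocReg : Prop := ∀ (ε : ℝ), 0 < ε → ∀ (a v : ℂ → ℝ), ContDiffOn ℝ ∞ a (ball 0 3) →
    AEStronglyMeasurable v (volume.restrict (ball 0 3)) → (∀ z, |v z| ≤ π) →
    (∀ η : ℂ → ℝ, ContDiff ℝ ∞ η → HasCompactSupport η → tsupport η ⊆ ball 0 3 →
      ε ^ 2 * ∫ z, v z * lap η z = -∫ z, a z * Real.sin (v z) * η z) →
    ∃ g : ℂ → ℝ, ContDiffOn ℝ ∞ g (ball 0 3) ∧ (∀ᵐ z, z ∈ ball (0 : ℂ) 3 → v z = g z) ∧
      (∀ z ∈ ball (0 : ℂ) 3, |g z| ≤ π) ∧
      ∀ z ∈ ball (0 : ℂ) 3, ε ^ 2 * lap g z = -(a z * Real.sin (g z))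

section Pos

variable {S : Type*} [TopologicalSpace S] [MeasurableSpace S] [BorelSpace S]

variable (C : CSurf S)

/-- The area is positive on open sets. -/
lemma area_open {V : Set S} (hV : IsOpen V) (h0 : C.area V = 0) : V = ∅ := by
  by_contra hne
  obtain ⟨x, hx⟩ := Set.nonempty_iff_ne_empty.2 hne
  obtain ⟨i, hi, -⟩ := C.cover x
  have hVi : IsOpen (V ∩ (C.φ i).source) := hV.inter (C.φ i).open_source
  have h1 : C.area (V ∩ (C.φ i).source) = 0 := measure_mono_null inter_subset_left h0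
  rw [C.area_eq i _ hVi.measurableSet inter_subset_right] at h1
  have hW : IsOpen (C.φ i '' (V ∩ (C.φ i).source)) :=
    (C.φ i).isOpen_image_of_subset_source hVi inter_subset_right
  have hW3 : C.φ i '' (V ∩ (C.φ i).source) ⊆ ball 0 3 := by
    rintro _ ⟨y, hy, rfl⟩
    exact map_mem C i hy.2
  have hm : AEMeasurable (fun z => ENNReal.ofReal (C.ρ i z))
      (volume.restrict (C.φ i '' (V ∩ (C.φ i).source))) :=
    (((C.ρ_smooth i).continuousOn.mono hW3).aemeasurable hW.measurableSet).ennreal_ofReal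
  rw [lintegral_eq_zero_iff' hm] at h1
  have h2 : ∀ᵐ z, z ∈ C.φ i '' (V ∩ (C.φ i).source) → ENNReal.ofReal (C.ρ i z) = 0 :=
    (ae_restrict_iff' hW.measurableSet).1 h1
  have h3 : ∀ᵐ z : ℂ, z ∉ C.φ i '' (V ∩ (C.φ i).source) := by
    filter_upwards [h2] with z hz hzW
    have := hz hzW
    rw [ENNReal.ofReal_eq_zero] at this
    exact absurd (C.ρ_pos i z (hW3 hzW)) (not_lt.2 this)
  have h4 : volume (C.φ i '' (V ∩ (C.φ i).source)) = 0 := measure_eq_zero_iff_ae_notMem.2 h3
  exact (hW.measure_pos volume ⟨C.φ i x, ⟨x, ⟨hx, hi⟩, rfl⟩⟩).ne' h4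

lemma ae_chart (i : Fin C.n) {P : ℂ → Prop} (h : ∀ᵐ z, z ∈ ball (0 : ℂ) 3 → P z) :
    ∀ᵐ x ∂C.area, x ∈ (C.φ i).source → P (C.φ i x) := by
  have h1 : ∀ᵐ z ∂((volume.restrict (ball (0 : ℂ) 3)).withDensity
      (fun z => ENNReal.ofReal (C.ρ i z))), z ∈ ball (0 : ℂ) 3 → P z :=
    (withDensity_absolutelyContinuous _ _).ae_le (ae_restrict_of_ae h)
  rw [← H.area_map C i] at h1
  have haem : AEMeasurable (C.φ i) (C.area.restrict (C.φ i).source) :=
    (C.φ i).continuousOn.aemeasurable (C.φ i).open_source.measurableSet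
  have h2 := ae_of_ae_map haem h1
  rw [ae_restrict_iff' (C.φ i).open_source.measurableSet] at h2
  filter_upwards [h2] with x hx hxs
  exact hx hxs (map_mem C i hxs)

/-- Gluing. -/
lemma glue {f : S → ℝ} {g : Fin C.n → ℂ → ℝ} (hg : ∀ i, ContinuousOn (g i) (ball 0 3))
    (h : ∀ i, ∀ᵐ z, z ∈ ball (0 : ℂ) 3 → f ((C.φ i).symm z) = g i z) :
    ∃ u : S → ℝ, (∀ i, ∀ x ∈ (C.φ i).source, u x = g i (C.φ i x)) ∧ f =ᵐ[C.area] u := by
  have hae : ∀ i, ∀ᵐ x ∂C.area, x ∈ (C.φ i).source → f x = g i (C.φ i x) := by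
    intro i
    filter_upwards [ae_chart C i (h i)] with x hx hxs
    rw [← hx hxs, (C.φ i).left_inv hxs]
  have heq : ∀ i j, ∀ x ∈ (C.φ i).source, x ∈ (C.φ j).source → g i (C.φ i x) = g j (C.φ j x) := by
    intro i j x hi hj
    have ci : ContinuousOn (fun x => g i (C.φ i x)) (C.φ i).source :=
      (hg i).comp (C.φ i).continuousOn fun y hy => map_mem C i hy
    have cj : ContinuousOn (fun x => g j (C.φ j x)) (C.φ j).source :=
      (hg j).comp (C.φ j).continuousOn fun y hy => map_mem C j hy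
    have cd : ContinuousOn (fun x => g i (C.φ i x) - g j (C.φ j x)) ((C.φ i).source ∩ (C.φ j).source) :=
      (ci.mono inter_subset_left).sub (cj.mono inter_subset_right)
    have ho : IsOpen ((C.φ i).source ∩ (C.φ j).source) := (C.φ i).open_source.inter (C.φ j).open_source
    have hVo : IsOpen (((C.φ i).source ∩ (C.φ j).source) ∩
        (fun x => g i (C.φ i x) - g j (C.φ j x)) ⁻¹' {0}ᶜ) :=
      cd.isOpen_inter_preimage ho isOpen_compl_singleton
    have hV0 : C.area (((C.φ i).source ∩ (C.φ j).source) ∩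
        (fun x => g i (C.φ i x) - g j (C.φ j x)) ⁻¹' {0}ᶜ) = 0 := by
      have h1 : ∀ᵐ y ∂C.area, y ∉ ((C.φ i).source ∩ (C.φ j).source) ∩
          (fun x => g i (C.φ i x) - g j (C.φ j x)) ⁻¹' {0}ᶜ := by
        filter_upwards [hae i, hae j] with y h1 h2 h3
        apply h3.2
        show g i (C.φ i y) - g j (C.φ j y) = 0
        rw [← h1 h3.1.1, ← h2 h3.1.2, sub_self]
      exact measure_eq_zero_iff_ae_notMem.2 h1
    have hV := area_open C hVo hV0
    by_contra hne
    have : x ∈ (((C.φ i).source ∩ (C.φ j).source) ∩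
        (fun x => g i (C.φ i x) - g j (C.φ j x)) ⁻¹' {0}ᶜ) :=
      ⟨⟨hi, hj⟩, fun h0 => hne (sub_eq_zero.1 h0)⟩
    rw [hV] at this
    exact this
  refine ⟨fun x => g (C.idx x) (C.φ (C.idx x) x), fun i x hx => heq _ _ x (idx_spec' C x).1 hx, ?_⟩
  filter_upwards [ae_all_iff.2 hae] with x hx
  exact hx (C.idx x) (idx_spec' C x).1

end Pos

universe u

/-- Regularity. -/
theorem reg {S : Type u} [TopologicalSpace S] [CompactSpace S] [T2Space S] [MeasurableSpace S] [BorelSpace S]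
    (hS : Iface.Sob S) (hL : LocReg) : Iface.Reg S := by
  intro C w hw hpos ε hε U hU
  obtain ⟨hfin, hE, hcs⟩ := hS C
  have hwc : Continuous w := H.continuous_of_isC1 C (H.isC1_of_isSmooth C hw)
  have hW : IsWeight w := by
    refine ⟨hwc.measurable, ?_⟩
    rcases isEmpty_or_nonempty S with hemp | hne
    · exact ⟨1, 1, one_pos, fun x => (hemp.false x).elim⟩
    · obtain ⟨x0, -, h0⟩ := isCompact_univ.exists_isMinOn univ_nonempty hwc.continuousOn
      obtain ⟨x1, -, h1⟩ := isCompact_univ.exists_isMaxOn univ_nonempty hwc.continuousOn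
      exact ⟨w x0, w x1, hpos x0, fun x => ⟨h0 (mem_univ x), h1 (mem_univ x)⟩⟩
  have hbd := abs_le_pi hcs hε hW hU
  obtain ⟨f, hf⟩ : ∃ f : S → ℝ, f = fun x => max (-π) (min π (U.fst x)) := ⟨_, rfl⟩
  have hfm : Measurable f := by
    rw [hf]
    exact measurable_const.max (measurable_const.min (Lp.stronglyMeasurable U.fst).measurable)
  have hfb : ∀ x, |f x| ≤ π := by
    intro x
    rw [hf, abs_le]
    exact ⟨le_max_left _ _, max_le (by linarith [Real.pi_pos]) (min_le_left _ _)⟩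
  have hfU : U.fst =ᵐ[C.area] f := by
    filter_upwards [hbd] with x hx
    rw [abs_le] at hx
    rw [hf]
    simp only
    rw [min_eq_right hx.2, max_eq_right hx.1]
  have hasm : ∀ i, ContDiffOn ℝ ∞ (C.a w i) (ball 0 3) := fun i => (C.ρ_smooth i).mul (hw i)
  have hreg : ∀ i, ∃ g : ℂ → ℝ, ContDiffOn ℝ ∞ g (ball 0 3) ∧
      (∀ᵐ z, z ∈ ball (0 : ℂ) 3 → (ball (0 : ℂ) 3).indicator (f ∘ (C.φ i).symm) z = g z) ∧
      (∀ z ∈ ball (0 : ℂ) 3, |g z| ≤ π) ∧
      ∀ z ∈ ball (0 : ℂ) 3, ε ^ 2 * lap g z = -(C.a w i z * Real.sin (g z)) := by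
    intro i
    refine hL ε hε (C.a w i) _ (hasm i) ?_ ?_ ?_
    · rw [aestronglyMeasurable_indicator_iff measurableSet_ball, Measure.restrict_restrict measurableSet_ball,
        inter_self]
      have h1 : ContinuousOn (C.φ i).symm (ball 0 3) := by
        rw [← C.target i]
        exact (C.φ i).continuousOn_symm
      have h2 : AEMeasurable (C.φ i).symm (volume.restrict (ball (0 : ℂ) 3)) :=
        h1.aemeasurable measurableSet_ball
      exact (hfm.comp_aemeasurable h2).aestronglyMeasurable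
    · intro z
      by_cases hz : z ∈ ball (0 : ℂ) 3
      · rw [indicator_of_mem hz]
        exact hfb _
      · rw [indicator_of_notMem hz, abs_zero]
        exact Real.pi_pos.le
    · intro η h1 h2 h3
      exact chart_eq C i hU hfU hfb h1 h2 h3
  choose g hg1 hg2 hg3 hg4 using hreg
  obtain ⟨v, hv, hfv⟩ := glue C (f := f) (g := g) (fun i => (hg1 i).continuousOn) (fun i => by
    filter_upwards [hg2 i] with z hz hz3
    have := hz hz3
    rw [indicator_of_mem hz3] at this
    exact this)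
  have hvz : ∀ i, ∀ z ∈ ball (0 : ℂ) 3, v ((C.φ i).symm z) = g i z := by
    intro i z hz
    rw [hv i _ (symm_mem C i hz), right_inv C i hz]
  have hvb : ∀ x, |v x| ≤ π := by
    intro x
    have h1 := idx_spec' C x
    rw [hv _ x h1.1]
    exact hg3 _ _ (map_mem C _ h1.1)
  have hvs : C.IsSmooth v := fun i => (hg1 i).congr fun z hz => hvz i z hz
  have hv1 := H.isC1_of_isSmooth C hvs
  have hUv : U.fst =ᵐ[C.area] v := hfU.trans hfv
  obtain ⟨V, hV, hVm⟩ := SOB.exists_jet (SOB.jclassS C) (show SOB.JS C v (C.grad v) from ⟨hv1, rfl⟩)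
  rw [← SOB.HS_eq] at hVm
  have hUV : U = V := by
    have h1 : U - V ∈ C.HS := C.HS.sub_mem hU.1 hVm
    have h2 : (U - V).fst = 0 := by
      have h3 : U.fst = V.fst := by
        refine Lp.ext ?_
        exact hUv.trans hV.1.symm
      rw [WithLp.sub_fst, h3, sub_self]
    exact sub_eq_zero.1 (hE.inj _ h1 h2)
  have hgrad : C.grad (fun x => v x + π) = C.grad v := by
    funext x
    unfold CSurf.grad
    congr 1
    unfold gr dx dy
    have : fderiv ℝ ((fun x => v x + π) ∘ (C.φ (C.idx x)).symm) (C.φ (C.idx x) x) =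
        fderiv ℝ (v ∘ (C.φ (C.idx x)).symm) (C.φ (C.idx x) x) := by
      have e : ((fun x => v x + π) ∘ (C.φ (C.idx x)).symm) = fun z => (v ∘ (C.φ (C.idx x)).symm) z + π := rfl
      rw [e, fderiv_add_const]
    rw [this]
  refine ⟨fun x => v x + π, ⟨?_, ?_, ?_, ?_⟩, ?_, ?_⟩
  · intro i
    exact (hvs i).add contDiffOn_const
  · intro i z hz
    have h1 : lap ((fun x => v x + π) ∘ (C.φ i).symm) z = lap (g i) z := by
      have hloc : ∀ y ∈ ball (0 : ℂ) 3, fderiv ℝ ((fun x => v x + π) ∘ (C.φ i).symm) y = fderiv ℝ (g i) y := by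
        intro y hy
        have hev : ((fun x => v x + π) ∘ (C.φ i).symm) =ᶠ[𝓝 y] fun z => g i z + π := by
          filter_upwards [isOpen_ball.mem_nhds hy] with y' hy'
          show v ((C.φ i).symm y') + π = g i y' + π
          rw [hvz i y' hy']
        rw [hev.fderiv_eq, fderiv_add_const]
      have e1 : dx ((fun x => v x + π) ∘ (C.φ i).symm) =ᶠ[𝓝 z] dx (g i) := by
        filter_upwards [isOpen_ball.mem_nhds hz] with y hy
        unfold dx
        rw [hloc y hy]
      have e2 : dy ((fun x => v x + π) ∘ (C.φ i).symm) =ᶠ[𝓝 z] dy (g i) := by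
        filter_upwards [isOpen_ball.mem_nhds hz] with y hy
        unfold dy
        rw [hloc y hy]
      show fderiv ℝ (dx ((fun x => v x + π) ∘ (C.φ i).symm)) z 1 +
        fderiv ℝ (dy ((fun x => v x + π) ∘ (C.φ i).symm)) z Complex.I = _
      rw [e1.fderiv_eq, e2.fderiv_eq]
      rfl
    rw [h1, hg4 i z hz]
    show -(C.a w i z * Real.sin (g i z)) = C.a w i z * Real.sin (v ((C.φ i).symm z) + π)
    rw [hvz i z hz, Real.sin_add_pi]
    ring
  · intro x
    have := hvb x
    rw [abs_le] at this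
    show 0 ≤ v x + π
    linarith
  · intro x
    have := hvb x
    rw [abs_le] at this
    show v x + π ≤ 2 * π
    linarith
  · filter_upwards [hUv] with x hx
    rw [hx]
    ring
  · rw [hgrad, hUV]
    exact hV.2

end

end Pool.Agent.Helper85.CL
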