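import Pool.Agent.Helper53.CL.Defs

/-!
PROJECT CL, blocks D4 to D6: the two inputs from blocks D1 to D3.
-/

open Set MeasureTheory Filter Topology Metric

open scoped ContDiff Real

open Pool.Agent.Helper53.CL

namespace Pool.Agent.Helper85.CL

/-- The cutoff function `(1 - |z - x|^2 / r^2)_+^2`. -/
noncomputable def cut (x : ℂ) (r : ℝ) (z : ℂ) : ℝ := (max (1 - ‖z - x‖ ^ 2 / r ^ 2) 0) ^ 2

/-- Density bounds for the limit measure in every smaller disc. -/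
def DensR : Prop := ∀ a aj ε u μ, LocSeq a aj ε u → EConv aj ε u μ → IsFiniteMeasure μ → ∀ R < 2,
  ∃ c K r0 : ℝ, 0 < c ∧ 0 < r0 ∧
    (∀ x ∈ closedBall (0 : ℂ) R, ∀ r ∈ Set.Ioo 0 r0, μ (ball x r) ≤ ENNReal.ofReal (K * r)) ∧
    (∀ x ∈ closedBall (0 : ℂ) R, (∀ r > 0, 0 < μ (ball x r)) → ∀ r ∈ Set.Ioo 0 r0,
      ENNReal.ofReal (c * r) ≤ μ (ball x r))

/-- Dyadic form of the monotonicity formula, with the negative part of the discrepancy. -/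
def MonoD : Prop := ∀ a aj ε u, LocSeq a aj ε u → ∀ R < 2, ∃ C r0 : ℝ, 0 < r0 ∧ R + 2 * r0 < 2 ∧
  ∀ j, ∀ x ∈ closedBall (0 : ℂ) R, ∀ s ∈ Set.Ioo 0 r0,
    1 / (2 * s) * ∫ z, cut x s z * max (-disc (ε j) (aj j) (u j) z) 0 ≤
      1 / (2 * s) * (∫ z, cut x (2 * s) z * ed (ε j) (aj j) (u j) z) -
        1 / s * (∫ z, cut x s z * ed (ε j) (aj j) (u j) z) + C * s

end Pool.Agent.Helper85.CL
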