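import Pool.Agent.Helper85.CL.Bdd
import Pool.Agent.Helper74.CE.Dom
import Pool.Agent.Helper59.CL.Main

/-!
PROJECT CL: the statement `Unif` from `Bnd1` by scaling, and the Modica estimate.
-/

open Set MeasureTheory Filter Topology Metric

open scoped ContDiff Real

open Pool.Agent.Helper53.CL

namespace Pool.Agent.Helper85.CL

section scale

variable {u : ℂ → ℝ} {x : ℂ} {e : ℝ}

lemma fderiv_scale {f : ℂ → ℝ} {y : ℂ} (hf : DifferentiableAt ℝ f (x + e * y)) (v : ℂ) :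
    fderiv ℝ (fun w => f (x + e * w)) y v = e * fderiv ℝ f (x + e * y) v := by
  have h1 : HasFDerivAt (fun w : ℂ => x + (e : ℂ) * w) ((e : ℂ) • ContinuousLinearMap.id ℝ ℂ) y := by
    have := ((hasFDerivAt_id (𝕜 := ℝ) y).const_mul (e : ℂ)).const_add x
    exact this
  have h2 := hf.hasFDerivAt.comp y h1
  have h3 : HasFDerivAt (fun w => f (x + e * w)) _ y := h2
  rw [h3.fderiv]
  simp only [ContinuousLinearMap.comp_apply, smul_apply, ContinuousLinearMap.id_apply, smul_eq_mul]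
  have : (e : ℂ) * v = e • v := by rw [Complex.real_smul]
  rw [this, map_smul, smul_eq_mul]

lemma lap_scale {D : Set ℂ} (hD : IsOpen D) (hu : ContDiffOn ℝ ∞ u D) {y : ℂ} (hy : x + e * y ∈ D) :
    lap (fun w => u (x + e * w)) y = e ^ 2 * lap u (x + e * y) := by
  have hcont : Continuous fun w : ℂ => x + (e : ℂ) * w := by fun_prop
  have hev : ∀ᶠ w in 𝓝 y, x + (e : ℂ) * w ∈ D := hcont.continuousAt.eventually (hD.mem_nhds hy)
  have hd : ∀ z ∈ D, DifferentiableAt ℝ u z := fun z hz =>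
    (hu.contDiffAt (hD.mem_nhds hz)).differentiableAt (by simp)
  have hfd : ContDiffOn ℝ ∞ (fderiv ℝ u) D := hu.fderiv_of_isOpen hD (by norm_cast)
  have h2 : ∀ v : ℂ, DifferentiableAt ℝ (fun z => fderiv ℝ u z v) (x + e * y) := fun v =>
    ((hfd.clm_apply contDiffOn_const).contDiffAt (hD.mem_nhds hy)).differentiableAt (by simp)
  have key : ∀ v : ℂ, fderiv ℝ (fun w => fderiv ℝ (fun w => u (x + e * w)) w v) y v =
      e ^ 2 * fderiv ℝ (fun z => fderiv ℝ u z v) (x + e * y) v := by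
    intro v
    have e1 : (fun w => fderiv ℝ (fun w => u (x + e * w)) w v) =ᶠ[𝓝 y]
        fun w => e * (fun z => fderiv ℝ u z v) (x + e * w) := by
      filter_upwards [hev] with w hw
      exact fderiv_scale (hd _ hw) v
    rw [e1.fderiv_eq]
    have h3 : DifferentiableAt ℝ (fun w => (fun z => fderiv ℝ u z v) (x + e * w)) y := by
      exact DifferentiableAt.comp (g := fun z => fderiv ℝ u z v) (f := fun w => x + (e : ℂ) * w) y
        (h2 v) (by fun_prop)
    rw [fderiv_const_mul h3]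
    rw [smul_apply, fderiv_scale (h2 v) v, smul_eq_mul]
    ring
  have k1 := key 1
  have k2 := key Complex.I
  unfold lap
  change fderiv ℝ (fun w => fderiv ℝ (fun w => u (x + e * w)) w 1) y 1 +
    fderiv ℝ (fun w => fderiv ℝ (fun w => u (x + e * w)) w Complex.I) y Complex.I =
    e ^ 2 * (fderiv ℝ (fun z => fderiv ℝ u z 1) (x + e * y) 1 +
      fderiv ℝ (fun z => fderiv ℝ u z Complex.I) (x + e * y) Complex.I)
  rw [k1, k2]
  ring

end scale

section unif

variable {S : Type*} [TopologicalSpace S] [MeasurableSpace S]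

theorem unif_first (hB : Iface.Bnd1) (C : CSurf S) (b : S → ℝ) (hb : C.IsSmooth b) (k : ℕ) :
    ∃ K, ∀ t ∈ Icc (0 : ℝ) 1, ∀ ε ∈ Ioc (0 : ℝ) 1, ∀ u,
      C.IsSol ε (fun x => Real.exp (t * b x)) u → ∀ i, ∀ z ∈ ball (0 : ℂ) 2,
        ε ^ k * ‖iteratedFDeriv ℝ k (u ∘ (C.φ i).symm) z‖ ≤ K := by
  have hbd : ∀ (i : Fin C.n) (m : ℕ), ∃ A, 0 ≤ A ∧ ∀ t ∈ Icc (0 : ℝ) 1, ∀ z ∈ closedBall (0 : ℂ) (5 / 2),
      ‖iteratedFDeriv ℝ m (fun z => C.ρ i z * Real.exp (t * (b ∘ (C.φ i).symm) z)) z‖ ≤ A :=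
    fun i m => bdd_exp (C.ρ_smooth i) (hb i) m (by norm_num)
  choose A hA0 hA using hbd
  let M : ℕ → ℝ := fun m => ∑ i, A i m
  have hM : ∀ i m, A i m ≤ M m := fun i m =>
    Finset.single_le_sum (f := fun i => A i m) (fun i _ => hA0 i m) (Finset.mem_univ i)
  obtain ⟨K, hK⟩ := hB M k
  refine ⟨4 ^ k * K, fun t ht ε hε u hu i z hz => ?_⟩
  set e : ℝ := ε / 4 with he
  have he0 : 0 < e := by have := hε.1; positivity
  have he4 : e ≤ 1 / 4 := by have := hε.2; rw [he]; linarith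
  set v : ℂ → ℝ := u ∘ (C.φ i).symm with hv
  set a : ℂ → ℝ := fun z => C.ρ i z * Real.exp (t * (b ∘ (C.φ i).symm) z) with ha
  have hvs : ContDiffOn ℝ ∞ v (ball 0 3) := hu.smooth i
  have has : ContDiffOn ℝ ∞ a (ball 0 3) :=
    (C.ρ_smooth i).mul (Real.contDiff_exp.comp_contDiffOn (contDiffOn_const.mul (hb i)))
  have hin : ∀ y ∈ ball (0 : ℂ) 2, z + e * y ∈ closedBall (0 : ℂ) (5 / 2) := by
    intro y hy
    rw [mem_ball, dist_zero_right] at hy hz
    rw [mem_closedBall, dist_zero_right]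
    calc ‖z + e * y‖ ≤ ‖z‖ + ‖(e : ℂ) * y‖ := norm_add_le _ _
      _ = ‖z‖ + e * ‖y‖ := by rw [norm_mul, Complex.norm_real, Real.norm_eq_abs, abs_of_pos he0]
      _ ≤ 2 + 1 / 4 * 2 := by gcongr
      _ = 5 / 2 := by norm_num
  have hin3 : ∀ y ∈ ball (0 : ℂ) 2, z + e * y ∈ ball (0 : ℂ) 3 := fun y hy =>
    closedBall_subset_ball (by norm_num) (hin y hy)
  have hmap : ContDiff ℝ ∞ fun y : ℂ => z + (e : ℂ) * y := by fun_prop
  have hsv : ContDiffOn ℝ ∞ (fun y => v (z + e * y)) (ball 0 2) :=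
    hvs.comp hmap.contDiffOn hin3
  have hsa : ContDiffOn ℝ ∞ (fun y => a (z + e * y)) (ball 0 2) :=
    has.comp hmap.contDiffOn hin3
  have hsol : LSol (ball 0 2) 1 (fun y => 1 / 16 * a (z + e * y)) (fun y => v (z + e * y)) := by
    refine ⟨hsv, fun y hy => ?_, fun y hy => hu.nonneg _, fun y hy => hu.le _⟩
    rw [lap_scale isOpen_ball hvs (hin3 y hy)]
    have h1 := hu.eq i (z + e * y) (hin3 y hy)
    have h2 : C.a (fun x => Real.exp (t * b x)) i (z + e * y) = a (z + e * y) := rfl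
    rw [h2] at h1
    have h3 : v (z + e * y) = u ((C.φ i).symm (z + e * y)) := rfl
    rw [h3]
    have h4 : e ^ 2 = ε ^ 2 / 16 := by rw [he]; ring
    rw [h4]
    linarith
  have hab : ∀ m, ∀ y ∈ ball (0 : ℂ) 2, ‖iteratedFDeriv ℝ m (fun y => 1 / 16 * a (z + e * y)) y‖ ≤ M m := by
    intro m y hy
    have h1 : (fun y => 1 / 16 * a (z + e * y)) = (1 / 16 : ℝ) • fun y => a (z + e * y) := by
      ext w; simp
    have h2 : ContDiffAt ℝ m (fun y => a (z + e * y)) y :=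
      (hsa.contDiffAt (isOpen_ball.mem_nhds hy)).of_le (by exact_mod_cast le_top)
    rw [h1, iteratedFDeriv_const_smul_apply h2, norm_smul,
      Pool.Agent.Helper74.CE.norm_itd_scale he0 isOpen_ball has (hin3 y hy) m]
    have h3 := (hA i m t ht (z + e * y) (hin y hy)).trans (hM i m)
    have h4 : e ^ m ≤ 1 := pow_le_one₀ he0.le (by linarith)
    have h5 : ‖(1 / 16 : ℝ)‖ ≤ 1 := by norm_num
    calc ‖(1 / 16 : ℝ)‖ * (e ^ m * ‖iteratedFDeriv ℝ m a (z + e * y)‖) ≤ 1 * (1 * M m) := by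
          have := norm_nonneg (iteratedFDeriv ℝ m a (z + e * y))
          gcongr
      _ = M m := by ring
  have hfin := hK _ _ (contDiffOn_const.mul hsa) hab hsol
  have hz0 : z + (e : ℂ) * 0 ∈ ball (0 : ℂ) 3 := by
    rw [mul_zero, add_zero]
    exact ball_subset_ball (by norm_num) hz
  rw [Pool.Agent.Helper74.CE.norm_itd_scale he0 isOpen_ball hvs hz0 k, mul_zero, add_zero] at hfin
  have h5 : ε ^ k = 4 ^ k * e ^ k := by rw [← mul_pow, he]; ring
  rw [h5, mul_assoc]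
  gcongr

end unif

theorem unif (S : Type*) [TopologicalSpace S] [CompactSpace S] [T2Space S] [MeasurableSpace S] [BorelSpace S]
    (hB : Iface.Bnd1) : Iface.Unif S := fun C b hb =>
  ⟨fun k => unif_first hB C b hb k,
    Pool.Agent.Helper59.CL.Main.unif_disc C b hb (unif_first hB C b hb 1)⟩

end Pool.Agent.Helper85.CL
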