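import Pool.Agent.Helper85.CL.Compact

/-!
PROJECT CL, block D5: existence of the density `m` by disintegration (Young measure).
-/

open Set MeasureTheory Filter Topology Metric

namespace Pool.Agent.Helper85.CL

noncomputable section

/-- The identity of the unit disc, extended by zero. -/
def hcut (z : ℂ) : ℂ := (closedBall (0 : ℂ) 1).indicator id z

lemma measurable_hcut : Measurable hcut := measurable_id.indicator measurableSet_closedBall

lemma norm_hcut_le (z : ℂ) : ‖hcut z‖ ≤ 1 := by
  unfold hcut
  by_cases h : z ∈ closedBall (0 : ℂ) 1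
  · rw [indicator_of_mem h]; simpa using h
  · rw [indicator_of_notMem h]; simp

/-- Existence of a limit measure and a limit density of modulus at most one. -/
theorem exists_limit_density {K : Set ℂ} (hK : IsCompact K) (ρ : ℕ → Measure ℂ)
    (hf : ∀ j, IsFiniteMeasure (ρ j)) {C : ℝ} (hC : ∀ j, (ρ j).real univ ≤ C)
    (hs : ∀ j, ρ j Kᶜ = 0) (τ : ℕ → ℂ → ℂ) (hτ : ∀ j, Measurable (τ j)) (hτ1 : ∀ j z, ‖τ j z‖ ≤ 1) :
    ∃ φ : ℕ → ℕ, StrictMono φ ∧ ∃ μ : Measure ℂ, IsFiniteMeasure μ ∧ μ Kᶜ = 0 ∧
      (∀ f : ℂ → ℝ, Continuous f →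
        Tendsto (fun j => ∫ x, f x ∂(ρ (φ j))) atTop (𝓝 (∫ x, f x ∂μ))) ∧
      ∃ m : ℂ → ℂ, Measurable m ∧ (∀ z, ‖m z‖ ≤ 1) ∧
        ∀ f : ℂ → ℝ, Continuous f →
          Tendsto (fun j => ∫ x, (f x : ℂ) * τ (φ j) x ∂(ρ (φ j))) atTop
            (𝓝 (∫ x, (f x : ℂ) * m x ∂μ)) := by
  -- the measures on the product
  let Kt : Set (ℂ × ℂ) := K ×ˢ closedBall 0 1
  have hKt : IsCompact Kt := hK.prod (isCompact_closedBall 0 1)
  have hmeas : ∀ j, Measurable fun x => (x, τ j x) := fun j => measurable_id.prodMk (hτ j)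
  let R : ℕ → Measure (ℂ × ℂ) := fun j => (ρ j).map fun x => (x, τ j x)
  have hRf : ∀ j, IsFiniteMeasure (R j) := fun j => by
    have := hf j
    exact inferInstanceAs (IsFiniteMeasure ((ρ j).map _))
  have hRC : ∀ j, (R j).real univ ≤ C := fun j => by
    have : (R j).real univ = (ρ j).real univ := by
      rw [measureReal_def, measureReal_def, Measure.map_apply (hmeas j) MeasurableSet.univ]
      simp
    rw [this]; exact hC j
  have hRs : ∀ j, R j Ktᶜ = 0 := fun j => by
    rw [Measure.map_apply (hmeas j) hKt.isClosed.measurableSet.compl]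
    refine measure_mono_null ?_ (hs j)
    intro x hx hxK
    apply hx
    exact ⟨hxK, by simpa using hτ1 j x⟩
  obtain ⟨φ, hφ, P, hPf, hPs, hlim⟩ := exists_subseq hKt R hRf hRC hRs
  let m : ℂ → ℂ := fun x => ∫ z, hcut z ∂(P.condKernel x)
  have hm : Measurable m := by
    have h1 : StronglyMeasurable fun x : ℂ => ∫ z, hcut z ∂(P.condKernel x) := by
      exact StronglyMeasurable.integral_kernel_prod_right' (κ := P.condKernel)
        (f := fun p : ℂ × ℂ => hcut p.2) (measurable_hcut.comp measurable_snd).stronglyMeasurable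
    exact h1.measurable
  have hm1 : ∀ x, ‖m x‖ ≤ 1 := fun x => by
    calc ‖m x‖ ≤ ∫ z, (1 : ℝ) ∂(P.condKernel x) :=
          norm_integral_le_of_norm_le (integrable_const _) (Eventually.of_forall norm_hcut_le)
      _ = 1 := by simp
  refine ⟨φ, hφ, P.fst, inferInstance, ?_, ?_, m, hm, hm1, ?_⟩
  · rw [Measure.fst_apply hK.isClosed.measurableSet.compl]
    refine measure_mono_null ?_ hPs
    intro p hp hpK
    exact hp hpK.1
  · intro f hfc
    have h1 := hlim (fun p => f p.1) (hfc.comp continuous_fst)
    have h2 : ∀ j, ∫ p, f p.1 ∂(R (φ j)) = ∫ x, f x ∂(ρ (φ j)) := fun j => by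
      change ∫ p, f p.1 ∂((ρ (φ j)).map fun x => (x, τ (φ j) x)) = _
      rw [integral_map (hmeas _).aemeasurable (by fun_prop)]
    have h3 : ∫ p, f p.1 ∂P = ∫ x, f x ∂P.fst := by
      rw [Measure.fst, integral_map measurable_fst.aemeasurable (by fun_prop)]
    rw [h3] at h1
    exact h1.congr h2
  · intro f hfc
    have hre := hlim (fun p => f p.1 * p.2.re) (by fun_prop)
    have him := hlim (fun p => f p.1 * p.2.im) (by fun_prop)
    -- boundedness
    obtain ⟨B, hB⟩ := hK.exists_bound_of_continuousOn hfc.continuousOn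
    have hint : ∀ j, Integrable (fun x => (f x : ℂ) * τ (φ j) x) (ρ (φ j)) := fun j => by
      have := hf (φ j)
      refine (integrable_const B).mono' ?_ ?_
      · exact (Complex.continuous_ofReal.comp hfc).aestronglyMeasurable.mul
          (hτ _).aestronglyMeasurable
      · filter_upwards [measure_eq_zero_iff_ae_notMem.mp (hs (φ j))] with x hx
        rw [notMem_compl_iff] at hx
        rw [norm_mul, Complex.norm_real]
        calc ‖f x‖ * ‖τ (φ j) x‖ ≤ B * 1 :=
              mul_le_mul (hB x hx) (hτ1 _ _) (norm_nonneg _) ((norm_nonneg _).trans (hB x hx))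
          _ = B := mul_one B
    have hintP : Integrable (fun p : ℂ × ℂ => (f p.1 : ℂ) * hcut p.2) P := by
      refine (integrable_const B).mono' ?_ ?_
      · exact (Complex.continuous_ofReal.comp (hfc.comp continuous_fst)).aestronglyMeasurable.mul
          (measurable_hcut.comp measurable_snd).aestronglyMeasurable
      · filter_upwards [measure_eq_zero_iff_ae_notMem.mp hPs] with p hp
        rw [notMem_compl_iff] at hp
        rw [norm_mul, Complex.norm_real]
        calc ‖f p.1‖ * ‖hcut p.2‖ ≤ B * 1 :=
              mul_le_mul (hB _ hp.1) (norm_hcut_le _) (norm_nonneg _)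
                ((norm_nonneg _).trans (hB _ hp.1))
          _ = B := mul_one B
    have hP1 : ∫ x, (f x : ℂ) * m x ∂P.fst = ∫ p, (f p.1 : ℂ) * hcut p.2 ∂P := by
      rw [← Measure.integral_condKernel hintP]
      refine integral_congr_ae (Eventually.of_forall fun x => ?_)
      simp only [m]
      rw [integral_const_mul]
    have hP2 : ∫ p, (f p.1 : ℂ) * hcut p.2 ∂P = ∫ p, (f p.1 : ℂ) * p.2 ∂P := by
      refine integral_congr_ae ?_
      filter_upwards [measure_eq_zero_iff_ae_notMem.mp hPs] with p hp
      rw [notMem_compl_iff] at hp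
      rw [hcut, indicator_of_mem hp.2]; rfl
    have hintP2 : Integrable (fun p : ℂ × ℂ => (f p.1 : ℂ) * p.2) P := by
      refine hintP.congr ?_
      filter_upwards [measure_eq_zero_iff_ae_notMem.mp hPs] with p hp
      rw [notMem_compl_iff] at hp
      rw [hcut, indicator_of_mem hp.2]; rfl
    have hR1 : ∀ j, ∫ p, f p.1 * p.2.re ∂(R (φ j)) = (∫ x, (f x : ℂ) * τ (φ j) x ∂(ρ (φ j))).re := by
      intro j
      change ∫ p, f p.1 * p.2.re ∂((ρ (φ j)).map fun x => (x, τ (φ j) x)) = _
      rw [integral_map (hmeas _).aemeasurable (by fun_prop)]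
      have := integral_re (hint j)
      simp only [RCLike.re_to_complex] at this
      rw [← this]
      refine integral_congr_ae (Eventually.of_forall fun x => ?_)
      simp
    have hR2 : ∀ j, ∫ p, f p.1 * p.2.im ∂(R (φ j)) = (∫ x, (f x : ℂ) * τ (φ j) x ∂(ρ (φ j))).im := by
      intro j
      change ∫ p, f p.1 * p.2.im ∂((ρ (φ j)).map fun x => (x, τ (φ j) x)) = _
      rw [integral_map (hmeas _).aemeasurable (by fun_prop)]
      have := integral_im (hint j)
      simp only [RCLike.im_to_complex] at this
      rw [← this]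
      refine integral_congr_ae (Eventually.of_forall fun x => ?_)
      simp
    have hR3 : ∫ p, f p.1 * p.2.re ∂P = (∫ x, (f x : ℂ) * m x ∂P.fst).re := by
      rw [hP1, hP2]
      have := integral_re hintP2
      simp only [RCLike.re_to_complex] at this
      rw [← this]
      refine integral_congr_ae (Eventually.of_forall fun x => ?_)
      simp
    have hR4 : ∫ p, f p.1 * p.2.im ∂P = (∫ x, (f x : ℂ) * m x ∂P.fst).im := by
      rw [hP1, hP2]
      have := integral_im hintP2
      simp only [RCLike.im_to_complex] at this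
      rw [← this]
      refine integral_congr_ae (Eventually.of_forall fun x => ?_)
      simp
    simp only [hR1, hR3] at hre
    simp only [hR2, hR4] at him
    have h := (Complex.continuous_ofReal.continuousAt.tendsto.comp hre).add
      ((Complex.continuous_ofReal.continuousAt.tendsto.comp him).mul_const Complex.I)
    simp only [Function.comp_def, Complex.re_add_im] at h
    exact h

end

end Pool.Agent.Helper85.CL
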