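import Pool.Agent.Helper85.CL.Conv
import Pool.Agent.Helper85.CL.Young
import Pool.Agent.Helper53.CL.Iface

/-!
PROJECT CL, blocks D4 and D5: the statements `Disc0` and `MLim`.
-/

open Set MeasureTheory Filter Topology Metric

open scoped ContDiff Real ENNReal

open Pool.Agent.Helper53.CL

namespace Pool.Agent.Helper85.CL

/-- Comparison of measures from test functions. -/
lemma le_of_test {μ ν : Measure ℂ} [IsFiniteMeasure μ] [IsFiniteMeasure ν] {Ω : Set ℂ}
    (hΩ : IsOpen Ω) (h : ∀ f : ℂ → ℝ, Continuous f → HasCompactSupport f → tsupport f ⊆ Ω →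
      (∀ z, 0 ≤ f z) → ∫ z, f z ∂ν ≤ ∫ z, f z ∂μ) : ν.restrict Ω ≤ μ.restrict Ω := by
  have hKK : ∀ K : Set ℂ, IsCompact K → K ⊆ Ω → ν K ≤ μ K := by
    intro K hK hKΩ
    rw [K.measure_eq_iInf_isOpen μ]
    refine le_iInf fun U => le_iInf fun hKU => le_iInf fun hUo => ?_
    obtain ⟨f, hf1, hf2, hf3, hf4⟩ := exists_continuousMap_one_of_isCompact_subset_isOpen hK
      (hUo.inter hΩ) (subset_inter hKU hKΩ)
    have h1 := h f f.continuous hf2 (hf3.trans inter_subset_right) fun z => (hf4 z).1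
    have hfi : ∀ (κ : Measure ℂ) [IsFiniteMeasure κ], Integrable f κ := fun κ _ =>
      f.continuous.integrable_of_hasCompactSupport hf2
    have h2 : ν.real K ≤ ∫ z, f z ∂ν := by
      calc ν.real K = ∫ z, K.indicator (fun _ => (1 : ℝ)) z ∂ν := by
            rw [integral_indicator hK.measurableSet, setIntegral_const, smul_eq_mul, mul_one]
        _ ≤ ∫ z, f z ∂ν := by
            refine integral_mono ((integrable_const _).indicator hK.measurableSet) (hfi ν) fun z => ?_
            simp only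
            by_cases hz : z ∈ K
            · rw [indicator_of_mem hz, hf1 hz]; simp
            · rw [indicator_of_notMem hz]; exact (hf4 z).1
    have h3 : ∫ z, f z ∂μ ≤ μ.real U := by
      calc ∫ z, f z ∂μ ≤ ∫ z, U.indicator (fun _ => (1 : ℝ)) z ∂μ := by
            refine integral_mono (hfi μ) ((integrable_const _).indicator hUo.measurableSet) fun z => ?_
            simp only
            by_cases hz : z ∈ U
            · rw [indicator_of_mem hz]; exact (hf4 z).2
            · rw [indicator_of_notMem hz, image_eq_zero_of_notMem_tsupport fun h => hz (hf3 h).1]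
        _ = μ.real U := by
            rw [integral_indicator hUo.measurableSet, setIntegral_const, smul_eq_mul, mul_one]
    rw [← ofReal_measureReal (μ := ν), ← ofReal_measureReal (μ := μ)]
    exact ENNReal.ofReal_le_ofReal (by linarith)
  refine Measure.le_iff.mpr fun B hB => ?_
  rw [Measure.restrict_apply hB, Measure.restrict_apply hB]
  have hm : MeasurableSet (B ∩ Ω) := hB.inter hΩ.measurableSet
  rw [hm.measure_eq_iSup_isCompact]
  refine iSup_le fun K => iSup_le fun hKB => iSup_le fun hK => ?_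
  exact (hKK K hK (hKB.trans inter_subset_right)).trans (measure_mono hKB)

lemma restrict_eq_of_test {μ ν : Measure ℂ} [IsFiniteMeasure μ] [IsFiniteMeasure ν] {Ω : Set ℂ}
    (hΩ : IsOpen Ω) (h : ∀ f : ℂ → ℝ, Continuous f → HasCompactSupport f → tsupport f ⊆ Ω →
      ∫ z, f z ∂ν = ∫ z, f z ∂μ) : ν.restrict Ω = μ.restrict Ω :=
  le_antisymm (le_of_test hΩ fun f h1 h2 h3 _ => (h f h1 h2 h3).le)
    (le_of_test hΩ fun f h1 h2 h3 _ => (h f h1 h2 h3).ge)

variable {a : ℂ → ℝ} {aj : ℕ → ℂ → ℝ} {ε : ℕ → ℝ} {u : ℕ → ℂ → ℝ}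

lemma ls_comp (h : LocSeq a aj ε u) {σ : ℕ → ℕ} (hσ : Tendsto σ atTop atTop) :
    LocSeq a (fun j => aj (σ j)) (fun j => ε (σ j)) (fun j => u (σ j)) where
  a_smooth := h.a_smooth
  a_pos := h.a_pos
  aj_smooth := fun j => h.aj_smooth (σ j)
  aj_pos := fun j => h.aj_pos (σ j)
  aj_lim := fun k V hV => hσ.eventually (h.aj_lim k V hV)
  eps_pos := fun j => h.eps_pos (σ j)
  eps_lim := h.eps_lim.comp hσ
  sol := fun j => h.sol (σ j)
  energy := let ⟨E, hE⟩ := h.energy; ⟨E, fun j => hE (σ j)⟩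
  modica := let ⟨C, hC⟩ := h.modica; ⟨C, fun j => hC (σ j)⟩
  bounds := fun k => let ⟨C, hC⟩ := h.bounds k; ⟨C, fun j => hC (σ j)⟩

theorem discT_of (hM : MonoD) (hD : DensR) (h : LocSeq a aj ε u) {μ : Measure ℂ}
    (he : EConv aj ε u μ) (hf : IsFiniteMeasure μ) : DiscT aj ε u :=
  fun _ hR => abs_disc_tendsto hM hD h he hf hR

theorem disc0 (hM : MonoD) (hD : DensR) : Iface.Disc0 := by
  intro a aj ε u μ h he hf f hfc hc hs
  exact disc_test h (discT_of hM hD h he hf) hfc hc hs

section meas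

lemma measurable_MM (ε : ℝ) (u : ℂ → ℝ) : Measurable (MM ε u) := by
  have h1 : Measurable fun z => fderiv ℝ (fun z => (u z : ℂ)) z 1 :=
    measurable_fderiv_apply_const ℝ _ 1
  have h2 : Measurable fun z => fderiv ℝ (fun z => (u z : ℂ)) z Complex.I :=
    measurable_fderiv_apply_const ℝ _ Complex.I
  unfold MM dz dx dy
  exact measurable_const.mul (((h1.sub (measurable_const.mul h2)).div_const 2).pow_const 2)

end meas

theorem mLim (hM : MonoD) (hD : DensR) : Iface.MLim := by
  intro a aj ε u μ h he hf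
  have hd : DiscT aj ε u := discT_of hM hD h he hf
  obtain ⟨E, hE0, hE⟩ := ls_energy_le h
  have hKc : IsCompact (closedBall (0 : ℂ) 2) := isCompact_closedBall _ _
  have hsub : closedBall (0 : ℂ) 2 ⊆ ball 0 3 := closedBall_subset_ball (by norm_num)
  set w : ℕ → ℂ → ℝ := fun j z => ‖MM (ε j) (u j) z‖ with hw
  have hwc : ∀ j, ContinuousOn (w j) (ball 0 3) := fun j =>
    (smooth_MM isOpen_ball (h.sol j).smooth).continuousOn.norm
  have hw0 : ∀ j, ∀ z ∈ ball (0 : ℂ) 3, 0 ≤ w j z := fun j z _ => norm_nonneg _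
  set τ : ℕ → ℂ → ℂ := fun j z => MM (ε j) (u j) z / (w j z : ℂ) with hτdef
  have hτ : ∀ j, Measurable (τ j) := fun j =>
    (measurable_MM _ _).div (Complex.measurable_ofReal.comp (measurable_MM _ _).norm)
  have hτ1 : ∀ j z, ‖τ j z‖ ≤ 1 := by
    intro j z
    simp only [hτdef, hw, norm_div, Complex.norm_real, norm_norm]
    exact div_self_le_one _
  have hwτ : ∀ j z, (w j z : ℂ) * τ j z = MM (ε j) (u j) z := by
    intro j z
    simp only [hτdef]
    by_cases h0 : MM (ε j) (u j) z = 0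
    · simp [h0]
    · have : (w j z : ℂ) ≠ 0 := by
        simp only [hw]
        exact_mod_cast norm_ne_zero_iff.mpr h0
      field_simp
  have hwE : ∀ j, ∀ z ∈ ball (0 : ℂ) 3, w j z ≤ 2 * ed (ε j) (aj j) (u j) z := by
    intro j z hz
    simp only [hw]
    rw [norm_MM_eq (h.eps_pos j) (aj j)
      (((h.sol j).smooth.contDiffAt (isOpen_ball.mem_nhds hz)).differentiableAt (by simp))]
    linarith [(le_abs_self _).trans (ls_abs_disc_le h j hz)]
  have hfin : ∀ j, IsFiniteMeasure (dm (w j) (closedBall 0 2)) := fun j => finite_dm (hwc j) hKc le_rfl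
  have hmass : ∀ j, (dm (w j) (closedBall 0 2)).real univ ≤ 2 * E := by
    intro j
    rw [real_univ_dm (hwc j) hKc le_rfl (hw0 j)]
    calc ∫ z in closedBall (0 : ℂ) 2, w j z ≤ ∫ z in closedBall (0 : ℂ) 2, 2 * ed (ε j) (aj j) (u j) z :=
          setIntegral_mono_on (integrableOn_two (hwc j) le_rfl) ((ls_ed_int h j le_rfl).const_mul 2)
            measurableSet_closedBall fun z hz => hwE j z (hsub hz)
      _ = 2 * ∫ z in closedBall (0 : ℂ) 2, ed (ε j) (aj j) (u j) z := integral_const_mul _ _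
      _ ≤ 2 * E := by gcongr; exact hE j _ le_rfl
  obtain ⟨σ, hσ, μ', hμ'f, hμ'K, hl1, m0, hm0, hm01, hl2⟩ := exists_limit_density hKc
    (fun j => dm (w j) (closedBall 0 2)) hfin hmass (fun j => dm_compl hKc) τ hτ hτ1
  -- the limit measures agree
  have hagree : μ'.restrict (ball 0 2) = μ.restrict (ball 0 2) := by
    refine restrict_eq_of_test isOpen_ball fun f hfc hc hs => ?_
    have h1 := hl1 f hfc
    have h2 := (KK_test h hd he hfc hc hs).comp hσ.tendsto_atTop
    refine tendsto_nhds_unique h1 (h2.congr fun j => ?_)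
    simp only [Function.comp_apply]
    rw [integral_dm (hwc _) hKc le_rfl (hw0 _), integral_eq_setIntegral (hs.trans ball_subset_closedBall)]
  have htrans : ∀ (g : ℂ → ℂ), (∀ z, z ∉ ball (0 : ℂ) 2 → g z = 0) → ∫ z, g z ∂μ' = ∫ z, g z ∂μ := by
    intro g hg
    rw [← setIntegral_eq_integral_of_forall_compl_eq_zero (s := ball 0 2) (μ := μ') (f := g) hg,
      ← setIntegral_eq_integral_of_forall_compl_eq_zero (s := ball 0 2) (μ := μ) (f := g) hg, hagree]
  have hzero : ∀ f : ℂ → ℝ, tsupport f ⊆ ball 0 2 → ∀ z, z ∉ ball (0 : ℂ) 2 → f z = 0 := by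
    intro f hs z hz
    exact image_eq_zero_of_notMem_tsupport fun hh => hz (hs hh)
  -- convergence of the differentials
  have hconv : ∀ f : ℂ → ℝ, Continuous f → HasCompactSupport f → tsupport f ⊆ ball 0 2 →
      Tendsto (fun j => ∫ z, MM (ε (σ j)) (u (σ j)) z * (f z : ℂ)) atTop
        (𝓝 (∫ z, m0 z * (f z : ℂ) ∂μ)) := by
    intro f hfc hc hs
    have h1 := hl2 f hfc
    have e1 : ∫ z, (f z : ℂ) * m0 z ∂μ' = ∫ z, m0 z * (f z : ℂ) ∂μ := by
      rw [htrans]
      · congr 1; ext z; ring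
      · intro z hz
        rw [hzero f hs z hz]; simp
    rw [e1] at h1
    refine h1.congr fun j => ?_
    rw [integral_dm (hwc _) hKc le_rfl (hw0 _)]
    rw [← setIntegral_eq_integral_of_forall_compl_eq_zero (s := closedBall (0 : ℂ) 2)
      (f := fun z => MM (ε (σ j)) (u (σ j)) z * (f z : ℂ))]
    · refine setIntegral_congr_fun measurableSet_closedBall fun z _ => ?_
      rw [Complex.real_smul, ← hwτ (σ j) z]
      ring
    · intro z hz
      rw [hzero f hs z fun hh => hz (ball_subset_closedBall hh)]; simp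
  -- the weak identity and the modulus
  have hweak : WeakId (ball 0 2) μ m0 (bb a) := by
    refine weakId_limit (ls_comp h hσ.tendsto_atTop) (fun R hR => ?_) (fun f h1 h2 h3 => ?_) hm0 hm01 hconv
    · exact (hd R hR).comp hσ.tendsto_atTop
    · exact (he f h1 h2 h3).comp hσ.tendsto_atTop
  have hdens : ∀ x ∈ ball (0 : ℂ) 2, ∃ c K r0 : ℝ, 0 < c ∧ 0 < r0 ∧
      (∀ r ∈ Ioo 0 r0, μ (ball x r) ≤ ENNReal.ofReal (K * r)) ∧
      ((∀ r > 0, 0 < μ (ball x r)) → ∀ r ∈ Ioo 0 r0, ENNReal.ofReal (c * r) ≤ μ (ball x r)) := by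
    intro x hx
    rw [mem_ball, dist_zero_right] at hx
    obtain ⟨c, K, r0, hc, hr0, h1, h2⟩ := hD a aj ε u μ h he hf ‖x‖ hx
    have hxm : x ∈ closedBall (0 : ℂ) ‖x‖ := by simp
    exact ⟨c, K, r0, hc, hr0, h1 x hxm, h2 x hxm⟩
  have hone : ∀ᵐ x ∂μ, x ∈ ball (0 : ℂ) 2 → ‖m0 x‖ = 1 := by
    refine ae_norm_eq_one isOpen_ball hm0.aestronglyMeasurable hm01
      ((cont_bb h.a_smooth h.a_pos).mono (ball_subset_ball (by norm_num))) hweak ?_ ?_
    · filter_upwards [measure_eq_zero_iff_ae_notMem.mp (measure_offs μ)] with x hx hxb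
      obtain ⟨c, K, r0, hc, hr0, -, h2⟩ := hdens x hxb
      refine ⟨c, hc, ?_⟩
      have hev : ∀ᶠ r in 𝓝[>] (0 : ℝ), r < r0 :=
        eventually_nhdsWithin_of_eventually_nhds (gt_mem_nhds hr0)
      filter_upwards [hev, self_mem_nhdsWithin] with r hr1 hr2
      have h1 := h2 (mem_offs_iff.mp hx) r ⟨hr2, hr1⟩
      have h3 : ENNReal.ofReal (c * r) ≤ μ (closedBall x r) := h1.trans (measure_mono ball_subset_closedBall)
      rw [measureReal_def]
      exact (ENNReal.ofReal_le_iff_le_toReal (measure_ne_top _ _)).mp h3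
    · refine Eventually.of_forall fun x hxb => ?_
      obtain ⟨c, K, r0, hc, hr0, h1, -⟩ := hdens x hxb
      refine ⟨2 * |K|, ?_⟩
      have hev : ∀ᶠ r in 𝓝[>] (0 : ℝ), r < r0 / 2 :=
        eventually_nhdsWithin_of_eventually_nhds (gt_mem_nhds (by linarith))
      filter_upwards [hev, self_mem_nhdsWithin] with r hr1 hr2
      have hr3 : (0 : ℝ) < r := hr2
      have h3 : μ (closedBall x r) ≤ ENNReal.ofReal (K * (2 * r)) :=
        (measure_mono (closedBall_subset_ball (by linarith))).trans (h1 (2 * r) ⟨by linarith, by linarith⟩)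
      rw [measureReal_def]
      refine ENNReal.toReal_le_of_le_ofReal (by positivity) (h3.trans (ENNReal.ofReal_le_ofReal ?_))
      nlinarith [le_abs_self K]
  -- the final density
  classical
  let m : ℂ → ℂ := fun z => if ‖m0 z‖ = 1 then m0 z else 1
  have hmm : Measurable m :=
    Measurable.ite (measurableSet_eq_fun hm0.norm measurable_const) hm0 measurable_const
  refine ⟨σ, m, hσ, hmm, fun z => ?_, ?_⟩
  · simp only [m]
    split_ifs with hz
    · exact hz
    · simp
  · intro f hfc hc hs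
    have h1 := hconv f hfc hc hs
    have e1 : ∫ z, (f z : ℂ) * m z ∂μ = ∫ z, m0 z * (f z : ℂ) ∂μ := by
      refine integral_congr_ae ?_
      filter_upwards [hone] with z hz
      by_cases hzb : z ∈ ball (0 : ℂ) 2
      · simp only [m]
        rw [if_pos (hz hzb)]
        ring
      · rw [hzero f hs z hzb]; simp
    rw [e1]
    refine h1.congr fun j => ?_
    congr 1; ext z
    simp only [MM, Function.comp_apply]
    ring

end Pool.Agent.Helper85.CL
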