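import Pool.Agent.Helper85.CL.XiPlus
import Pool.Agent.Helper53.CL.Iface

/-!
PROJECT CL, block D6: the energy near the wells is small.
-/

open Set MeasureTheory Filter Topology Metric

open scoped ContDiff Real

open Pool.Agent.Helper53.CL

namespace Pool.Agent.Helper85.CL

noncomputable section

/-- The multiplier. -/
def ff (δ t : ℝ) : ℝ := Real.cos (t / 2) * (δ * Real.arctan (Real.sin (t / 2) / δ))

/-- Its derivative. -/
def ff' (δ t : ℝ) : ℝ := -(1 / 2 * Real.sin (t / 2) * (δ * Real.arctan (Real.sin (t / 2) / δ))) +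
  1 / 2 * Real.cos (t / 2) ^ 2 / (1 + (Real.sin (t / 2) / δ) ^ 2)

lemma hasDerivAt_ff {δ : ℝ} (hδ : 0 < δ) (t : ℝ) : HasDerivAt (ff δ) (ff' δ t) t := by
  have h0 : HasDerivAt (fun t : ℝ => t / 2) (1 / 2) t := (hasDerivAt_id t).div_const 2
  have h1 := (Real.hasDerivAt_cos (t / 2)).comp t h0
  have h2 := (Real.hasDerivAt_sin (t / 2)).comp t h0
  have h3 := ((Real.hasDerivAt_arctan (Real.sin (t / 2) / δ)).comp t (h2.div_const δ)).const_mul δ
  have h4 := h1.mul h3
  have h5 : HasDerivAt (ff δ) _ t := h4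
  convert h5 using 1
  simp only [ff', Function.comp]
  have : (1 + (Real.sin (t / 2) / δ) ^ 2) ≠ 0 := by positivity
  field_simp

lemma contDiff_ff (δ : ℝ) : ContDiff ℝ ∞ (ff δ) := by
  unfold ff
  exact (Real.contDiff_cos.comp (contDiff_id.div_const 2)).mul (contDiff_const.mul
    (Real.contDiff_arctan.comp ((Real.contDiff_sin.comp (contDiff_id.div_const 2)).div_const δ)))

lemma abs_arctan_le (x : ℝ) : |Real.arctan x| ≤ π / 2 := by
  rw [abs_le]
  exact ⟨(Real.neg_pi_div_two_lt_arctan x).le, (Real.arctan_lt_pi_div_two x).le⟩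

lemma abs_ff_le {δ : ℝ} (hδ : 0 < δ) (t : ℝ) : |ff δ t| ≤ 2 * δ := by
  unfold ff
  rw [abs_mul, abs_mul, abs_of_pos hδ]
  have h1 := Real.abs_cos_le_one (t / 2)
  have h2 := abs_arctan_le (Real.sin (t / 2) / δ)
  have h3 : π / 2 ≤ 2 := by linarith [Real.pi_le_four]
  calc |Real.cos (t / 2)| * (δ * |Real.arctan (Real.sin (t / 2) / δ)|) ≤ 1 * (δ * 2) := by
        gcongr
        exact h2.trans h3
    _ = 2 * δ := by ring

lemma le_arctan {x : ℝ} (hx : 0 ≤ x) : x / (1 + x ^ 2) ≤ Real.arctan x := by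
  have h0 : 0 ≤ Real.arctan x := Real.arctan_nonneg.mpr hx
  have h1 : x / (1 + x ^ 2) = Real.sin (Real.arctan x) * Real.cos (Real.arctan x) := by
    rw [Real.sin_arctan, Real.cos_arctan]
    have : √(1 + x ^ 2) * √(1 + x ^ 2) = 1 + x ^ 2 := Real.mul_self_sqrt (by positivity)
    field_simp
    rw [pow_two (√(1 + x ^ 2)), this]
  rw [h1]
  have h2 := Real.sin_le h0
  have h3 := Real.cos_arctan_pos x
  have h4 := Real.cos_le_one (Real.arctan x)
  have h5 : 0 ≤ Real.sin (Real.arctan x) :=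
    Real.sin_nonneg_of_nonneg_of_le_pi h0 (by linarith [Real.arctan_lt_pi_div_two x, Real.pi_pos])
  nlinarith

lemma sin_half_nonneg {t : ℝ} (h0 : 0 ≤ t) (h1 : t ≤ 2 * π) : 0 ≤ Real.sin (t / 2) :=
  Real.sin_nonneg_of_nonneg_of_le_pi (by linarith) (by linarith)

lemma one_sub_cos (t : ℝ) : 1 - Real.cos t = 2 * Real.sin (t / 2) ^ 2 := by
  have h := Real.cos_two_mul (t / 2)
  rw [show 2 * (t / 2) = t by ring] at h
  have h2 := Real.sin_sq_add_cos_sq (t / 2)
  linarith

lemma sin_eq (t : ℝ) : Real.sin t = 2 * Real.sin (t / 2) * Real.cos (t / 2) := by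
  have h := Real.sin_two_mul (t / 2)
  rwa [show 2 * (t / 2) = t by ring] at h

/-- The lower bound for the derivative. -/
lemma ff'_ge {δ t : ℝ} (hδ : 0 < δ) (h0 : 0 ≤ t) (h1 : t ≤ 2 * π) : -δ ≤ ff' δ t := by
  have hs := sin_half_nonneg h0 h1
  have h2 := abs_arctan_le (Real.sin (t / 2) / δ)
  have h3 : Real.arctan (Real.sin (t / 2) / δ) ≤ 2 := by
    linarith [le_abs_self (Real.arctan (Real.sin (t / 2) / δ)), Real.pi_le_four]
  have h3' : 0 ≤ Real.arctan (Real.sin (t / 2) / δ) := Real.arctan_nonneg.mpr (by positivity)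
  have h4 : 0 ≤ 1 / 2 * Real.cos (t / 2) ^ 2 / (1 + (Real.sin (t / 2) / δ) ^ 2) := by positivity
  have h5 := Real.sin_le_one (t / 2)
  have h6 : 1 / 2 * Real.sin (t / 2) * (δ * Real.arctan (Real.sin (t / 2) / δ)) ≤ δ := by
    calc 1 / 2 * Real.sin (t / 2) * (δ * Real.arctan (Real.sin (t / 2) / δ)) ≤ 1 / 2 * 1 * (δ * 2) := by
          gcongr
      _ = δ := by ring
  unfold ff'
  linarith

/-- The lower bound for the derivative near the wells. -/
lemma ff'_ge_near {δ t : ℝ} (hδ : 0 < δ) (hδ1 : δ < 1) (h0 : 0 ≤ t) (h1 : t ≤ 2 * π)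
    (hn : 1 - Real.cos t < δ ^ 2) : 1 / 6 - δ ≤ ff' δ t := by
  have hs := sin_half_nonneg h0 h1
  rw [one_sub_cos] at hn
  have h2 := abs_arctan_le (Real.sin (t / 2) / δ)
  have h3 : Real.arctan (Real.sin (t / 2) / δ) ≤ 2 := by
    linarith [le_abs_self (Real.arctan (Real.sin (t / 2) / δ)), Real.pi_le_four]
  have h3' : 0 ≤ Real.arctan (Real.sin (t / 2) / δ) := Real.arctan_nonneg.mpr (by positivity)
  have h5 := Real.sin_le_one (t / 2)
  have h6 : 1 / 2 * Real.sin (t / 2) * (δ * Real.arctan (Real.sin (t / 2) / δ)) ≤ δ := by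
    calc 1 / 2 * Real.sin (t / 2) * (δ * Real.arctan (Real.sin (t / 2) / δ)) ≤ 1 / 2 * 1 * (δ * 2) := by
          gcongr
      _ = δ := by ring
  have hδ2 : δ ^ 2 < 1 := by nlinarith
  have hc : 1 / 2 ≤ Real.cos (t / 2) ^ 2 := by
    have := Real.sin_sq_add_cos_sq (t / 2)
    nlinarith
  have hd : (Real.sin (t / 2) / δ) ^ 2 ≤ 1 / 2 := by
    rw [div_pow, div_le_iff₀ (by positivity)]
    nlinarith
  have h4 : 1 / 6 ≤ 1 / 2 * Real.cos (t / 2) ^ 2 / (1 + (Real.sin (t / 2) / δ) ^ 2) := by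
    rw [le_div_iff₀ (by positivity)]
    nlinarith
  unfold ff'
  linarith

lemma ff_sin_nonneg {δ t : ℝ} (hδ : 0 < δ) (h0 : 0 ≤ t) (h1 : t ≤ 2 * π) : 0 ≤ ff δ t * Real.sin t := by
  have hs := sin_half_nonneg h0 h1
  have h3' : 0 ≤ Real.arctan (Real.sin (t / 2) / δ) := Real.arctan_nonneg.mpr (by positivity)
  have : ff δ t * Real.sin t = 2 * Real.cos (t / 2) ^ 2 * Real.sin (t / 2) *
      (δ * Real.arctan (Real.sin (t / 2) / δ)) := by
    rw [sin_eq]; unfold ff; ring
  rw [this]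
  positivity

lemma ff_sin_ge {δ t : ℝ} (hδ : 0 < δ) (hδ1 : δ < 1) (h0 : 0 ≤ t) (h1 : t ≤ 2 * π)
    (hn : 1 - Real.cos t < δ ^ 2) : 1 / 3 * (1 - Real.cos t) ≤ ff δ t * Real.sin t := by
  have hs := sin_half_nonneg h0 h1
  rw [one_sub_cos] at hn ⊢
  have hδ2 : δ ^ 2 < 1 := by nlinarith
  have hc : 1 / 2 ≤ Real.cos (t / 2) ^ 2 := by
    have := Real.sin_sq_add_cos_sq (t / 2)
    nlinarith
  have hd : (Real.sin (t / 2) / δ) ^ 2 ≤ 1 / 2 := by
    rw [div_pow, div_le_iff₀ (by positivity)]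
    nlinarith
  have hx : 0 ≤ Real.sin (t / 2) / δ := by positivity
  have ha := le_arctan hx
  have hb : 2 / 3 * Real.sin (t / 2) ≤ δ * Real.arctan (Real.sin (t / 2) / δ) := by
    calc 2 / 3 * Real.sin (t / 2) = δ * ((Real.sin (t / 2) / δ) / (3 / 2)) := by field_simp
      _ ≤ δ * ((Real.sin (t / 2) / δ) / (1 + (Real.sin (t / 2) / δ) ^ 2)) := by
          gcongr
          linarith
      _ ≤ δ * Real.arctan (Real.sin (t / 2) / δ) := by gcongr
  have : ff δ t * Real.sin t = 2 * Real.cos (t / 2) ^ 2 * Real.sin (t / 2) *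
      (δ * Real.arctan (Real.sin (t / 2) / δ)) := by
    rw [sin_eq]; unfold ff; ring
  rw [this]
  calc 1 / 3 * (2 * Real.sin (t / 2) ^ 2) = 2 * (1 / 2) * Real.sin (t / 2) * (2 / 3 * Real.sin (t / 2)) := by ring
    _ ≤ 2 * Real.cos (t / 2) ^ 2 * Real.sin (t / 2) * (δ * Real.arctan (Real.sin (t / 2) / δ)) := by
        gcongr

section ibp

variable {ε : ℝ} {a u : ℂ → ℝ} {φ : ℂ → ℝ}

lemma smooth_fderiv_real {f : ℂ → ℝ} (hf : ContDiffOn ℝ ∞ f (ball 0 3)) (v : ℂ) :
    ContDiffOn ℝ ∞ (fun z => fderiv ℝ f z v) (ball 0 3) := by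
  have h1 : ContDiffOn ℝ ∞ (fderiv ℝ f) (ball 0 3) := hf.fderiv_of_isOpen isOpen_ball (by norm_cast)
  exact h1.clm_apply contDiffOn_const

lemma tsupport_fderiv_real (v : ℂ) : tsupport (fun z => fderiv ℝ φ z v) ⊆ tsupport φ := by
  refine closure_minimal (fun z hz => ?_) (isClosed_tsupport _)
  by_contra h
  apply hz
  have h1 : fderiv ℝ φ z = 0 := by
    by_contra hne
    exact h (support_fderiv_subset ℝ (f := φ) hne)
  simp [h1]

/-- Integration by parts in one direction. -/
lemma ibp_dir {δ : ℝ} (hδ : 0 < δ) (hu : ContDiffOn ℝ ∞ u (ball 0 3)) (hφ : ContDiff ℝ 1 φ)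
    (hs : tsupport φ ⊆ ball 0 2) (v : ℂ) :
    ∫ z, φ z * (ff' δ (u z) * fderiv ℝ u z v ^ 2 + ff δ (u z) * fderiv ℝ (fun z => fderiv ℝ u z v) z v) =
      -∫ z, fderiv ℝ φ z v * (ff δ (u z) * fderiv ℝ u z v) := by
  have hD : IsOpen (ball (0 : ℂ) 3) := isOpen_ball
  have hv := smooth_fderiv_real hu v
  have hfu : ContDiffOn ℝ ∞ (fun z => ff δ (u z)) (ball 0 3) := (contDiff_ff δ).comp_contDiffOn hu
  have hg : ContDiffOn ℝ ∞ (fun z => ff δ (u z) * fderiv ℝ u z v) (ball 0 3) := hfu.mul hv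
  have hgv : ∀ z ∈ ball (0 : ℂ) 3, fderiv ℝ (fun z => ff δ (u z) * fderiv ℝ u z v) z v =
      ff' δ (u z) * fderiv ℝ u z v ^ 2 + ff δ (u z) * fderiv ℝ (fun z => fderiv ℝ u z v) z v := by
    intro z hz
    have hd : DifferentiableAt ℝ u z := (hu.contDiffAt (hD.mem_nhds hz)).differentiableAt (by simp)
    have hd2 : DifferentiableAt ℝ (fun z => fderiv ℝ u z v) z :=
      (hv.contDiffAt (hD.mem_nhds hz)).differentiableAt (by simp)
    have h1 : HasFDerivAt (fun z => ff δ (u z)) (ff' δ (u z) • fderiv ℝ u z) z :=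
      (hasDerivAt_ff hδ (u z)).comp_hasFDerivAt z hd.hasFDerivAt
    have h2 := h1.mul hd2.hasFDerivAt
    have h3 : HasFDerivAt (fun z => ff δ (u z) * fderiv ℝ u z v) _ z := h2
    rw [h3.fderiv]
    simp
    ring
  have hc : Continuous fun z => fderiv ℝ φ z v :=
    (hφ.continuous_fderiv one_ne_zero).clm_apply continuous_const
  have h := integral_mul_fderiv_eq_neg_fderiv_mul_of_integrable (μ := (volume : Measure ℂ)) (f := φ)
    (g := fun z => ff δ (u z) * fderiv ℝ u z v) (v := v)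
    (integrable_mul hc ((tsupport_fderiv_real v).trans hs) hg.continuousOn)
    (integrable_mul hφ.continuous hs (smooth_fderiv_real hg v).continuousOn)
    (integrable_mul hφ.continuous hs hg.continuousOn)
    (fun z _ => hφ.differentiable one_ne_zero z)
    (fun z hz => (hg.contDiffAt (hD.mem_nhds (ball_subset_ball (by norm_num) (hs hz)))).differentiableAt
      (by simp))
  rw [← h]
  refine integral_congr_ae (Eventually.of_forall fun z => ?_)
  simp only
  by_cases hz : z ∈ tsupport φ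
  · rw [hgv z (ball_subset_ball (by norm_num) (hs hz))]
  · rw [image_eq_zero_of_notMem_tsupport hz, zero_mul, zero_mul]

lemma norm_gr_sq (u : ℂ → ℝ) (z : ℂ) :
    ‖gr u z‖ ^ 2 = fderiv ℝ u z 1 ^ 2 + fderiv ℝ u z Complex.I ^ 2 := by
  rw [← Complex.normSq_eq_norm_sq, Complex.normSq_apply]
  simp only [gr, dx, dy]
  ring

/-- The integral identity for the multiplier. -/
lemma mult_identity {δ : ℝ} (hδ : 0 < δ) (h : LSol (ball 0 3) ε a u) (hε : 0 < ε)
    (hφ : ContDiff ℝ 1 φ) (hs : tsupport φ ⊆ ball 0 2) :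
    ∫ z, φ z * (ff' δ (u z) * (ε * ‖gr u z‖ ^ 2) + 1 / ε * (a z * (ff δ (u z) * Real.sin (u z)))) =
      -∫ z, (fderiv ℝ φ z 1 * (ε * ff δ (u z) * fderiv ℝ u z 1) +
        fderiv ℝ φ z Complex.I * (ε * ff δ (u z) * fderiv ℝ u z Complex.I)) := by
  have hu := h.smooth
  have e1 := ibp_dir hδ hu hφ hs 1
  have e2 := ibp_dir hδ hu hφ hs Complex.I
  have hfu : ContinuousOn (fun z => ff δ (u z)) (ball 0 3) :=
    ((contDiff_ff δ).comp_contDiffOn hu).continuousOn
  have hf'u : ContinuousOn (fun z => ff' δ (u z)) (ball 0 3) := by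
    have hff : Continuous (ff' δ) := by
      have : ff' δ = deriv (ff δ) := funext fun t => (hasDerivAt_ff hδ t).deriv.symm
      rw [this]
      exact (contDiff_ff δ).continuous_deriv (by simp)
    exact hff.comp_continuousOn hu.continuousOn
  have hv : ∀ v : ℂ, ContinuousOn (fun z => fderiv ℝ u z v) (ball 0 3) := fun v =>
    (smooth_fderiv_real hu v).continuousOn
  have hvv : ∀ v : ℂ, ContinuousOn (fun z => fderiv ℝ (fun z => fderiv ℝ u z v) z v) (ball 0 3) :=
    fun v => (smooth_fderiv_real (smooth_fderiv_real hu v) v).continuousOn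
  have hc : ∀ v : ℂ, Continuous fun z => fderiv ℝ φ z v := fun v =>
    (hφ.continuous_fderiv one_ne_zero).clm_apply continuous_const
  have i1 : ∀ v : ℂ, Integrable fun z => φ z * (ff' δ (u z) * fderiv ℝ u z v ^ 2 +
      ff δ (u z) * fderiv ℝ (fun z => fderiv ℝ u z v) z v) := fun v =>
    integrable_mul hφ.continuous hs ((hf'u.mul ((hv v).pow 2)).add (hfu.mul (hvv v)))
  have i2 : ∀ v : ℂ, Integrable fun z => fderiv ℝ φ z v * (ff δ (u z) * fderiv ℝ u z v) := fun v =>
    integrable_mul (hc v) ((tsupport_fderiv_real v).trans hs) (hfu.mul (hv v))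
  have l1 : ∫ z, φ z * (ff' δ (u z) * (ε * ‖gr u z‖ ^ 2) + 1 / ε * (a z * (ff δ (u z) * Real.sin (u z)))) =
      ε * ((∫ z, φ z * (ff' δ (u z) * fderiv ℝ u z 1 ^ 2 +
        ff δ (u z) * fderiv ℝ (fun z => fderiv ℝ u z 1) z 1)) +
      ∫ z, φ z * (ff' δ (u z) * fderiv ℝ u z Complex.I ^ 2 +
        ff δ (u z) * fderiv ℝ (fun z => fderiv ℝ u z Complex.I) z Complex.I)) := by
    rw [← integral_add (i1 1) (i1 Complex.I), ← integral_const_mul]
    refine integral_congr_ae (Eventually.of_forall fun z => ?_)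
    simp only
    by_cases hz : z ∈ tsupport φ
    · have heq : ε ^ 2 * (fderiv ℝ (fun z => fderiv ℝ u z 1) z 1 +
          fderiv ℝ (fun z => fderiv ℝ u z Complex.I) z Complex.I) = a z * Real.sin (u z) :=
        h.eq z (ball_subset_ball (by norm_num) (hs hz))
      have h2 : 1 / ε * (a z * (ff δ (u z) * Real.sin (u z))) = ε * ff δ (u z) *
          (fderiv ℝ (fun z => fderiv ℝ u z 1) z 1 +
            fderiv ℝ (fun z => fderiv ℝ u z Complex.I) z Complex.I) := by
        have h3 : a z * (ff δ (u z) * Real.sin (u z)) = ff δ (u z) * (a z * Real.sin (u z)) := by ring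
        rw [h3, ← heq]
        field_simp
      rw [h2, norm_gr_sq]
      ring
    · rw [image_eq_zero_of_notMem_tsupport hz]; ring
  have l2 : ∫ z, (fderiv ℝ φ z 1 * (ε * ff δ (u z) * fderiv ℝ u z 1) +
        fderiv ℝ φ z Complex.I * (ε * ff δ (u z) * fderiv ℝ u z Complex.I)) =
      ε * ((∫ z, fderiv ℝ φ z 1 * (ff δ (u z) * fderiv ℝ u z 1)) +
        ∫ z, fderiv ℝ φ z Complex.I * (ff δ (u z) * fderiv ℝ u z Complex.I)) := by
    rw [← integral_add (i2 1) (i2 Complex.I), ← integral_const_mul]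
    congr 1; ext z; ring
  rw [l1, l2, e1, e2]
  ring

end ibp

/-- Block D6. -/
theorem wells : Iface.Wells := by
  intro a aj ε u h r hr
  obtain ⟨E, hE0, hE⟩ := ls_energy_le h
  set r' : ℝ := max r 1 with hr'
  have hr'1 : r' < 2 := max_lt hr (by norm_num)
  have hr'0 : 0 < r' := lt_of_lt_of_le zero_lt_one (le_max_right _ _)
  let φb : ContDiffBump (0 : ℂ) := ⟨r', (r' + 2) / 2, hr'0, by linarith⟩
  let φ : ℂ → ℝ := φb
  have hφ : ContDiff ℝ 1 φ := φb.contDiff
  have hφ0 : ∀ z, 0 ≤ φ z := fun z => φb.nonneg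
  have hφ1 : ∀ z, φ z ≤ 1 := fun z => φb.le_one
  have hφr : ∀ z ∈ ball (0 : ℂ) r, φ z = 1 := fun z hz =>
    φb.one_of_mem_closedBall (ball_subset_closedBall (ball_subset_ball (le_max_left _ _) hz))
  have hφc : HasCompactSupport φ := φb.hasCompactSupport
  have hs : tsupport φ ⊆ ball 0 2 := by
    change tsupport φb ⊆ ball 0 2
    rw [φb.tsupport_eq]
    exact closedBall_subset_ball (by change (r' + 2) / 2 < 2; linarith)
  have hcv : ∀ v : ℂ, Continuous fun z => fderiv ℝ φ z v := fun v =>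
    (hφ.continuous_fderiv one_ne_zero).clm_apply continuous_const
  obtain ⟨B, hB⟩ : ∃ B, ∀ z, ‖fderiv ℝ φ z‖ ≤ B :=
    (hφc.fderiv ℝ).exists_bound_of_continuous (hφ.continuous_fderiv one_ne_zero)
  have hB0 : 0 ≤ B := (norm_nonneg _).trans (hB 0)
  set V : ℝ := volume.real (closedBall (0 : ℂ) 2) with hV
  have hV0 : 0 ≤ V := measureReal_nonneg
  refine ⟨3 * (2 * E + 2 * B * (V + 2 * E)), fun δ hδ => ?_⟩
  have hδ0 : 0 < δ := hδ.1
  have hev : ∀ᶠ j in atTop, ε j < 1 := h.eps_lim.eventually (gt_mem_nhds (by norm_num))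
  filter_upwards [hev] with j hj
  have hε := h.eps_pos j
  have hsol := h.sol j
  have hsub3 : closedBall (0 : ℂ) 2 ⊆ ball 0 3 := closedBall_subset_ball (by norm_num)
  set A : Set ℂ := ball (0 : ℂ) r ∩ {z | 1 - Real.cos (u j z) < δ ^ 2} with hA
  have hball : ball (0 : ℂ) r ⊆ closedBall 0 2 :=
    (ball_subset_ball hr.le).trans ball_subset_closedBall
  have hAo : IsOpen A := by
    have hc : ContinuousOn (fun z => 1 - Real.cos (u j z)) (ball (0 : ℂ) r) :=
      (continuousOn_const.sub (Real.continuous_cos.comp_continuousOn hsol.smooth.continuousOn)).mono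
        (hball.trans hsub3)
    exact hc.isOpen_inter_preimage isOpen_ball isOpen_Iio
  have hA2 : A ⊆ closedBall 0 2 := inter_subset_left.trans hball
  have hid := mult_identity hδ0 hsol hε hφ hs
  -- lower bound
  have hgc : ContinuousOn (fun z => ‖gr (u j) z‖) (ball (0 : ℂ) 3) :=
    (contOn_gr isOpen_ball (by simp) hsol.smooth).norm
  have hfu : ContinuousOn (fun z => ff δ (u j z)) (ball 0 3) :=
    ((contDiff_ff δ).comp_contDiffOn hsol.smooth).continuousOn
  have hf'u : ContinuousOn (fun z => ff' δ (u j z)) (ball 0 3) := by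
    have hff : Continuous (ff' δ) := by
      have : ff' δ = deriv (ff δ) := funext fun t => (hasDerivAt_ff hδ0 t).deriv.symm
      rw [this]
      exact (contDiff_ff δ).continuous_deriv (by simp)
    exact hff.comp_continuousOn hsol.smooth.continuousOn
  have hLc : ContinuousOn (fun z => ff' δ (u j z) * (ε j * ‖gr (u j) z‖ ^ 2) +
      1 / ε j * (aj j z * (ff δ (u j z) * Real.sin (u j z)))) (ball 0 3) := by
    have h1 := hf'u.mul (continuousOn_const (c := ε j).mul (hgc.pow 2))
    have h2 : ContinuousOn (fun z => 1 / ε j * (aj j z * (ff δ (u j z) * Real.sin (u j z)))) (ball 0 3) :=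
      continuousOn_const.mul ((h.aj_smooth j).continuousOn.mul
        (hfu.mul (Real.continuous_sin.comp_continuousOn hsol.smooth.continuousOn)))
    exact h1.add h2
  have hlow : ∫ z in A, 1 / 3 * ed (ε j) (aj j) (u j) z ≤
      (∫ z, φ z * (ff' δ (u j z) * (ε j * ‖gr (u j) z‖ ^ 2) +
        1 / ε j * (aj j z * (ff δ (u j z) * Real.sin (u j z))))) +
      ∫ z, φ z * (δ * (ε j * ‖gr (u j) z‖ ^ 2)) := by
    have i1 := integrable_mul hφ.continuous hs hLc
    have i2 : Integrable fun z => φ z * (δ * (ε j * ‖gr (u j) z‖ ^ 2)) :=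
      integrable_mul hφ.continuous hs
        (continuousOn_const.mul (continuousOn_const.mul (hgc.pow 2)))
    rw [← integral_add i1 i2, ← integral_indicator hAo.measurableSet]
    refine integral_mono ?_ (i1.add i2) fun z => ?_
    · exact IntegrableOn.integrable_indicator ((ls_ed_int h j hA2).const_mul (1 / 3))
        hAo.measurableSet
    · simp only
      by_cases hz : z ∈ tsupport φ
      · have hz3 : z ∈ ball (0 : ℂ) 3 := ball_subset_ball (by norm_num) (hs hz)
        have h0 := hsol.nonneg z hz3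
        have h1 := hsol.le z hz3
        have ha := (h.aj_pos j z hz3).le
        have hG : 0 ≤ ε j * ‖gr (u j) z‖ ^ 2 := by positivity
        have hs1 : 0 ≤ 1 / ε j * (aj j z * (ff δ (u j z) * Real.sin (u j z))) := by
          have := ff_sin_nonneg hδ0 h0 h1
          positivity
        have hf1 := ff'_ge hδ0 h0 h1
        by_cases hzA : z ∈ A
        · rw [indicator_of_mem hzA, hφr z hzA.1]
          have hn : 1 - Real.cos (u j z) < δ ^ 2 := hzA.2
          have h2 := ff'_ge_near hδ0 hδ.2 h0 h1 hn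
          have h3 := ff_sin_ge hδ0 hδ.2 h0 h1 hn
          have h4 : 1 / ε j * (aj j z * (1 / 3 * (1 - Real.cos (u j z)))) ≤
              1 / ε j * (aj j z * (ff δ (u j z) * Real.sin (u j z))) := by gcongr
          have h5 : (1 / 6 - δ) * (ε j * ‖gr (u j) z‖ ^ 2) ≤ ff' δ (u j z) * (ε j * ‖gr (u j) z‖ ^ 2) := by
            gcongr
          unfold ed
          linarith
        · rw [indicator_of_notMem hzA]
          have h5 : -δ * (ε j * ‖gr (u j) z‖ ^ 2) ≤ ff' δ (u j z) * (ε j * ‖gr (u j) z‖ ^ 2) := by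
            gcongr
          rw [← mul_add]
          refine mul_nonneg (hφ0 z) ?_
          linarith
      · have hzA : z ∉ A := fun hzA => by
          have h1 := hφr z hzA.1
          rw [image_eq_zero_of_notMem_tsupport hz] at h1
          exact zero_ne_one h1
        rw [indicator_of_notMem hzA, image_eq_zero_of_notMem_tsupport hz]
        simp
  -- upper bounds
  have hkin : ∀ z ∈ closedBall (0 : ℂ) 2, ε j * ‖gr (u j) z‖ ^ 2 ≤ 2 * ed (ε j) (aj j) (u j) z := by
    intro z hz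
    have := pot_nonneg hε (u := u j) (h.aj_pos j z (hsub3 hz)).le
    unfold ed
    linarith
  have hup1 : ∫ z, φ z * (δ * (ε j * ‖gr (u j) z‖ ^ 2)) ≤ δ * (2 * E) := by
    have e1 : ∫ z, φ z * (δ * (ε j * ‖gr (u j) z‖ ^ 2)) =
        ∫ z in closedBall (0 : ℂ) 2, φ z * (δ * (ε j * ‖gr (u j) z‖ ^ 2)) := by
      refine (setIntegral_eq_integral_of_forall_compl_eq_zero fun z hz => ?_).symm
      rw [image_eq_zero_of_notMem_tsupport fun hh => hz (ball_subset_closedBall (hs hh)), zero_mul]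
    rw [e1]
    have i2 : Integrable fun z => φ z * (δ * (ε j * ‖gr (u j) z‖ ^ 2)) :=
      integrable_mul hφ.continuous hs
        (continuousOn_const.mul (continuousOn_const.mul (hgc.pow 2)))
    calc ∫ z in closedBall (0 : ℂ) 2, φ z * (δ * (ε j * ‖gr (u j) z‖ ^ 2))
        ≤ ∫ z in closedBall (0 : ℂ) 2, δ * 2 * ed (ε j) (aj j) (u j) z := by
          refine setIntegral_mono_on i2.integrableOn ((ls_ed_int h j le_rfl).const_mul (δ * 2))
            measurableSet_closedBall fun z hz => ?_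
          have h1 := hkin z hz
          have h2 : 0 ≤ ε j * ‖gr (u j) z‖ ^ 2 := by positivity
          calc φ z * (δ * (ε j * ‖gr (u j) z‖ ^ 2)) ≤ 1 * (δ * (2 * ed (ε j) (aj j) (u j) z)) := by
                refine mul_le_mul (hφ1 z) (by gcongr) (by positivity) zero_le_one
            _ = _ := by ring
      _ = δ * 2 * ∫ z in closedBall (0 : ℂ) 2, ed (ε j) (aj j) (u j) z := integral_const_mul _ _
      _ ≤ δ * 2 * E := by gcongr; exact hE j _ le_rfl
      _ = δ * (2 * E) := by ring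
  have hup2 : -∫ z, (fderiv ℝ φ z 1 * (ε j * ff δ (u j z) * fderiv ℝ (u j) z 1) +
        fderiv ℝ φ z Complex.I * (ε j * ff δ (u j z) * fderiv ℝ (u j) z Complex.I)) ≤
      δ * (2 * B * (V + 2 * E)) := by
    have e1 : ∫ z, (fderiv ℝ φ z 1 * (ε j * ff δ (u j z) * fderiv ℝ (u j) z 1) +
        fderiv ℝ φ z Complex.I * (ε j * ff δ (u j z) * fderiv ℝ (u j) z Complex.I)) =
        ∫ z in closedBall (0 : ℂ) 2, (fderiv ℝ φ z 1 * (ε j * ff δ (u j z) * fderiv ℝ (u j) z 1) +
        fderiv ℝ φ z Complex.I * (ε j * ff δ (u j z) * fderiv ℝ (u j) z Complex.I)) := by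
      refine (setIntegral_eq_integral_of_forall_compl_eq_zero fun z hz => ?_).symm
      have hz' : z ∉ tsupport φ := fun hh => hz (ball_subset_closedBall (hs hh))
      have h1 : fderiv ℝ φ z = 0 := by
        by_contra hne
        exact hz' (support_fderiv_subset ℝ (f := φ) hne)
      simp [h1]
    rw [e1, ← integral_neg]
    calc ∫ z in closedBall (0 : ℂ) 2, -(fderiv ℝ φ z 1 * (ε j * ff δ (u j z) * fderiv ℝ (u j) z 1) +
          fderiv ℝ φ z Complex.I * (ε j * ff δ (u j z) * fderiv ℝ (u j) z Complex.I))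
        ≤ ‖∫ z in closedBall (0 : ℂ) 2, -(fderiv ℝ φ z 1 * (ε j * ff δ (u j z) * fderiv ℝ (u j) z 1) +
          fderiv ℝ φ z Complex.I * (ε j * ff δ (u j z) * fderiv ℝ (u j) z Complex.I))‖ := le_abs_self _
      _ ≤ ∫ z in closedBall (0 : ℂ) 2, (δ * (2 * B)) * (1 + 2 * ed (ε j) (aj j) (u j) z) := by
          have hint : IntegrableOn (fun z => (δ * (2 * B)) * (1 + 2 * ed (ε j) (aj j) (u j) z))
              (closedBall (0 : ℂ) 2) :=
            integrableOn_two (continuousOn_const.mul (continuousOn_const.add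
              (continuousOn_const.mul (ls_cont_ed h j)))) le_rfl
          refine norm_integral_le_of_norm_le hint ?_
          refine (ae_restrict_iff' measurableSet_closedBall).mpr (Eventually.of_forall fun z hz => ?_)
          have hB1 : |fderiv ℝ φ z 1| ≤ B := by
            have := (fderiv ℝ φ z).le_opNorm 1
            simp only [norm_one, mul_one] at this
            exact this.trans (hB z)
          have hB2 : |fderiv ℝ φ z Complex.I| ≤ B := by
            have := (fderiv ℝ φ z).le_opNorm Complex.I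
            simp only [Complex.norm_I, mul_one] at this
            exact this.trans (hB z)
          have hf := abs_ff_le hδ0 (u j z)
          have hg := norm_gr_sq (u j) z
          set p := fderiv ℝ (u j) z 1
          set q := fderiv ℝ (u j) z Complex.I
          have hk := hkin z hz
          have hpq : |p| + |q| ≤ 1 + ‖gr (u j) z‖ ^ 2 := by
            rw [hg]
            nlinarith [sq_nonneg (|p| - 1), sq_nonneg (|q| - 1), sq_abs p, sq_abs q]
          rw [norm_neg, Real.norm_eq_abs]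
          calc |fderiv ℝ φ z 1 * (ε j * ff δ (u j z) * p) + fderiv ℝ φ z Complex.I * (ε j * ff δ (u j z) * q)|
              ≤ |fderiv ℝ φ z 1| * (ε j * |ff δ (u j z)| * |p|) +
                |fderiv ℝ φ z Complex.I| * (ε j * |ff δ (u j z)| * |q|) := by
                refine (abs_add_le _ _).trans (le_of_eq ?_)
                rw [abs_mul, abs_mul, abs_mul, abs_mul, abs_mul, abs_mul, abs_of_pos hε]
            _ ≤ B * (ε j * (2 * δ) * |p|) + B * (ε j * (2 * δ) * |q|) := by gcongr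
            _ = (δ * (2 * B)) * (ε j * (|p| + |q|)) := by ring
            _ ≤ (δ * (2 * B)) * (ε j * (1 + ‖gr (u j) z‖ ^ 2)) := by gcongr
            _ ≤ (δ * (2 * B)) * (1 + 2 * ed (ε j) (aj j) (u j) z) := by
                gcongr
                nlinarith
      _ = (δ * (2 * B)) * (V + 2 * ∫ z in closedBall (0 : ℂ) 2, ed (ε j) (aj j) (u j) z) := by
          have j1 : IntegrableOn (fun _ : ℂ => (1 : ℝ)) (closedBall 0 2) :=
            integrableOn_const measure_closedBall_lt_top.ne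
          rw [integral_const_mul, integral_add j1 ((ls_ed_int h j le_rfl).const_mul 2),
            integral_const_mul, setIntegral_const, smul_eq_mul, mul_one]
      _ ≤ (δ * (2 * B)) * (V + 2 * E) := by
          gcongr
          exact hE j _ le_rfl
      _ = _ := by ring
  rw [hid] at hlow
  rw [integral_const_mul] at hlow
  have : ∫ z in A, ed (ε j) (aj j) (u j) z ≤ 3 * (δ * (2 * E) + δ * (2 * B * (V + 2 * E))) := by linarith
  calc ∫ z in A, ed (ε j) (aj j) (u j) z ≤ 3 * (δ * (2 * E) + δ * (2 * B * (V + 2 * E))) := this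
    _ = _ := by ring

end

end Pool.Agent.Helper85.CL
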