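import Mathlib

/-!
PROJECT CL, block D: weak sequential compactness of finite measures concentrated on a compact set.
-/

open Set MeasureTheory Filter Topology Metric

open scoped BoundedContinuousFunction ENNReal NNReal

namespace Pool.Agent.Helper85.CL

variable {E : Type*} [MetricSpace E] [SecondCountableTopology E] [MeasurableSpace E] [BorelSpace E]

omit [SecondCountableTopology E] in
lemma isCompact_prob {K : Set E} (hK : IsCompact K) :
    IsCompact {P : ProbabilityMeasure E | P Kᶜ = 0} := by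
  apply (ProbabilityMeasure.toFiniteMeasure_isEmbedding E).isCompact_iff.2
  have h1 : ProbabilityMeasure.toFiniteMeasure '' {P : ProbabilityMeasure E | P Kᶜ = 0} =
      {μ : FiniteMeasure E | μ.mass ≤ 1 ∧ μ Kᶜ = 0} ∩ {μ | μ.mass = 1} := by
    ext μ
    constructor
    · rintro ⟨P, hP, rfl⟩
      refine ⟨⟨by simp, by simpa using hP⟩, by simp⟩
    · rintro ⟨⟨h1, h2⟩, h3⟩
      have h4 : IsProbabilityMeasure (μ : Measure E) := by
        constructor
        have h5 : μ.mass = 1 := h3
        rw [← FiniteMeasure.ennreal_mass, h5]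
        simp
      exact ⟨⟨μ, h4⟩, h2, by ext; rfl⟩
  rw [h1]
  refine (isCompact_setOfPred_finiteMeasure_le_of_isCompact 1 hK).inter_right ?_
  exact isClosed_eq (by fun_prop) (by fun_prop)

/-- Weak sequential compactness. -/
theorem exists_subseq {K : Set E} (hK : IsCompact K) (ρ : ℕ → Measure E)
    (hf : ∀ j, IsFiniteMeasure (ρ j)) {C : ℝ} (hC : ∀ j, (ρ j).real univ ≤ C)
    (hs : ∀ j, ρ j Kᶜ = 0) :
    ∃ φ : ℕ → ℕ, StrictMono φ ∧ ∃ μ : Measure E, IsFiniteMeasure μ ∧ μ Kᶜ = 0 ∧
      ∀ f : E → ℝ, Continuous f →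
        Tendsto (fun j => ∫ x, f x ∂(ρ (φ j))) atTop (𝓝 (∫ x, f x ∂μ)) := by
  classical
  rcases K.eq_empty_or_nonempty with hKe | ⟨k₀, hk₀⟩
  · refine ⟨id, strictMono_id, 0, inferInstance, by simp, fun f _ => ?_⟩
    have : ∀ j, ρ j = 0 := by
      intro j
      have := hs j
      rw [hKe, compl_empty] at this
      exact Measure.measure_univ_eq_zero.mp this
    simp [this]
  · -- normalised measures
    have hP : ∀ j, ∃ P : ProbabilityMeasure E, P Kᶜ = 0 ∧
        ρ j = (ρ j univ) • (P : Measure E) := by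
      intro j
      have := hf j
      by_cases h0 : ρ j = 0
      · refine ⟨⟨Measure.dirac k₀, inferInstance⟩,
          (ProbabilityMeasure.null_iff_toMeasure_null _ _).mpr ?_, by simp [h0]⟩
        change Measure.dirac k₀ Kᶜ = 0
        rw [Measure.dirac_apply' _ hK.isClosed.measurableSet.compl]
        simp [hk₀]
      · have h1 : ρ j univ ≠ 0 := by rwa [Ne, Measure.measure_univ_eq_zero]
        have h2 : ρ j univ ≠ ∞ := measure_ne_top _ _
        have h3 : IsProbabilityMeasure ((ρ j univ)⁻¹ • ρ j) := by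
          constructor
          rw [Measure.smul_apply, smul_eq_mul, ENNReal.inv_mul_cancel h1 h2]
        refine ⟨⟨(ρ j univ)⁻¹ • ρ j, h3⟩,
          (ProbabilityMeasure.null_iff_toMeasure_null _ _).mpr ?_, ?_⟩
        · change ((ρ j univ)⁻¹ • ρ j) Kᶜ = 0
          rw [Measure.smul_apply, hs j, smul_zero]
        · change ρ j = (ρ j univ) • ((ρ j univ)⁻¹ • ρ j)
          rw [smul_smul, ENNReal.mul_inv_cancel h1 h2, one_smul]
    choose P hP1 hP2 using hP
    obtain ⟨P₀, hP₀, φ, hφ, hlim⟩ := (isCompact_prob hK).tendsto_subseq (x := P) hP1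
    have hP₀' : P₀ Kᶜ = 0 := hP₀
    -- masses
    have hb : ∀ j, (ρ (φ j)).real univ ∈ Icc 0 C := fun j => ⟨measureReal_nonneg, hC _⟩
    obtain ⟨M, hM, ψ, hψ, hlim2⟩ := (isCompact_Icc (a := (0 : ℝ)) (b := C)).tendsto_subseq hb
    refine ⟨φ ∘ ψ, hφ.comp hψ, (ENNReal.ofReal M) • (P₀ : Measure E), ?_, ?_, ?_⟩
    · exact Measure.smul_finite _ ENNReal.ofReal_ne_top
    · rw [Measure.smul_apply]
      rw [ProbabilityMeasure.null_iff_toMeasure_null] at hP₀'
      rw [hP₀', smul_zero]
    · intro f hfc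
      obtain ⟨B, hB⟩ := hK.exists_bound_of_continuousOn hfc.continuousOn
      have hB0 : 0 ≤ B := (norm_nonneg _).trans (hB k₀ hk₀)
      let g : E →ᵇ ℝ := BoundedContinuousFunction.ofNormedAddCommGroup
        (fun x => max (-B) (min (f x) B)) (by fun_prop) B (by
          intro x
          rw [Real.norm_eq_abs, abs_le]
          exact ⟨le_max_left _ _, max_le (by linarith) (min_le_right _ _)⟩)
      have hg : ∀ x ∈ K, g x = f x := by
        intro x hx
        have := hB x hx
        rw [Real.norm_eq_abs, abs_le] at this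
        change max (-B) (min (f x) B) = f x
        rw [min_eq_left this.2, max_eq_right this.1]
      have hint : ∀ Q : ProbabilityMeasure E, Q Kᶜ = 0 →
          ∫ x, f x ∂(Q : Measure E) = ∫ x, g x ∂(Q : Measure E) := by
        intro Q hQ
        rw [ProbabilityMeasure.null_iff_toMeasure_null] at hQ
        refine integral_congr_ae ?_
        filter_upwards [measure_eq_zero_iff_ae_notMem.mp hQ] with x hx
        rw [notMem_compl_iff] at hx
        exact (hg x hx).symm
      have h1 : Tendsto (fun j => ∫ x, g x ∂(P (φ (ψ j)) : Measure E)) atTop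
          (𝓝 (∫ x, g x ∂(P₀ : Measure E))) :=
        (ProbabilityMeasure.tendsto_iff_forall_integral_tendsto.mp (hlim.comp hψ.tendsto_atTop)) g
      have h2 := hlim2.mul h1
      have h3 : ∫ x, f x ∂((ENNReal.ofReal M) • (P₀ : Measure E)) =
          M * ∫ x, g x ∂(P₀ : Measure E) := by
        rw [integral_smul_measure, ENNReal.toReal_ofReal hM.1, smul_eq_mul, hint P₀ hP₀']
      rw [h3]
      refine h2.congr fun j => ?_
      have h4 : ∫ x, f x ∂(ρ (φ (ψ j))) = (ρ (φ (ψ j))).real univ * ∫ x, f x ∂(P (φ (ψ j)) : Measure E) := by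
        conv_lhs => rw [hP2 (φ (ψ j))]
        rw [integral_smul_measure, smul_eq_mul]
        rfl
      simp only [Function.comp_apply]
      rw [h4, hint _ (hP1 _)]

end Pool.Agent.Helper85.CL
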