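import Pool.Agent.Helper85.CL.TestFn
import Pool.Agent.Helper53.CL.Defs

/-!
PROJECT CL, block D5: `|m| = 1` at the Lebesgue points of `m` with linear density bounds.
-/

open Complex Set MeasureTheory Filter Topology Metric

open scoped ComplexConjugate

open Pool.Agent.Helper53.CL (dx dy dz dzb)

namespace Pool.Agent.Helper85.CL

noncomputable section

lemma fderiv_conj_comp {ψ : ℂ → ℂ} {z : ℂ} (h : DifferentiableAt ℝ ψ z) (w : ℂ) :
    fderiv ℝ (fun z => conj (ψ z)) z w = conj (fderiv ℝ ψ z w) := by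
  have := (Complex.conjCLE.toContinuousLinearMap.hasFDerivAt (x := ψ z)).comp z h.hasFDerivAt
  have h2 : HasFDerivAt (fun z => conj (ψ z)) _ z := this
  rw [h2.fderiv]
  rfl

lemma dz_conj {ψ : ℂ → ℂ} {z : ℂ} (h : DifferentiableAt ℝ ψ z) :
    dz (fun z => conj (ψ z)) z = conj (dzb ψ z) := by
  simp only [dz, dzb, dx, dy, fderiv_conj_comp h]
  simp only [map_div₀, map_add, map_mul, Complex.conj_I, Complex.conj_ofNat]
  ring

lemma dzb_conj {ψ : ℂ → ℂ} {z : ℂ} (h : DifferentiableAt ℝ ψ z) :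
    dzb (fun z => conj (ψ z)) z = conj (dz ψ z) := by
  simp only [dz, dzb, dx, dy, fderiv_conj_comp h]
  simp only [map_div₀, map_sub, map_mul, Complex.conj_I, Complex.conj_ofNat]
  ring

lemma dz_psi (L : ℝ) (z : ℂ) : dz (psi L) z = (gA L (‖z‖ ^ 2) : ℝ) := by
  have hz : (‖z‖ ^ 2 : ℝ) = z.re * z.re + z.im * z.im := by
    rw [← Complex.normSq_eq_norm_sq, Complex.normSq_apply]
  rw [dz, dx, dy, fderiv_psi_one, fderiv_psi_I, gA]
  rw [hz]
  apply Complex.ext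
  · simp
    ring
  · simp
    ring

lemma dzb_psi (L : ℝ) (z : ℂ) : dzb (psi L) z = z ^ 2 * (gB L (‖z‖ ^ 2) : ℝ) := by
  rw [dzb, dx, dy, fderiv_psi_one, fderiv_psi_I]
  apply Complex.ext
  · simp [pow_two]
    ring
  · simp [pow_two]
    ring

/-- The scaled test function. -/
def Psi (L r : ℝ) (x₀ : ℂ) (x : ℂ) : ℂ := (r : ℂ) * psi L ((r : ℂ)⁻¹ * (x - x₀))

lemma contDiff_Psi (L r : ℝ) (x₀ : ℂ) : ContDiff ℝ 1 (Psi L r x₀) := by
  unfold Psi
  exact contDiff_const.mul ((contDiff_psi L).comp (contDiff_const.mul (contDiff_id.sub contDiff_const)))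

lemma fderiv_Psi (L : ℝ) {r : ℝ} (hr : 0 < r) (x₀ x w : ℂ) :
    fderiv ℝ (Psi L r x₀) x w = fderiv ℝ (psi L) ((r : ℂ)⁻¹ * (x - x₀)) w := by
  have hr' : (r : ℂ) ≠ 0 := by exact_mod_cast hr.ne'
  have h1 : HasFDerivAt (fun x : ℂ => (r : ℂ)⁻¹ * (x - x₀))
      ((r : ℂ)⁻¹ • ContinuousLinearMap.id ℝ ℂ) x := by
    have := ((hasFDerivAt_id (𝕜 := ℝ) x).sub_const x₀).const_mul ((r : ℂ)⁻¹)
    exact this
  have h2 := (hasFDerivAt_psi L ((r : ℂ)⁻¹ * (x - x₀))).comp x h1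
  have h3 := h2.const_mul (r : ℂ)
  have h4 : HasFDerivAt (Psi L r x₀) _ x := h3
  rw [h4.fderiv, (hasFDerivAt_psi L _).fderiv]
  have hsm : ∀ w : ℂ, (r : ℂ)⁻¹ * w = (r⁻¹ : ℝ) • w := by
    intro w; rw [Complex.real_smul]; push_cast; rfl
  simp only [smul_apply, ContinuousLinearMap.comp_apply, smul_eq_mul,
    add_apply, ContinuousLinearMap.id_apply, ContinuousLinearMap.smulRight_apply,
    innerSL_apply_apply, hsm, inner_smul_right]
  simp only [Complex.real_smul]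
  push_cast
  field_simp

lemma dz_Psi (L : ℝ) {r : ℝ} (hr : 0 < r) (x₀ x : ℂ) :
    dz (Psi L r x₀) x = (gA L (‖(r : ℂ)⁻¹ * (x - x₀)‖ ^ 2) : ℝ) := by
  simp only [← dz_psi, dz, dx, dy, fderiv_Psi L hr]

lemma dzb_Psi (L : ℝ) {r : ℝ} (hr : 0 < r) (x₀ x : ℂ) :
    dzb (Psi L r x₀) x =
      ((r : ℂ)⁻¹ * (x - x₀)) ^ 2 * (gB L (‖(r : ℂ)⁻¹ * (x - x₀)‖ ^ 2) : ℝ) := by
  simp only [← dzb_psi, dzb, dx, dy, fderiv_Psi L hr]

lemma norm_scale {r : ℝ} (hr : 0 < r) (x₀ x : ℂ) : ‖(r : ℂ)⁻¹ * (x - x₀)‖ = ‖x - x₀‖ / r := by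
  rw [norm_mul, norm_inv, Complex.norm_real, Real.norm_eq_abs, abs_of_pos hr]
  ring

lemma norm_dz_Psi_le {L : ℝ} (hL : 1 ≤ L) {r : ℝ} (hr : 0 < r) (x₀ x : ℂ) :
    ‖dz (Psi L r x₀) x‖ ≤ (closedBall x₀ (L * r)).indicator (fun _ => 3) x := by
  rw [dz_Psi L hr, Complex.norm_real, Real.norm_eq_abs]
  by_cases hx : x ∈ closedBall x₀ (L * r)
  · rw [indicator_of_mem hx]
    exact abs_gA_le hL (by positivity)
  · rw [indicator_of_notMem hx, gA_eq_zero (by linarith), abs_zero]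
    rw [norm_scale hr]
    rw [mem_closedBall, not_le, dist_eq_norm] at hx
    have : L ≤ ‖x - x₀‖ / r := by rw [le_div_iff₀ hr]; exact hx.le
    gcongr

lemma norm_dzb_Psi_le {L : ℝ} (hL : 1 ≤ L) {r : ℝ} (hr : 0 < r) (x₀ x : ℂ) :
    ‖dzb (Psi L r x₀) x‖ ≤ (closedBall x₀ (L * r)).indicator (fun _ => 3) x := by
  rw [dzb_Psi L hr, norm_mul, norm_pow, Complex.norm_real, Real.norm_eq_abs]
  by_cases hx : x ∈ closedBall x₀ (L * r)
  · rw [indicator_of_mem hx]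
    have := abs_mul_gB_le hL (s := ‖(r : ℂ)⁻¹ * (x - x₀)‖ ^ 2) (by positivity)
    rwa [abs_mul, abs_of_nonneg (by positivity : 0 ≤ ‖(r : ℂ)⁻¹ * (x - x₀)‖ ^ 2)] at this
  · rw [indicator_of_notMem hx, gB_eq_zero (by linarith), abs_zero, mul_zero]
    rw [norm_scale hr]
    rw [mem_closedBall, not_le, dist_eq_norm] at hx
    have : L ≤ ‖x - x₀‖ / r := by rw [le_div_iff₀ hr]; exact hx.le
    gcongr

lemma norm_Psi_le {L : ℝ} (hL : 1 ≤ L) {r : ℝ} (hr : 0 < r) (x₀ x : ℂ) :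
    ‖Psi L r x₀ x‖ ≤ (closedBall x₀ (L * r)).indicator (fun _ => L * r) x := by
  rw [Psi, norm_mul, Complex.norm_real, Real.norm_eq_abs, abs_of_pos hr]
  by_cases hx : x ∈ closedBall x₀ (L * r)
  · rw [indicator_of_mem hx]
    rw [mem_closedBall, dist_eq_norm] at hx
    have h1 : ‖(r : ℂ)⁻¹ * (x - x₀)‖ ≤ L := by
      rw [norm_scale hr, div_le_iff₀ hr]; exact hx
    have h2 : ‖psi L ((r : ℂ)⁻¹ * (x - x₀))‖ ≤ L := by
      rw [psi, norm_mul, Complex.norm_real, Real.norm_eq_abs]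
      have h3 : |gg L (‖(r : ℂ)⁻¹ * (x - x₀)‖ ^ 2)| ≤ 1 := by
        have h4 : gg L (‖(r : ℂ)⁻¹ * (x - x₀)‖ ^ 2) =
          (pp L (‖(r : ℂ)⁻¹ * (x - x₀)‖ ^ 2)) ^ 2 / (1 + ‖(r : ℂ)⁻¹ * (x - x₀)‖ ^ 2) := rfl
        have h5 := pp_nonneg L (‖(r : ℂ)⁻¹ * (x - x₀)‖ ^ 2)
        have h6 := pp_le_one (L := L) (s := ‖(r : ℂ)⁻¹ * (x - x₀)‖ ^ 2) (by positivity)
        rw [h4, abs_of_nonneg (by positivity), div_le_one (by positivity)]
        nlinarith [sq_nonneg ‖(r : ℂ)⁻¹ * (x - x₀)‖]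
      nlinarith [abs_nonneg (gg L (‖(r : ℂ)⁻¹ * (x - x₀)‖ ^ 2)), norm_nonneg ((r : ℂ)⁻¹ * (x - x₀))]
    nlinarith
  · rw [indicator_of_notMem hx, psi_eq_zero (by linarith), norm_zero, mul_zero]
    rw [norm_scale hr]
    rw [mem_closedBall, not_le, dist_eq_norm] at hx
    rw [le_div_iff₀ hr]; exact hx.le

lemma tsupport_Psi_subset {L : ℝ} (hL : 1 ≤ L) {r : ℝ} (hr : 0 < r) (x₀ : ℂ) :
    tsupport (Psi L r x₀) ⊆ closedBall x₀ (L * r) := by
  refine closure_minimal ?_ isClosed_closedBall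
  intro x hx
  by_contra h
  have := norm_Psi_le hL hr x₀ x
  rw [indicator_of_notMem h] at this
  exact hx (norm_le_zero_iff.mp this)

lemma hasCompactSupport_Psi {L : ℝ} (hL : 1 ≤ L) {r : ℝ} (hr : 0 < r) (x₀ : ℂ) :
    HasCompactSupport (Psi L r x₀) :=
  (isCompact_closedBall x₀ (L * r)).of_isClosed_subset (isClosed_tsupport _)
    (tsupport_Psi_subset hL hr x₀)

/-- The weak form of `∂bar (m μ) = ∂ μ - b μ` in the open set `Ω`. -/
def WeakId (Ω : Set ℂ) (μ : Measure ℂ) (m b : ℂ → ℂ) : Prop :=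
  ∀ ψ : ℂ → ℂ, ContDiff ℝ 1 ψ → HasCompactSupport ψ → tsupport ψ ⊆ Ω →
    ∫ x, m x * dzb ψ x ∂μ = ∫ x, dz ψ x ∂μ + ∫ x, ψ x * b x ∂μ

lemma continuous_dz {ψ : ℂ → ℂ} (h : ContDiff ℝ 1 ψ) : Continuous (dz ψ) := by
  have h1 := h.continuous_fderiv one_ne_zero
  unfold dz dx dy
  fun_prop

lemma continuous_dzb {ψ : ℂ → ℂ} (h : ContDiff ℝ 1 ψ) : Continuous (dzb ψ) := by
  have h1 := h.continuous_fderiv one_ne_zero
  unfold dzb dx dy
  fun_prop

variable {μ : Measure ℂ} [IsFiniteMeasure μ]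

lemma integrable_of_le_indicator {f : ℂ → ℂ} (hf : AEStronglyMeasurable f μ) {x₀ : ℂ} {R K : ℝ}
    (h : ∀ x, ‖f x‖ ≤ (closedBall x₀ R).indicator (fun _ => K) x) : Integrable f μ := by
  refine Integrable.mono' (g := (closedBall x₀ R).indicator (fun _ => K)) ?_ hf
    (Eventually.of_forall h)
  exact (integrable_const K).indicator measurableSet_closedBall

/-- One half of the key estimate. -/
lemma key_half {Ω : Set ℂ} {m b : ℂ → ℂ} (hm : AEStronglyMeasurable m μ) (hm1 : ∀ x, ‖m x‖ ≤ 1)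
    (hw : WeakId Ω μ m b) {x₀ m₀ : ℂ} {R K M : ℝ} (hM : 0 ≤ M)
    (hsub : closedBall x₀ R ⊆ Ω) (hb : ∀ x ∈ closedBall x₀ R, ‖b x‖ ≤ K)
    {ψ : ℂ → ℂ} (hψ : ContDiff ℝ 1 ψ) (hψc : HasCompactSupport ψ) (hψs : tsupport ψ ⊆ closedBall x₀ R)
    (h0 : ∀ x, ‖ψ x‖ ≤ (closedBall x₀ R).indicator (fun _ => M) x)
    (h1 : ∀ x, ‖dzb ψ x‖ ≤ (closedBall x₀ R).indicator (fun _ => 3) x) :
    ‖m₀ * ∫ x, dzb ψ x ∂μ - ∫ x, dz ψ x ∂μ‖ ≤
      3 * ∫ x in closedBall x₀ R, ‖m x - m₀‖ ∂μ + M * K * μ.real (closedBall x₀ R) := by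
  have hi1 : Integrable (dzb ψ) μ :=
    integrable_of_le_indicator (continuous_dzb hψ).aestronglyMeasurable h1
  have hi2 : Integrable (fun x => m x * dzb ψ x) μ := by
    refine hi1.norm.mono' (hm.mul hi1.aestronglyMeasurable) (Eventually.of_forall fun x => ?_)
    rw [norm_mul]
    exact mul_le_of_le_one_left (norm_nonneg _) (hm1 x)
  have hmi : Integrable (fun x => m x - m₀) μ := by
    refine Integrable.sub ?_ (integrable_const _)
    exact (integrable_const (1 : ℝ)).mono' hm (Eventually.of_forall hm1)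
  have e1 : m₀ * ∫ x, dzb ψ x ∂μ - ∫ x, dz ψ x ∂μ =
      (∫ x, ψ x * b x ∂μ) - ∫ x, (m x - m₀) * dzb ψ x ∂μ := by
    have e2 : ∫ x, (m x - m₀) * dzb ψ x ∂μ = ∫ x, m x * dzb ψ x ∂μ - m₀ * ∫ x, dzb ψ x ∂μ := by
      rw [← integral_const_mul, ← integral_sub hi2 (hi1.const_mul _)]
      refine integral_congr_ae (Eventually.of_forall fun x => ?_)
      simp only
      ring
    rw [e2, hw ψ hψ hψc (hψs.trans hsub)]
    ring
  have n1 : ‖∫ x, (m x - m₀) * dzb ψ x ∂μ‖ ≤ 3 * ∫ x in closedBall x₀ R, ‖m x - m₀‖ ∂μ := by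
    have : ‖∫ x, (m x - m₀) * dzb ψ x ∂μ‖ ≤
        ∫ x, (closedBall x₀ R).indicator (fun x => 3 * ‖m x - m₀‖) x ∂μ := by
      refine norm_integral_le_of_norm_le ?_ (Eventually.of_forall fun x => ?_)
      · exact (hmi.norm.const_mul 3).indicator measurableSet_closedBall
      · rw [norm_mul]
        by_cases hx : x ∈ closedBall x₀ R
        · have := h1 x
          rw [indicator_of_mem hx] at this ⊢
          nlinarith [norm_nonneg (m x - m₀)]
        · have := h1 x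
          rw [indicator_of_notMem hx] at this ⊢
          have h2 : ‖dzb ψ x‖ = 0 := le_antisymm this (norm_nonneg _)
          rw [h2, mul_zero]
    rwa [integral_indicator measurableSet_closedBall, integral_const_mul] at this
  have n2 : ‖∫ x, ψ x * b x ∂μ‖ ≤ M * K * μ.real (closedBall x₀ R) := by
    have : ‖∫ x, ψ x * b x ∂μ‖ ≤ ∫ x, (closedBall x₀ R).indicator (fun x => M * K) x ∂μ := by
      refine norm_integral_le_of_norm_le ?_ (Eventually.of_forall fun x => ?_)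
      · exact (integrable_const _).indicator measurableSet_closedBall
      · rw [norm_mul]
        by_cases hx : x ∈ closedBall x₀ R
        · have h2 := h0 x
          rw [indicator_of_mem hx] at h2 ⊢
          exact mul_le_mul h2 (hb x hx) (norm_nonneg _) hM
        · have h2 := h0 x
          rw [indicator_of_notMem hx] at h2 ⊢
          have h3 : ‖ψ x‖ = 0 := le_antisymm h2 (norm_nonneg _)
          rw [h3, zero_mul]
    rw [integral_indicator measurableSet_closedBall, setIntegral_const, smul_eq_mul] at this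
    linarith
  rw [e1]
  calc _ ≤ ‖∫ x, ψ x * b x ∂μ‖ + ‖∫ x, (m x - m₀) * dzb ψ x ∂μ‖ := norm_sub_le _ _
    _ ≤ _ := by linarith

lemma key {Ω : Set ℂ} {m b : ℂ → ℂ} (hm : AEStronglyMeasurable m μ) (hm1 : ∀ x, ‖m x‖ ≤ 1)
    (hw : WeakId Ω μ m b) {x₀ m₀ : ℂ} {L r K : ℝ} (hL : 1 ≤ L) (hr : 0 < r)
    (hsub : closedBall x₀ (L * r) ⊆ Ω) (hb : ∀ x ∈ closedBall x₀ (L * r), ‖b x‖ ≤ K) :
    (1 - ‖m₀‖ ^ 2) * ∫ x, gA L (‖(r : ℂ)⁻¹ * (x - x₀)‖ ^ 2) ∂μ ≤
      (1 + ‖m₀‖) * (3 * ∫ x in closedBall x₀ (L * r), ‖m x - m₀‖ ∂μ +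
        L * r * K * μ.real (closedBall x₀ (L * r))) := by
  set E := 3 * ∫ x in closedBall x₀ (L * r), ‖m x - m₀‖ ∂μ +
        L * r * K * μ.real (closedBall x₀ (L * r)) with hE
  have hM : 0 ≤ L * r := by positivity
  have hc := contDiff_Psi L r x₀
  have hd : Differentiable ℝ (Psi L r x₀) := hc.differentiable one_ne_zero
  have k1 := key_half (m₀ := m₀) hm hm1 hw hM hsub hb hc (hasCompactSupport_Psi hL hr x₀)
    (tsupport_Psi_subset hL hr x₀) (norm_Psi_le hL hr x₀) (norm_dzb_Psi_le hL hr x₀)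
  have hc' : ContDiff ℝ 1 (fun x => conj (Psi L r x₀ x)) :=
    Complex.conjCLE.toContinuousLinearMap.contDiff.comp hc
  have hs' : tsupport (fun x => conj (Psi L r x₀ x)) ⊆ closedBall x₀ (L * r) := by
    refine Subset.trans (closure_mono ?_) (tsupport_Psi_subset hL hr x₀)
    intro x hx h
    exact hx (by simp [h])
  have k2 := key_half (m₀ := m₀) hm hm1 hw hM hsub hb hc'
    ((isCompact_closedBall x₀ (L * r)).of_isClosed_subset (isClosed_tsupport _) hs') hs'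
    (fun x => by rw [RCLike.norm_conj]; exact norm_Psi_le hL hr x₀ x)
    (fun x => by rw [dzb_conj (hd x), RCLike.norm_conj]; exact norm_dz_Psi_le hL hr x₀ x)
  rw [← hE] at k1 k2
  set A := ∫ x, gA L (‖(r : ℂ)⁻¹ * (x - x₀)‖ ^ 2) ∂μ with hA
  set B := ∫ x, dzb (Psi L r x₀) x ∂μ with hB
  have a1 : ∫ x, dz (Psi L r x₀) x ∂μ = (A : ℂ) := by
    rw [hA, ← integral_complex_ofReal]
    exact integral_congr_ae (Eventually.of_forall fun x => dz_Psi L hr x₀ x)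
  have a2 : ∫ x, dzb (fun x => conj (Psi L r x₀ x)) x ∂μ = (A : ℂ) := by
    rw [hA, ← integral_complex_ofReal]
    refine integral_congr_ae (Eventually.of_forall fun x => ?_)
    simp only
    rw [dzb_conj (hd x), dz_Psi L hr x₀ x, Complex.conj_ofReal]
  have a3 : ∫ x, dz (fun x => conj (Psi L r x₀ x)) x ∂μ = conj B := by
    rw [hB, ← integral_conj]
    exact integral_congr_ae (Eventually.of_forall fun x => dz_conj (hd x))
  rw [a1] at k1
  rw [a2, a3] at k2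
  have k3 : ‖conj m₀ * (A : ℂ) - B‖ ≤ E := by
    have : conj m₀ * (A : ℂ) - B = conj (m₀ * (A : ℂ) - conj B) := by simp
    rw [this, RCLike.norm_conj]
    exact k2
  have k4 : ‖((1 - ‖m₀‖ ^ 2 : ℝ) : ℂ) * A‖ ≤ (1 + ‖m₀‖) * E := by
    have e1 : ((1 - ‖m₀‖ ^ 2 : ℝ) : ℂ) * A = -(m₀ * B - A) - m₀ * (conj m₀ * (A : ℂ) - B) := by
      have e2 : m₀ * conj m₀ = ((‖m₀‖ ^ 2 : ℝ) : ℂ) := by
        rw [Complex.mul_conj, Complex.normSq_eq_norm_sq]
      have e3 : m₀ * (conj m₀ * (A : ℂ) - B) = ((‖m₀‖ ^ 2 : ℝ) : ℂ) * A - m₀ * B := by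
        rw [mul_sub, ← mul_assoc, e2]
      rw [e3]
      push_cast
      ring
    rw [e1]
    calc _ ≤ ‖-(m₀ * B - A)‖ + ‖m₀ * (conj m₀ * (A : ℂ) - B)‖ := norm_sub_le _ _
      _ = ‖m₀ * B - A‖ + ‖m₀‖ * ‖conj m₀ * (A : ℂ) - B‖ := by rw [norm_neg, norm_mul]
      _ ≤ E + ‖m₀‖ * E := by gcongr
      _ = _ := by ring
  calc (1 - ‖m₀‖ ^ 2) * A ≤ |(1 - ‖m₀‖ ^ 2) * A| := le_abs_self _
    _ = ‖((1 - ‖m₀‖ ^ 2 : ℝ) : ℂ) * A‖ := by
        rw [← Complex.ofReal_mul, Complex.norm_real, Real.norm_eq_abs]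
    _ ≤ _ := k4

/-- The lower bound for the mass seen by the test function. -/
lemma int_gA_ge {x₀ : ℂ} {L r c C : ℝ} (hL : 4 ≤ L) (hLc : 64 * C ≤ L * c) (hr : 0 < r)
    (hlow : c * r ≤ μ.real (closedBall x₀ r)) (hup : μ.real (closedBall x₀ (L * r)) ≤ C * (L * r)) :
    c / 32 * r ≤ ∫ x, gA L (‖(r : ℂ)⁻¹ * (x - x₀)‖ ^ 2) ∂μ := by
  have hL0 : 0 < L := by linarith
  have h1 : ∫ x, ((closedBall x₀ r).indicator (fun _ => (1 / 16 : ℝ)) x -
      (closedBall x₀ (L * r)).indicator (fun _ => (2 / L ^ 2 : ℝ)) x) ∂μ ≤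
      ∫ x, gA L (‖(r : ℂ)⁻¹ * (x - x₀)‖ ^ 2) ∂μ := by
    refine integral_mono ?_ ?_ ?_
    · exact ((integrable_const _).indicator measurableSet_closedBall).sub
        ((integrable_const _).indicator measurableSet_closedBall)
    · have := integrable_of_le_indicator (μ := μ) (continuous_dz (contDiff_Psi L r x₀)).aestronglyMeasurable
        (norm_dz_Psi_le (by linarith : 1 ≤ L) hr x₀)
      have h2 := this.re
      refine h2.congr (Eventually.of_forall fun x => ?_)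
      simp only
      rw [dz_Psi L hr x₀ x]
      simp
    · intro x
      simp only
      have hle : ∀ {R : ℝ}, x ∈ closedBall x₀ R → ‖(r : ℂ)⁻¹ * (x - x₀)‖ ≤ R / r := by
        intro R hx
        rw [mem_closedBall, dist_eq_norm] at hx
        rw [norm_scale hr]
        gcongr
      by_cases hx : x ∈ closedBall x₀ r
      · have hx' : x ∈ closedBall x₀ (L * r) := by
          rw [mem_closedBall] at hx ⊢
          nlinarith
        rw [indicator_of_mem hx, indicator_of_mem hx']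
        have h3 := hle hx
        rw [div_self hr.ne'] at h3
        have := gA_ge_of_le_one hL (s := ‖(r : ℂ)⁻¹ * (x - x₀)‖ ^ 2) (by positivity)
          (by nlinarith [norm_nonneg ((r : ℂ)⁻¹ * (x - x₀))])
        have h4 : 0 ≤ 2 / L ^ 2 := by positivity
        linarith
      · rw [indicator_of_notMem hx]
        by_cases hx' : x ∈ closedBall x₀ (L * r)
        · rw [indicator_of_mem hx']
          have := gA_ge hL0 (s := ‖(r : ℂ)⁻¹ * (x - x₀)‖ ^ 2) (by positivity)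
          linarith
        · rw [indicator_of_notMem hx', gA_eq_zero hL0]
          · simp
          · rw [norm_scale hr]
            rw [mem_closedBall, not_le, dist_eq_norm] at hx'
            have : L ≤ ‖x - x₀‖ / r := by rw [le_div_iff₀ hr]; exact hx'.le
            gcongr
  refine le_trans ?_ h1
  rw [integral_sub ((integrable_const _).indicator measurableSet_closedBall)
    ((integrable_const _).indicator measurableSet_closedBall),
    integral_indicator measurableSet_closedBall, integral_indicator measurableSet_closedBall,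
    setIntegral_const, setIntegral_const, smul_eq_mul, smul_eq_mul]
  have h5 : μ.real (closedBall x₀ (L * r)) * (2 / L ^ 2) ≤ c / 32 * r := by
    calc μ.real (closedBall x₀ (L * r)) * (2 / L ^ 2) ≤ C * (L * r) * (2 / L ^ 2) := by gcongr
      _ = (64 * C) / L * (r / 32) := by field_simp; ring
      _ ≤ c * (r / 32) := by
          gcongr
          rw [div_le_iff₀ hL0]
          linarith
      _ = _ := by ring
  linarith

/-- `|m| = 1` at a Lebesgue point. -/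
theorem one_le_norm {Ω : Set ℂ} (hΩ : IsOpen Ω) {m b : ℂ → ℂ} (hm : AEStronglyMeasurable m μ)
    (hm1 : ∀ x, ‖m x‖ ≤ 1) (hb : ContinuousOn b Ω) (hw : WeakId Ω μ m b) {x₀ m₀ : ℂ} (hx₀ : x₀ ∈ Ω)
    {c C : ℝ} (hc : 0 < c) (hlow : ∀ᶠ r in 𝓝[>] (0 : ℝ), c * r ≤ μ.real (closedBall x₀ r))
    (hup : ∀ᶠ r in 𝓝[>] (0 : ℝ), μ.real (closedBall x₀ r) ≤ C * r)
    (hleb : Tendsto (fun r : ℝ => (∫ x in closedBall x₀ r, ‖m x - m₀‖ ∂μ) / r) (𝓝[>] 0) (𝓝 0)) :
    1 ≤ ‖m₀‖ := by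
  by_contra hcon
  push Not at hcon
  obtain ⟨R, hR, hRs⟩ := Metric.isOpen_iff.mp hΩ x₀ hx₀
  obtain ⟨L, hL4, hLc⟩ : ∃ L : ℝ, 4 ≤ L ∧ 64 * C ≤ L * c := by
    refine ⟨max 4 (64 * C / c), le_max_left _ _, ?_⟩
    rw [← div_le_iff₀ hc]
    exact le_max_right _ _
  have hL0 : 0 < L := by linarith
  -- local bound for b
  obtain ⟨K, hK0, hKb⟩ : ∃ K : ℝ, 0 ≤ K ∧ ∀ x ∈ closedBall x₀ (R / 2), ‖b x‖ ≤ K := by
    obtain ⟨K, hK⟩ := (isCompact_closedBall x₀ (R / 2)).exists_bound_of_continuousOn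
      (hb.mono (Subset.trans (closedBall_subset_ball (by linarith)) hRs))
    exact ⟨max K 0, le_max_right _ _, fun x hx => (hK x hx).trans (le_max_left _ _)⟩
  have hLt : Tendsto (fun r : ℝ => L * r) (𝓝[>] 0) (𝓝[>] 0) := by
    refine tendsto_nhdsWithin_iff.mpr ⟨?_, ?_⟩
    · have : Tendsto (fun r : ℝ => L * r) (𝓝 0) (𝓝 (L * 0)) := tendsto_id.const_mul L
      rw [mul_zero] at this
      exact this.mono_left nhdsWithin_le_nhds
    · filter_upwards [self_mem_nhdsWithin] with r hr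
      exact mul_pos hL0 hr
  have hlim : Tendsto (fun r : ℝ => 2 * (3 * ((∫ x in closedBall x₀ (L * r), ‖m x - m₀‖ ∂μ) / (L * r) * L) +
      L * K * (C * (L * r)))) (𝓝[>] 0) (𝓝 (2 * (3 * (0 * L) + L * K * (C * 0)))) := by
    have h1 := hleb.comp hLt
    have h2 : Tendsto (fun r : ℝ => L * r) (𝓝[>] 0) (𝓝 0) := hLt.mono_right nhdsWithin_le_nhds
    exact (((h1.mul_const L).const_mul 3).add ((h2.const_mul C).const_mul (L * K))).const_mul 2
  have h0 : 2 * (3 * (0 * L) + L * K * (C * 0)) = (0 : ℝ) := by ring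
  rw [h0] at hlim
  have hpos : 0 < (1 - ‖m₀‖ ^ 2) * (c / 32) := by
    have : ‖m₀‖ ^ 2 < 1 := by nlinarith [norm_nonneg m₀]
    have : 0 < 1 - ‖m₀‖ ^ 2 := by linarith
    positivity
  have hev1 := hlim.eventually (gt_mem_nhds hpos)
  have hev2 : ∀ᶠ r in 𝓝[>] (0 : ℝ), L * r < R / 2 :=
    (hLt.mono_right nhdsWithin_le_nhds).eventually (gt_mem_nhds (by linarith))
  obtain ⟨r, h1, h2, h3, h4, hr⟩ := (hev1.and (hev2.and (hlow.and ((hLt.eventually hup).and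
    self_mem_nhdsWithin)))).exists
  have hr0 : 0 < r := hr
  have k := key (m₀ := m₀) hm hm1 hw (by linarith : 1 ≤ L) hr0
    (Subset.trans (closedBall_subset_ball (by linarith)) hRs)
    (fun x hx => hKb x (closedBall_subset_closedBall h2.le hx))
  have k2 := int_gA_ge hL4 hLc hr0 h3 h4
  have h5 : 0 ≤ 1 - ‖m₀‖ ^ 2 := by nlinarith [norm_nonneg m₀]
  have k3 : (1 - ‖m₀‖ ^ 2) * (c / 32 * r) ≤
      (1 + ‖m₀‖) * (3 * ∫ x in closedBall x₀ (L * r), ‖m x - m₀‖ ∂μ +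
        L * r * K * μ.real (closedBall x₀ (L * r))) := le_trans (by gcongr) k
  set J := ∫ x in closedBall x₀ (L * r), ‖m x - m₀‖ ∂μ with hJ
  have hJ0 : 0 ≤ J := integral_nonneg fun x => norm_nonneg _
  have h6 : J / (L * r) * L = J / r := by field_simp
  rw [h6] at h1
  have h7 : 2 * (3 * (J / r) + L * K * (C * (L * r))) * r = 2 * (3 * J + L * r * K * (C * (L * r))) := by
    field_simp
  have h8 : (1 + ‖m₀‖) * (3 * J + L * r * K * μ.real (closedBall x₀ (L * r))) ≤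
      2 * (3 * J + L * r * K * (C * (L * r))) := by
    have h9 : 3 * J + L * r * K * μ.real (closedBall x₀ (L * r)) ≤
        3 * J + L * r * K * (C * (L * r)) := by gcongr
    have h10 : 0 ≤ 3 * J + L * r * K * μ.real (closedBall x₀ (L * r)) := by positivity
    nlinarith [norm_nonneg m₀]
  have h11 := mul_lt_mul_of_pos_right h1 hr0
  rw [h7] at h11
  nlinarith

/-- `|m| = 1` almost everywhere in `Ω`. -/
theorem ae_norm_eq_one {Ω : Set ℂ} (hΩ : IsOpen Ω) {m b : ℂ → ℂ} (hm : AEStronglyMeasurable m μ)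
    (hm1 : ∀ x, ‖m x‖ ≤ 1) (hb : ContinuousOn b Ω) (hw : WeakId Ω μ m b)
    (hlow : ∀ᵐ x ∂μ, x ∈ Ω → ∃ c : ℝ, 0 < c ∧ ∀ᶠ r in 𝓝[>] (0 : ℝ), c * r ≤ μ.real (closedBall x r))
    (hup : ∀ᵐ x ∂μ, x ∈ Ω → ∃ C : ℝ, ∀ᶠ r in 𝓝[>] (0 : ℝ), μ.real (closedBall x r) ≤ C * r) :
    ∀ᵐ x ∂μ, x ∈ Ω → ‖m x‖ = 1 := by
  have hint : Integrable m μ := (integrable_const (1 : ℝ)).mono' hm (Eventually.of_forall hm1)
  filter_upwards [hlow, hup, (Besicovitch.vitaliFamily μ).ae_tendsto_average_norm_sub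
    hint.locallyIntegrable] with x hx1 hx2 hx3 hxΩ
  obtain ⟨c, hc, hc'⟩ := hx1 hxΩ
  obtain ⟨C, hC'⟩ := hx2 hxΩ
  have h4 := hx3.comp (Besicovitch.tendsto_filterAt μ x)
  refine le_antisymm (hm1 x) (one_le_norm hΩ hm hm1 hb hw hxΩ hc hc' hC' ?_)
  have h5 : Tendsto (fun r : ℝ => (⨍ y in closedBall x r, ‖m y - m x‖ ∂μ) * C) (𝓝[>] 0) (𝓝 0) := by
    have := h4.mul_const C
    rwa [zero_mul] at this
  refine squeeze_zero' ?_ ?_ h5
  · filter_upwards [self_mem_nhdsWithin] with r hr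
    have hr0 : (0 : ℝ) < r := hr
    have : 0 ≤ ∫ y in closedBall x r, ‖m y - m x‖ ∂μ := integral_nonneg fun _ => norm_nonneg _
    positivity
  · filter_upwards [self_mem_nhdsWithin, hC', hc'] with r hr h6 h7
    have hr0 : (0 : ℝ) < r := hr
    have h8 : 0 < μ.real (closedBall x r) := lt_of_lt_of_le (mul_pos hc hr0) h7
    have h9 : 0 ≤ ∫ y in closedBall x r, ‖m y - m x‖ ∂μ := integral_nonneg fun _ => norm_nonneg _
    rw [setAverage_eq, smul_eq_mul]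
    rw [div_le_iff₀ hr0]
    have h10 : (μ.real (closedBall x r))⁻¹ * (∫ y in closedBall x r, ‖m y - m x‖ ∂μ) * C * r =
        (∫ y in closedBall x r, ‖m y - m x‖ ∂μ) * ((μ.real (closedBall x r))⁻¹ * (C * r)) := by ring
    rw [h10]
    refine le_mul_of_one_le_right h9 ?_
    rw [← div_eq_inv_mul, one_le_div h8]
    exact h6

end

end Pool.Agent.Helper85.CL
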