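import Pool.Agent.Helper85.CL.Inputs
import Pool.Agent.Helper53.CL.Iface

/-!
PROJECT CL: first half of `Unif` from `Bnd1` by scaling.
-/

open Set MeasureTheory Filter Topology Metric

open scoped ContDiff Real

open Pool.Agent.Helper53.CL

namespace Pool.Agent.Helper85.CL

/-- Derivatives of smooth functions are bounded on compact subsets. -/
lemma bdd_itd {f : ℂ → ℝ} (hf : ContDiffOn ℝ ∞ f (ball 0 3)) (k : ℕ) {R : ℝ} (hR : R < 3) :
    ∃ C, ∀ z ∈ closedBall (0 : ℂ) R, ‖iteratedFDeriv ℝ k f z‖ ≤ C := by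
  have h1 : ContinuousOn (iteratedFDerivWithin ℝ k f (ball 0 3)) (ball 0 3) :=
    hf.continuousOn_iteratedFDerivWithin (by exact_mod_cast le_top) isOpen_ball.uniqueDiffOn
  have h2 : ContinuousOn (iteratedFDeriv ℝ k f) (ball 0 3) :=
    h1.congr (iteratedFDerivWithin_of_isOpen k isOpen_ball).symm
  exact (isCompact_closedBall (0 : ℂ) R).exists_bound_of_continuousOn
    (h2.mono (closedBall_subset_ball hR))

/-- Derivatives of `r exp (t b)` are bounded uniformly for `t` between zero and one. -/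
lemma bdd_exp {r b : ℂ → ℝ} (hr : ContDiffOn ℝ ∞ r (ball 0 3)) (hb : ContDiffOn ℝ ∞ b (ball 0 3)) (k : ℕ)
    {R : ℝ} (hR : R < 3) : ∃ C, 0 ≤ C ∧ ∀ t ∈ Icc (0 : ℝ) 1, ∀ z ∈ closedBall (0 : ℂ) R,
      ‖iteratedFDeriv ℝ k (fun z => r z * Real.exp (t * b z)) z‖ ≤ C := by
  choose Cr hCr using fun j : ℕ => bdd_itd hr j hR
  choose Cb hCb using fun j : ℕ => bdd_itd hb j hR
  -- a common bound for b of order at most k
  set B : ℝ := 1 + ∑ j ∈ Finset.range (k + 1), |Cb j| with hB
  have hB1 : 1 ≤ B := by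
    have : 0 ≤ ∑ j ∈ Finset.range (k + 1), |Cb j| := Finset.sum_nonneg fun _ _ => abs_nonneg _
    linarith
  have hBj : ∀ j ≤ k, ∀ z ∈ closedBall (0 : ℂ) R, ‖iteratedFDeriv ℝ j b z‖ ≤ B := by
    intro j hj z hz
    have h1 := (hCb j z hz).trans (le_abs_self _)
    have h2 : |Cb j| ≤ ∑ j ∈ Finset.range (k + 1), |Cb j| :=
      Finset.single_le_sum (f := fun j => |Cb j|) (fun _ _ => abs_nonneg _)
        (Finset.mem_range.mpr (by omega))
    linarith
  set A : ℝ := ∑ j ∈ Finset.range (k + 1), |Cr j| with hA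
  have hA0 : 0 ≤ A := Finset.sum_nonneg fun _ _ => abs_nonneg _
  have hAj : ∀ j ≤ k, ∀ z ∈ closedBall (0 : ℂ) R, ‖iteratedFDeriv ℝ j r z‖ ≤ A := by
    intro j hj z hz
    have h1 := (hCr j z hz).trans (le_abs_self _)
    have h2 : |Cr j| ≤ A :=
      Finset.single_le_sum (f := fun j => |Cr j|) (fun _ _ => abs_nonneg _)
        (Finset.mem_range.mpr (by omega))
    linarith
  -- derivatives of the exponential
  have hexp : ∀ t ∈ Icc (0 : ℝ) 1, ∀ j ≤ k, ∀ z ∈ closedBall (0 : ℂ) R,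
      ‖iteratedFDeriv ℝ j (fun z => Real.exp (t * b z)) z‖ ≤ (k.factorial : ℝ) * Real.exp B * B ^ k := by
    intro t ht j hj z hz
    have hz3 : z ∈ ball (0 : ℂ) 3 := closedBall_subset_ball hR hz
    have htb : ContDiffAt ℝ ∞ (fun z => t * b z) z :=
      contDiffAt_const.mul (hb.contDiffAt (isOpen_ball.mem_nhds hz3))
    have hbz : |t * b z| ≤ B := by
      have h0 := hBj 0 (Nat.zero_le _) z hz
      rw [norm_iteratedFDeriv_zero, Real.norm_eq_abs] at h0
      rw [abs_mul, abs_of_nonneg ht.1]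
      calc t * |b z| ≤ 1 * B := mul_le_mul ht.2 h0 (abs_nonneg _) zero_le_one
        _ = B := one_mul B
    have hs : UniqueDiffOn ℝ (ball (0 : ℂ) 3) := isOpen_ball.uniqueDiffOn
    have hwithin : ∀ (m : ℕ) (g : ℂ → ℝ), iteratedFDerivWithin ℝ m g (ball 0 3) z = iteratedFDeriv ℝ m g z :=
      fun m g => iteratedFDerivWithin_of_isOpen m isOpen_ball hz3
    have h := norm_iteratedFDerivWithin_comp_le (𝕜 := ℝ) (g := Real.exp) (f := fun z => t * b z) (n := j)
      (N := ∞) (t := univ) (s := ball 0 3) (x := z) (C := Real.exp B) (D := B)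
      Real.contDiff_exp.contDiffOn (contDiffOn_const.mul hb) (by exact_mod_cast le_top) uniqueDiffOn_univ hs
      (mapsTo_univ _ _) hz3 (fun i _ => by
        rw [iteratedFDerivWithin_univ, norm_iteratedFDeriv_eq_norm_iteratedDeriv, iteratedDeriv_eq_iterate,
          Real.iter_deriv_exp, Real.norm_eq_abs, Real.abs_exp]
        exact Real.exp_le_exp.mpr ((le_abs_self _).trans hbz)) (fun i hi1 hi2 => by
        rw [hwithin]
        have e : (fun z => t * b z) = t • b := by ext y; simp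
        rw [e, iteratedFDeriv_const_smul_apply
          ((hb.contDiffAt (isOpen_ball.mem_nhds hz3)).of_le (by exact_mod_cast le_top)), norm_smul,
          Real.norm_eq_abs, abs_of_nonneg ht.1]
        calc t * ‖iteratedFDeriv ℝ i b z‖ ≤ 1 * B :=
              mul_le_mul ht.2 (hBj i (hi2.trans hj) z hz) (norm_nonneg _) zero_le_one
          _ = B ^ 1 := by ring
          _ ≤ B ^ i := pow_le_pow_right₀ hB1 hi1)
    rw [hwithin] at h
    refine h.trans ?_
    have h1 : (j.factorial : ℝ) ≤ k.factorial := by exact_mod_cast Nat.factorial_le hj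
    have h2 : B ^ j ≤ B ^ k := pow_le_pow_right₀ hB1 hj
    gcongr
  set X : ℝ := (k.factorial : ℝ) * Real.exp B * B ^ k with hX
  have hX0 : 0 ≤ X := by positivity
  refine ⟨∑ i ∈ Finset.range (k + 1), (k.choose i : ℝ) * A * X,
    Finset.sum_nonneg fun _ _ => by positivity, fun t ht z hz => ?_⟩
  have hz3 : z ∈ ball (0 : ℂ) 3 := closedBall_subset_ball hR hz
  have hs : UniqueDiffOn ℝ (ball (0 : ℂ) 3) := isOpen_ball.uniqueDiffOn
  have hwithin : ∀ (m : ℕ) (g : ℂ → ℝ), iteratedFDerivWithin ℝ m g (ball 0 3) z = iteratedFDeriv ℝ m g z :=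
    fun m g => iteratedFDerivWithin_of_isOpen m isOpen_ball hz3
  have h := norm_iteratedFDerivWithin_mul_le (𝕜 := ℝ) (f := r) (g := fun z => Real.exp (t * b z)) (N := ∞)
    hr (Real.contDiff_exp.comp_contDiffOn (contDiffOn_const.mul hb)) hs hz3 (n := k)
    (by exact_mod_cast le_top)
  simp only [hwithin] at h
  refine h.trans (Finset.sum_le_sum fun i hi => ?_)
  have hi' : i ≤ k := by
    have := Finset.mem_range.mp hi
    omega
  have h1 := hAj i hi' z hz
  have h2 := hexp t ht (k - i) (Nat.sub_le _ _) z hz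
  gcongr

end Pool.Agent.Helper85.CL
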