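import Pool.Agent.Helper85.CL.DMeas

/-!
PROJECT CL, block D4: the negative part of the discrepancy tends to zero.
-/

open Set MeasureTheory Filter Topology Metric

open scoped ContDiff Real ENNReal

open Pool.Agent.Helper53.CL

namespace Pool.Agent.Helper85.CL

/-- The dyadic inequality for the limit measures implies density zero. -/
lemma density_of_mono {μ ν : Measure ℂ} [IsFiniteMeasure μ] [IsFiniteMeasure ν] {x : ℂ} {C r1 : ℝ}
    (hr1 : 0 < r1)
    (h : ∀ s ∈ Ioo 0 r1, 1 / (2 * s) * ∫ z, cut x s z ∂ν ≤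
      1 / (2 * s) * (∫ z, cut x (2 * s) z ∂μ) - 1 / s * (∫ z, cut x s z ∂μ) + C * s) :
    Tendsto (fun i : ℕ => ν.real (closedBall x ((1 / 2) ^ i)) / (1 / 2) ^ i) atTop (𝓝 0) := by
  obtain ⟨i0, hi0⟩ := exists_pow_lt_of_lt_one hr1 (by norm_num : (1 / 2 : ℝ) < 1)
  let s : ℕ → ℝ := fun i => (1 / 2) ^ (i0 + i)
  have hs : ∀ i, s i ∈ Ioo 0 r1 := fun i => by
    refine ⟨by positivity, lt_of_le_of_lt ?_ hi0⟩
    exact pow_le_pow_of_le_one (by norm_num) (by norm_num) (by omega)
  have hs1 : ∀ i, s i = 2 * s (i + 1) := fun i => by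
    simp only [s]
    rw [← add_assoc, pow_succ]
    ring
  have ht : Tendsto (fun i => 1 / (2 * s i) * ∫ z, cut x (s i) z ∂ν) atTop (𝓝 0) := by
    refine dyadic_tendsto_zero (J := fun i => 1 / (2 * s i) * ∫ z, cut x (2 * s i) z ∂μ)
      (C := C * (1 / 2) ^ i0) (fun i => ?_) (fun i => ?_) (fun i => ?_)
    · have := (hs i).1
      have h2 : 0 ≤ ∫ z, cut x (2 * s i) z ∂μ := integral_nonneg fun z => cut_nonneg _ _ _
      positivity
    · have := (hs i).1
      have h2 : 0 ≤ ∫ z, cut x (s i) z ∂ν := integral_nonneg fun z => cut_nonneg _ _ _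
      positivity
    · have h1 := h (s i) (hs i)
      have h2 : C * s i = C * (1 / 2) ^ i0 * (1 / 2) ^ i := by simp only [s]; rw [pow_add]; ring
      rw [← h2, ← hs1 i]
      exact h1
  have h2 : Tendsto (fun i : ℕ => ν.real (closedBall x ((1 / 2) ^ (i + (i0 + 1)))) / (1 / 2) ^ (i + (i0 + 1)))
      atTop (𝓝 0) := by
    have ht2 := ht.const_mul (64 / 9)
    rw [mul_zero] at ht2
    refine squeeze_zero (fun i => by positivity) (fun i => ?_) ht2
    have e1 : ((1 / 2 : ℝ)) ^ (i + (i0 + 1)) = s i / 2 := by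
      simp only [s]
      rw [show i + (i0 + 1) = (i0 + i) + 1 by ring, pow_succ]
      ring
    rw [e1]
    have hp : 0 < s i := (hs i).1
    have h3 : 9 / 16 * ν.real (closedBall x (s i / 2)) ≤ ∫ z, cut x (s i) z ∂ν := by
      calc 9 / 16 * ν.real (closedBall x (s i / 2)) =
            ∫ z, (closedBall x (s i / 2)).indicator (fun _ => (9 / 16 : ℝ)) z ∂ν := by
            rw [integral_indicator measurableSet_closedBall, setIntegral_const, smul_eq_mul, mul_comm]
        _ ≤ _ := by
            refine integral_mono ((integrable_const _).indicator measurableSet_closedBall)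
              ((continuous_cut _ _).integrable_of_hasCompactSupport (hasCompactSupport_cut hp)) ?_
            intro z
            simp only
            by_cases hz : z ∈ closedBall x (s i / 2)
            · rw [indicator_of_mem hz]
              rw [mem_closedBall, dist_eq_norm] at hz
              exact cut_ge hp hz
            · rw [indicator_of_notMem hz]
              exact cut_nonneg _ _ _
    rw [div_le_iff₀ (by positivity)]
    have h4 : 64 / 9 * (1 / (2 * s i) * ∫ z, cut x (s i) z ∂ν) * (s i / 2) =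
        16 / 9 * ∫ z, cut x (s i) z ∂ν := by
      field_simp
      ring
    rw [h4]
    linarith
  exact (tendsto_add_atTop_iff_nat (i0 + 1)).mp h2

variable {a : ℂ → ℝ} {aj : ℕ → ℂ → ℝ} {ε : ℕ → ℝ} {u : ℕ → ℂ → ℝ}

/-- The negative part of the discrepancy. -/
noncomputable def dneg (ε : ℝ) (a u : ℂ → ℝ) (z : ℂ) : ℝ := max (-disc ε a u z) 0

lemma cont_dneg (h : LocSeq a aj ε u) (j : ℕ) :
    ContinuousOn (dneg (ε j) (aj j) (u j)) (ball 0 3) :=
  (ls_cont_disc h j).neg.sup continuousOn_const

lemma dneg_nonneg (ε : ℝ) (a u : ℂ → ℝ) (z : ℂ) : 0 ≤ dneg ε a u z := le_max_right _ _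

lemma dneg_le (h : LocSeq a aj ε u) (j : ℕ) {z : ℂ} (hz : z ∈ ball (0 : ℂ) 3) :
    dneg (ε j) (aj j) (u j) z ≤ ed (ε j) (aj j) (u j) z :=
  max_le ((neg_le_abs _).trans (ls_abs_disc_le h j hz)) (ls_ed_nonneg h j hz)

/-- Integrals over the plane and over a compact set. -/
lemma integral_eq_setIntegral {f g : ℂ → ℝ} {K : Set ℂ} (hs : tsupport f ⊆ K) :
    ∫ z, f z * g z = ∫ z in K, g z • f z := by
  have h1 : ∫ z in K, g z • f z = ∫ z in K, f z * g z := by
    congr 1; ext z; rw [smul_eq_mul, mul_comm]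
  rw [h1]
  refine (setIntegral_eq_integral_of_forall_compl_eq_zero fun z hz => ?_).symm
  rw [image_eq_zero_of_notMem_tsupport fun h => hz (hs h), zero_mul]

/-- The negative part of the discrepancy tends to zero. -/
theorem disc_neg_tendsto (hM : MonoD) (hD : DensR) (h : LocSeq a aj ε u) {μ : Measure ℂ}
    (he : EConv aj ε u μ) (hf : IsFiniteMeasure μ) {R : ℝ} (hR : R < 2) :
    Tendsto (fun j => ∫ z in closedBall (0 : ℂ) R, dneg (ε j) (aj j) (u j) z) atTop (𝓝 0) := by
  obtain ⟨E, hE0, hE⟩ := ls_energy_le h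
  obtain ⟨R1, hR1, hR12⟩ := exists_between hR
  obtain ⟨R2, hR2, hR22⟩ := exists_between hR12
  have hKc : IsCompact (closedBall (0 : ℂ) R2) := isCompact_closedBall _ _
  have hK2 : closedBall (0 : ℂ) R2 ⊆ closedBall 0 2 := closedBall_subset_closedBall hR22.le
  have hK3 : closedBall (0 : ℂ) R2 ⊆ ball 0 3 := closedBall_subset_ball (by linarith)
  obtain ⟨C, r0, hr0, -, hC⟩ := hM a aj ε u h R1 hR12
  obtain ⟨c, K, r0', hc, hr0', -, hlow⟩ := hD a aj ε u μ h he hf R1 hR12
  refine tendsto_of_subseq_tendsto fun ns hns => ?_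
  -- extract a limit of the measures
  have hfin : ∀ k, IsFiniteMeasure (dm (dneg (ε (ns k)) (aj (ns k)) (u (ns k))) (closedBall 0 R2)) :=
    fun k => finite_dm (cont_dneg h _) hKc hK2
  have hmass : ∀ k, (dm (dneg (ε (ns k)) (aj (ns k)) (u (ns k))) (closedBall 0 R2)).real univ ≤ E := by
    intro k
    rw [real_univ_dm (cont_dneg h _) hKc hK2 fun z _ => dneg_nonneg _ _ _ _]
    refine le_trans ?_ (hE (ns k) _ hK2)
    exact setIntegral_mono_on (integrableOn_two (cont_dneg h _) hK2) (ls_ed_int h _ hK2)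
      measurableSet_closedBall fun z hz => dneg_le h _ (hK3 hz)
  obtain ⟨ms, hms, ν, hν, hνK, hlim⟩ := exists_subseq hKc
    (fun k => dm (dneg (ε (ns k)) (aj (ns k)) (u (ns k))) (closedBall 0 R2)) hfin hmass
    (fun k => dm_compl hKc)
  have hnm : Tendsto (fun k => ns (ms k)) atTop atTop := hns.comp hms.tendsto_atTop
  have hlim' : ∀ f : ℂ → ℝ, Continuous f → tsupport f ⊆ closedBall 0 R2 →
      Tendsto (fun k => ∫ z, f z * dneg (ε (ns (ms k))) (aj (ns (ms k))) (u (ns (ms k))) z) atTop
        (𝓝 (∫ z, f z ∂ν)) := by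
    intro f hfc hfs
    refine (hlim f hfc).congr fun k => ?_
    rw [integral_dm (cont_dneg h _) hKc hK2 (fun z _ => dneg_nonneg _ _ _ _),
      integral_eq_setIntegral hfs]
  have he' : ∀ f : ℂ → ℝ, Continuous f → HasCompactSupport f → tsupport f ⊆ ball 0 2 →
      Tendsto (fun k => ∫ z, f z * ed (ε (ns (ms k))) (aj (ns (ms k))) (u (ns (ms k))) z) atTop
        (𝓝 (∫ z, f z ∂μ)) := fun f h1 h2 h3 => (he f h1 h2 h3).comp hnm
  -- absolute continuity
  have hac : ν.restrict (ball 0 R2) ≪ μ := by
    refine ac_of_test isOpen_ball fun f hfc hfK hfs hf0 => ?_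
    have hfs2 : tsupport f ⊆ ball 0 2 := hfs.trans (ball_subset_ball hR22.le)
    refine le_of_tendsto_of_tendsto' (hlim' f hfc (hfs.trans ball_subset_closedBall))
      (he' f hfc hfK hfs2) fun k => ?_
    refine integral_mono (integrable_mul hfc hfs2 (cont_dneg h _))
      (integrable_mul hfc hfs2 (ls_cont_ed h _)) fun z => ?_
    simp only
    by_cases hz : z ∈ tsupport f
    · exact mul_le_mul_of_nonneg_left
        (dneg_le h _ (ball_subset_ball (by norm_num) (hfs2 hz))) (hf0 z)
    · rw [image_eq_zero_of_notMem_tsupport hz, zero_mul, zero_mul]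
  -- the dyadic inequality in the limit
  set r1 : ℝ := min r0 ((R2 - R1) / 2) with hr1
  have hr1p : 0 < r1 := lt_min hr0 (by linarith)
  have hdy : ∀ x ∈ closedBall (0 : ℂ) R1, ∀ s ∈ Ioo 0 r1, 1 / (2 * s) * ∫ z, cut x s z ∂ν ≤
      1 / (2 * s) * (∫ z, cut x (2 * s) z ∂μ) - 1 / s * (∫ z, cut x s z ∂μ) + C * s := by
    intro x hx s hs
    have hs0 : 0 < s := hs.1
    have hs1 : s < r0 := hs.2.trans_le (min_le_left _ _)
    have hs2 : s < (R2 - R1) / 2 := hs.2.trans_le (min_le_right _ _)
    rw [mem_closedBall, dist_zero_right] at hx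
    have hb1 : closedBall x s ⊆ closedBall 0 R2 :=
      closedBall_subset_closedBall' (by rw [dist_zero_right]; linarith)
    have hb2 : closedBall x (2 * s) ⊆ ball 0 2 := by
      refine closedBall_subset_ball' ?_
      rw [dist_zero_right]; linarith
    have hb3 : closedBall x s ⊆ ball 0 2 := hb1.trans (closedBall_subset_ball hR22)
    have l1 := (hlim' (cut x s) (continuous_cut _ _) ((tsupport_cut hs0).trans hb1)).const_mul (1 / (2 * s))
    have l2 := (he' (cut x (2 * s)) (continuous_cut _ _) (hasCompactSupport_cut (by linarith))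
      ((tsupport_cut (by linarith)).trans hb2)).const_mul (1 / (2 * s))
    have l3 := (he' (cut x s) (continuous_cut _ _) (hasCompactSupport_cut hs0)
      ((tsupport_cut hs0).trans hb3)).const_mul (1 / s)
    refine le_of_tendsto_of_tendsto' l1 ((l2.sub l3).add_const (C * s)) fun k => ?_
    exact hC (ns (ms k)) x (by rwa [mem_closedBall, dist_zero_right]) s ⟨hs0, hs1⟩
  -- the limit measure vanishes
  have hν0 : ν (closedBall 0 R1) = 0 := by
    have hac1 : ν.restrict (closedBall 0 R1) ≪ μ := by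
      refine Measure.AbsolutelyContinuous.trans ?_ hac
      exact (Measure.restrict_mono (closedBall_subset_ball hR2) le_rfl).absolutelyContinuous
    have hz := density_zero (μ := μ) (ν := ν.restrict (closedBall 0 R1)) hac1
      (Ω := closedBall 0 R1) measurableSet_closedBall ?_ ?_
    · rwa [Measure.restrict_apply measurableSet_closedBall, inter_self] at hz
    · filter_upwards [measure_eq_zero_iff_ae_notMem.mp (measure_offs μ)] with x hx hxR
      refine ⟨c, hc, ?_⟩
      have hev : ∀ᶠ r in 𝓝[>] (0 : ℝ), r < r0' :=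
        eventually_nhdsWithin_of_eventually_nhds (gt_mem_nhds hr0')
      filter_upwards [hev, self_mem_nhdsWithin] with r hr1 hr2
      have hr3 : (0 : ℝ) < r := hr2
      have h1 := hlow x hxR (mem_offs_iff.mp hx) r ⟨hr3, hr1⟩
      have h2 : ENNReal.ofReal (c * r) ≤ μ (closedBall x r) := h1.trans (measure_mono ball_subset_closedBall)
      rw [measureReal_def]
      exact (ENNReal.ofReal_le_iff_le_toReal (measure_ne_top _ _)).mp h2
    · refine Eventually.of_forall fun x hx => ?_
      refine squeeze_zero (fun i => by positivity) (fun i => ?_) (density_of_mono (μ := μ) (ν := ν) hr1p (hdy x hx))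
      have h0 : (0 : ℝ) < (1 / 2) ^ i := by positivity
      gcongr
      refine ENNReal.toReal_mono (measure_ne_top _ _) (Measure.restrict_apply_le _ _)
  -- conclusion
  refine ⟨ms, ?_⟩
  obtain ⟨f, hf1, hf2, hf3, hf4⟩ := exists_continuousMap_one_of_isCompact_subset_isOpen
    (isCompact_closedBall (0 : ℂ) R) (isOpen_ball (x := (0 : ℂ)) (ε := R1)) (closedBall_subset_ball hR1)
  have hfs2 : tsupport f ⊆ ball 0 2 := hf3.trans (ball_subset_ball hR12.le)
  have hl := hlim' f f.continuous (hf3.trans ((ball_subset_ball hR2.le).trans ball_subset_closedBall))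
  have hz : ∫ z, f z ∂ν = 0 := by
    refine integral_eq_zero_of_ae ?_
    filter_upwards [measure_eq_zero_iff_ae_notMem.mp hν0] with z hz
    exact image_eq_zero_of_notMem_tsupport fun hh => hz (ball_subset_closedBall (hf3 hh))
  rw [hz] at hl
  refine squeeze_zero (fun k => ?_) (fun k => ?_) hl
  · exact setIntegral_nonneg measurableSet_closedBall fun z _ => dneg_nonneg _ _ _ _
  · calc ∫ z in closedBall (0 : ℂ) R, dneg (ε (ns (ms k))) (aj (ns (ms k))) (u (ns (ms k))) z =
        ∫ z in closedBall (0 : ℂ) R, f z * dneg (ε (ns (ms k))) (aj (ns (ms k))) (u (ns (ms k))) z := by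
          refine setIntegral_congr_fun measurableSet_closedBall fun z hz => ?_
          rw [hf1 hz]; simp
      _ ≤ _ := by
          refine setIntegral_le_integral (integrable_mul f.continuous hfs2 (cont_dneg h _)) ?_
          exact Eventually.of_forall fun z => mul_nonneg (hf4 z).1 (dneg_nonneg _ _ _ _)

/-- The absolute value of the discrepancy tends to zero. -/
theorem abs_disc_tendsto (hM : MonoD) (hD : DensR) (h : LocSeq a aj ε u) {μ : Measure ℂ}
    (he : EConv aj ε u μ) (hf : IsFiniteMeasure μ) {R : ℝ} (hR : R < 2) :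
    Tendsto (fun j => ∫ z in closedBall (0 : ℂ) R, |disc (ε j) (aj j) (u j) z|) atTop (𝓝 0) := by
  have h1 := disc_neg_tendsto hM hD h he hf hR
  have h2 := disc_pos_tendsto h he hR (null_of_dens hD h he hf hR)
  have h3 := h2.add h1
  rw [add_zero] at h3
  refine h3.congr fun j => ?_
  have hsub : closedBall (0 : ℂ) R ⊆ closedBall 0 2 := closedBall_subset_closedBall hR.le
  rw [← integral_add]
  · refine setIntegral_congr_fun measurableSet_closedBall fun z _ => ?_
    simp only [dneg]
    rcases le_total (disc (ε j) (aj j) (u j) z) 0 with hz | hz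
    · rw [max_eq_right hz, max_eq_left (by linarith), abs_of_nonpos hz]; ring
    · rw [max_eq_left hz, max_eq_right (by linarith), abs_of_nonneg hz]; ring
  · exact integrableOn_two ((ls_cont_disc h j).sup continuousOn_const) hsub
  · exact integrableOn_two (cont_dneg h j) hsub

end Pool.Agent.Helper85.CL
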