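import Pool.Agent.Helper85.CL.Ident
import Pool.Agent.Helper85.CL.XiMinus
import Pool.Agent.Helper85.CL.AbsOne

/-!
PROJECT CL, block D5: passage to the limit in the weak identity.
-/

open Set MeasureTheory Filter Topology Metric

open scoped ContDiff Real

open Pool.Agent.Helper53.CL

namespace Pool.Agent.Helper85.CL

variable {a : ℂ → ℝ} {aj : ℕ → ℂ → ℝ} {ε : ℕ → ℝ} {u : ℕ → ℂ → ℝ}

lemma unif_a (h : LocSeq a aj ε u) :
    TendstoUniformlyOn (fun j z => (aj j z : ℂ)) (fun z => (a z : ℂ)) atTop (closedBall 0 2) := by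
  rw [Metric.tendstoUniformlyOn_iff]
  intro η hη
  filter_upwards [Metric.tendstoUniformlyOn_iff.mp (h.aj_lim 0) η hη] with j hj z hz
  have h1 := hj z hz
  rw [dist_eq_norm] at h1 ⊢
  refine lt_of_le_of_lt ?_ h1
  rw [← Complex.ofReal_sub, Complex.norm_real]
  have h2 := (iteratedFDeriv ℝ 0 a z - iteratedFDeriv ℝ 0 (aj j) z).le_opNorm (fun _ => (1 : ℂ))
  simpa using h2

lemma unif_fderiv (h : LocSeq a aj ε u) (v : ℂ) (hv : ‖v‖ ≤ 1) {η : ℝ} (hη : 0 < η) :
    ∀ᶠ j in atTop, ∀ z ∈ closedBall (0 : ℂ) 2, |fderiv ℝ a z v - fderiv ℝ (aj j) z v| < η := by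
  filter_upwards [Metric.tendstoUniformlyOn_iff.mp (h.aj_lim 1) η hη] with j hj z hz
  have h1 := hj z hz
  rw [dist_eq_norm] at h1
  refine lt_of_le_of_lt ?_ h1
  have h2 := (iteratedFDeriv ℝ 1 a z - iteratedFDeriv ℝ 1 (aj j) z).le_opNorm (fun _ => v)
  rw [sub_apply, iteratedFDeriv_one_apply, iteratedFDeriv_one_apply,
    Real.norm_eq_abs] at h2
  refine h2.trans ?_
  simp only [Finset.univ_unique, Fin.default_eq_zero, Fin.isValue, Finset.prod_const,
    Finset.card_singleton, pow_one]
  exact mul_le_of_le_one_right (norm_nonneg _) hv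

lemma unif_dza (h : LocSeq a aj ε u) :
    TendstoUniformlyOn (fun j => dz (fun z => (aj j z : ℂ))) (dz fun z => (a z : ℂ)) atTop
      (closedBall 0 2) := by
  rw [Metric.tendstoUniformlyOn_iff]
  intro η hη
  filter_upwards [unif_fderiv h 1 (by simp) hη, unif_fderiv h Complex.I (by simp) hη] with j h1 h2 z hz
  have hz3 : z ∈ ball (0 : ℂ) 3 := closedBall_subset_ball (by norm_num) hz
  have hd : ∀ {f : ℂ → ℝ}, ContDiffOn ℝ ∞ f (ball 0 3) → DifferentiableAt ℝ f z := fun hf =>
    (hf.contDiffAt (isOpen_ball.mem_nhds hz3)).differentiableAt (by simp)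
  rw [dist_eq_norm, dz_ofReal (hd h.a_smooth), dz_ofReal (hd (h.aj_smooth j))]
  have e1 : ((((dx a z : ℝ) : ℂ) - Complex.I * ((dy a z : ℝ) : ℂ)) / 2 -
      (((dx (aj j) z : ℝ) : ℂ) - Complex.I * ((dy (aj j) z : ℝ) : ℂ)) / 2) =
      (((dx a z - dx (aj j) z : ℝ) : ℂ) - Complex.I * ((dy a z - dy (aj j) z : ℝ) : ℂ)) / 2 := by
    push_cast; ring
  rw [e1, norm_div]
  have e2 : ‖(2 : ℂ)‖ = 2 := by simp
  rw [e2, div_lt_iff₀ (by norm_num)]
  calc ‖((dx a z - dx (aj j) z : ℝ) : ℂ) - Complex.I * ((dy a z - dy (aj j) z : ℝ) : ℂ)‖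
      ≤ ‖((dx a z - dx (aj j) z : ℝ) : ℂ)‖ + ‖Complex.I * ((dy a z - dy (aj j) z : ℝ) : ℂ)‖ :=
        norm_sub_le _ _
    _ = |dx a z - dx (aj j) z| + |dy a z - dy (aj j) z| := by
        rw [norm_mul, Complex.norm_I, one_mul, Complex.norm_real, Complex.norm_real,
          Real.norm_eq_abs, Real.norm_eq_abs]
    _ < η + η := add_lt_add (h1 z hz) (h2 z hz)
    _ = η * 2 := by ring

lemma cont_bb {a : ℂ → ℝ} (ha : ContDiffOn ℝ ∞ a (ball 0 3)) (hap : ∀ z ∈ ball (0 : ℂ) 3, 0 < a z) :
    ContinuousOn (bb a) (ball 0 3) := by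
  have hA := smooth_U ha
  unfold bb
  refine (smooth_dz isOpen_ball hA).continuousOn.div hA.continuousOn fun z hz => ?_
  exact_mod_cast (hap z hz).ne'

lemma unif_bb (h : LocSeq a aj ε u) :
    TendstoUniformlyOn (fun j => bb (aj j)) (bb a) atTop (closedBall 0 2) := by
  rw [← tendstoLocallyUniformlyOn_iff_tendstoUniformlyOn_of_compact (isCompact_closedBall _ _)]
  have hsub : closedBall (0 : ℂ) 2 ⊆ ball 0 3 := closedBall_subset_ball (by norm_num)
  have hA := smooth_U h.a_smooth
  have h1 := (unif_dza h).tendstoLocallyUniformlyOn.div₀ (unif_a h).tendstoLocallyUniformlyOn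
    ((smooth_dz isOpen_ball hA).continuousOn.mono hsub) (hA.continuousOn.mono hsub)
    (fun z hz => by exact_mod_cast (h.a_pos z (hsub hz)).ne')
  exact h1

/-- The discrepancy hypothesis in the form used below. -/
def DiscT (aj : ℕ → ℂ → ℝ) (ε : ℕ → ℝ) (u : ℕ → ℂ → ℝ) : Prop :=
  ∀ R < 2, Tendsto (fun j => ∫ z in closedBall (0 : ℂ) R, |disc (ε j) (aj j) (u j) z|) atTop (𝓝 0)

lemma exists_radius {f : ℂ → ℝ} (hs : tsupport f ⊆ ball 0 2) :
    ∃ R < 2, tsupport f ⊆ closedBall 0 R := by
  obtain ⟨R, hR, h⟩ := exists_lt_subset_ball (isClosed_tsupport f) hs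
  exact ⟨R, hR, h.trans ball_subset_closedBall⟩

lemma cont_disc' (h : LocSeq a aj ε u) (j : ℕ) :
    ContinuousOn (fun z => |disc (ε j) (aj j) (u j) z|) (ball 0 3) := (ls_cont_disc h j).norm

/-- Test functions against the absolute value of the discrepancy. -/
theorem disc_test (h : LocSeq a aj ε u) (hd : DiscT aj ε u) {f : ℂ → ℝ} (hf : Continuous f)
    (hc : HasCompactSupport f) (hs : tsupport f ⊆ ball 0 2) :
    Tendsto (fun j => ∫ z, f z * |disc (ε j) (aj j) (u j) z|) atTop (𝓝 0) := by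
  obtain ⟨R, hR, hsR⟩ := exists_radius hs
  obtain ⟨B, hB⟩ := hc.exists_bound_of_continuous hf
  have h1 := (hd R hR).const_mul B
  rw [mul_zero] at h1
  refine squeeze_zero_norm (fun j => ?_) h1
  have hsub : closedBall (0 : ℂ) R ⊆ closedBall 0 2 := closedBall_subset_closedBall hR.le
  rw [← integral_const_mul]
  have e1 : ∫ z, f z * |disc (ε j) (aj j) (u j) z| =
      ∫ z in closedBall (0 : ℂ) R, f z * |disc (ε j) (aj j) (u j) z| := by
    refine (setIntegral_eq_integral_of_forall_compl_eq_zero fun z hz => ?_).symm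
    rw [image_eq_zero_of_notMem_tsupport fun hh => hz (hsR hh), zero_mul]
  rw [e1]
  refine norm_integral_le_of_norm_le ((integrableOn_two (cont_disc' h j) hsub).const_mul B)
    (Eventually.of_forall fun z => ?_)
  rw [norm_mul, Real.norm_eq_abs |disc (ε j) (aj j) (u j) z|, abs_abs]
  exact mul_le_mul_of_nonneg_right (hB z) (abs_nonneg _)

lemma disc_test' (h : LocSeq a aj ε u) (hd : DiscT aj ε u) {f : ℂ → ℝ} (hf : Continuous f)
    (hc : HasCompactSupport f) (hs : tsupport f ⊆ ball 0 2) :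
    Tendsto (fun j => ∫ z, f z * disc (ε j) (aj j) (u j) z) atTop (𝓝 0) := by
  have hs' : tsupport (fun z => |f z|) ⊆ tsupport f := by
    refine closure_mono fun z hz => ?_
    intro h0
    exact hz (by simp [h0])
  have h1 := disc_test h hd (f := fun z => |f z|) hf.abs
    (hc.of_isClosed_subset (isClosed_tsupport _) hs') (hs'.trans hs)
  refine squeeze_zero_norm (fun j => ?_) h1
  refine norm_integral_le_of_norm_le ?_ (Eventually.of_forall fun z => ?_)
  · exact integrable_mul hf.abs (hs'.trans hs) (cont_disc' h j)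
  · rw [norm_mul, Real.norm_eq_abs, Real.norm_eq_abs]

/-- Convergence of twice the potential part. -/
lemma PP_test (h : LocSeq a aj ε u) (hd : DiscT aj ε u) {μ : Measure ℂ} (he : EConv aj ε u μ)
    {f : ℂ → ℝ} (hf : Continuous f) (hc : HasCompactSupport f) (hs : tsupport f ⊆ ball 0 2) :
    Tendsto (fun j => ∫ z, f z * PP (ε j) (aj j) (u j) z) atTop (𝓝 (∫ z, f z ∂μ)) := by
  have h1 := (he f hf hc hs).sub (disc_test' h hd hf hc hs)
  rw [sub_zero] at h1
  refine h1.congr fun j => ?_
  rw [← integral_sub (integrable_mul hf hs (ls_cont_ed h j)) (integrable_mul hf hs (ls_cont_disc h j))]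
  congr 1; ext z; rw [PP_eq]; ring

/-- Convergence of twice the kinetic part. -/
lemma KK_test (h : LocSeq a aj ε u) (hd : DiscT aj ε u) {μ : Measure ℂ} (he : EConv aj ε u μ)
    {f : ℂ → ℝ} (hf : Continuous f) (hc : HasCompactSupport f) (hs : tsupport f ⊆ ball 0 2) :
    Tendsto (fun j => ∫ z, f z * ‖MM (ε j) (u j) z‖) atTop (𝓝 (∫ z, f z ∂μ)) := by
  have h1 := (he f hf hc hs).add (disc_test' h hd hf hc hs)
  rw [add_zero] at h1
  refine h1.congr fun j => ?_
  rw [← integral_add (integrable_mul hf hs (ls_cont_ed h j)) (integrable_mul hf hs (ls_cont_disc h j))]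
  refine integral_congr_ae (Eventually.of_forall fun z => ?_)
  simp only
  by_cases hz : z ∈ tsupport f
  · have hz3 : z ∈ ball (0 : ℂ) 3 := ball_subset_ball (by norm_num) (hs hz)
    rw [norm_MM_eq (h.eps_pos j) (aj j)
      (((h.sol j).smooth.contDiffAt (isOpen_ball.mem_nhds hz3)).differentiableAt (by simp))]
    ring
  · rw [image_eq_zero_of_notMem_tsupport hz]; ring

section cplx

lemma tsupport_re {f : ℂ → ℂ} : tsupport (fun z => (f z).re) ⊆ tsupport f :=
  closure_mono fun z hz h0 => hz (by simp [h0])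

lemma tsupport_im {f : ℂ → ℂ} : tsupport (fun z => (f z).im) ⊆ tsupport f :=
  closure_mono fun z hz h0 => hz (by simp [h0])

lemma tsupport_ofReal {k : ℂ → ℝ} : tsupport (fun z => (k z : ℂ)) ⊆ tsupport k :=
  closure_mono fun z hz h0 => hz (by simp [h0])

/-- Convergence against complex test functions. -/
lemma cplx_test {g : ℕ → ℂ → ℂ} {μ : Measure ℂ} [IsFiniteMeasure μ] {m : ℂ → ℂ} (hm : Measurable m)
    (hm1 : ∀ z, ‖m z‖ ≤ 1) (hg : ∀ j, ContinuousOn (g j) (ball 0 3))
    (H : ∀ f : ℂ → ℝ, Continuous f → HasCompactSupport f → tsupport f ⊆ ball 0 2 →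
      Tendsto (fun j => ∫ z, g j z * (f z : ℂ)) atTop (𝓝 (∫ z, m z * (f z : ℂ) ∂μ)))
    {f : ℂ → ℂ} (hf : Continuous f) (hc : HasCompactSupport f) (hs : tsupport f ⊆ ball 0 2) :
    Tendsto (fun j => ∫ z, g j z * f z) atTop (𝓝 (∫ z, m z * f z ∂μ)) := by
  have hr : Continuous fun z => (f z).re := Complex.continuous_re.comp hf
  have hi : Continuous fun z => (f z).im := Complex.continuous_im.comp hf
  have hrc : HasCompactSupport fun z => (f z).re :=
    hc.of_isClosed_subset (isClosed_tsupport _) tsupport_re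
  have hic : HasCompactSupport fun z => (f z).im :=
    hc.of_isClosed_subset (isClosed_tsupport _) tsupport_im
  have h1 := (H _ hr hrc (tsupport_re.trans hs)).add
    ((H _ hi hic (tsupport_im.trans hs)).mul_const Complex.I)
  have eμ : ∫ z, m z * f z ∂μ = ∫ z, m z * ((f z).re : ℂ) ∂μ + (∫ z, m z * ((f z).im : ℂ) ∂μ) * Complex.I := by
    have i1 : Integrable (fun z => m z * ((f z).re : ℂ)) μ := by
      have : Integrable (fun z => ((f z).re : ℂ)) μ := (hr.integrable_of_hasCompactSupport hrc).ofReal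
      refine this.norm.mono' (hm.aestronglyMeasurable.mul this.aestronglyMeasurable)
        (Eventually.of_forall fun z => ?_)
      rw [norm_mul]
      exact mul_le_of_le_one_left (norm_nonneg _) (hm1 z)
    have i2 : Integrable (fun z => m z * ((f z).im : ℂ)) μ := by
      have : Integrable (fun z => ((f z).im : ℂ)) μ := (hi.integrable_of_hasCompactSupport hic).ofReal
      refine this.norm.mono' (hm.aestronglyMeasurable.mul this.aestronglyMeasurable)
        (Eventually.of_forall fun z => ?_)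
      rw [norm_mul]
      exact mul_le_of_le_one_left (norm_nonneg _) (hm1 z)
    rw [← integral_mul_const, ← integral_add i1 (i2.mul_const _)]
    congr 1; ext z
    conv_lhs => rw [← Complex.re_add_im (f z)]
    ring
  rw [eμ]
  refine h1.congr fun j => ?_
  have i1 : Integrable (fun z => g j z * ((f z).re : ℂ)) :=
    integrable_mulC (Complex.continuous_ofReal.comp hr) ((tsupport_ofReal.trans tsupport_re).trans hs) (hg j)
  have i2 : Integrable (fun z => g j z * ((f z).im : ℂ)) :=
    integrable_mulC (Complex.continuous_ofReal.comp hi) ((tsupport_ofReal.trans tsupport_im).trans hs) (hg j)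
  rw [← integral_mul_const, ← integral_add i1 (i2.mul_const _)]
  congr 1; ext z
  conv_rhs => rw [← Complex.re_add_im (f z)]
  ring

end cplx

/-- The weak identity in the limit. -/
theorem weakId_limit (h : LocSeq a aj ε u) (hd : DiscT aj ε u) {μ : Measure ℂ} [IsFiniteMeasure μ]
    (he : EConv aj ε u μ) {m : ℂ → ℂ} (hm : Measurable m) (hm1 : ∀ z, ‖m z‖ ≤ 1)
    (H : ∀ f : ℂ → ℝ, Continuous f → HasCompactSupport f → tsupport f ⊆ ball 0 2 →
      Tendsto (fun j => ∫ z, MM (ε j) (u j) z * (f z : ℂ)) atTop (𝓝 (∫ z, m z * (f z : ℂ) ∂μ))) :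
    WeakId (ball 0 2) μ m (bb a) := by
  intro ψ hψ hc hs
  have hsub : closedBall (0 : ℂ) 2 ⊆ ball 0 3 := closedBall_subset_ball (by norm_num)
  -- left side
  have hdzb : Continuous (dzb ψ) := continuous_dzb hψ
  have hL := cplx_test (g := fun j => MM (ε j) (u j)) hm hm1
    (fun j => (smooth_MM isOpen_ball (h.sol j).smooth).continuousOn) H hdzb
    (hc.of_isClosed_subset (isClosed_tsupport _) (tsupport_dzb_subset ψ)) ((tsupport_dzb_subset ψ).trans hs)
  -- right side, main part
  have hPc : ∀ j, ContinuousOn (fun z => (PP (ε j) (aj j) (u j) z : ℂ)) (ball 0 3) := by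
    intro j
    have h1 : ContinuousOn (fun z => PP (ε j) (aj j) (u j) z) (ball 0 3) := by
      have : (fun z => PP (ε j) (aj j) (u j) z) = fun z => ed (ε j) (aj j) (u j) z -
          disc (ε j) (aj j) (u j) z := funext fun z => PP_eq _ _ _ _
      rw [this]
      exact (ls_cont_ed h j).sub (ls_cont_disc h j)
    exact Complex.continuous_ofReal.comp_continuousOn h1
  have HP : ∀ f : ℂ → ℝ, Continuous f → HasCompactSupport f → tsupport f ⊆ ball 0 2 →
      Tendsto (fun j => ∫ z, (PP (ε j) (aj j) (u j) z : ℂ) * (f z : ℂ)) atTop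
        (𝓝 (∫ z, (1 : ℂ) * (f z : ℂ) ∂μ)) := by
    intro f hf hfc hfs
    have h1 := (Complex.continuous_ofReal.continuousAt.tendsto.comp (PP_test h hd he hf hfc hfs))
    have e1 : ∫ z, (1 : ℂ) * (f z : ℂ) ∂μ = ((∫ z, f z ∂μ : ℝ) : ℂ) := by
      rw [← integral_complex_ofReal]; simp
    rw [e1]
    refine h1.congr fun j => ?_
    simp only [Function.comp_apply]
    rw [← integral_complex_ofReal]
    congr 1; ext z; push_cast; ring
  have hbc : ContinuousOn (bb a) (ball 0 3) := cont_bb h.a_smooth h.a_pos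
  -- the limit test function
  have hgc : Continuous fun z => ψ z * bb a z := by
    rw [continuous_iff_continuousAt]
    intro z
    by_cases hz : z ∈ tsupport ψ
    · have hz3 : z ∈ ball (0 : ℂ) 3 := ball_subset_ball (by norm_num) (hs hz)
      exact hψ.continuous.continuousAt.mul (hbc.continuousAt (isOpen_ball.mem_nhds hz3))
    · have : (fun z => ψ z * bb a z) =ᶠ[𝓝 z] fun _ => 0 := by
        filter_upwards [(isClosed_tsupport ψ).isOpen_compl.mem_nhds hz] with y hy
        rw [image_eq_zero_of_notMem_tsupport hy, zero_mul]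
      exact (continuousAt_const (y := (0 : ℂ))).congr this.symm
  have hgs : tsupport (fun z => ψ z * bb a z) ⊆ tsupport ψ :=
    closure_mono fun z hz h0 => hz (by simp [h0])
  have hg2 : Continuous fun z => dz ψ z + ψ z * bb a z := (continuous_dz' hψ).add hgc
  have hg2s : tsupport (fun z => dz ψ z + ψ z * bb a z) ⊆ tsupport ψ := by
    refine closure_minimal (fun z hz => ?_) (isClosed_tsupport _)
    by_contra hcon
    apply hz
    simp only
    rw [image_eq_zero_of_notMem_tsupport fun hh => hcon (tsupport_dz_subset ψ hh),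
      image_eq_zero_of_notMem_tsupport hcon]
    ring
  have hR := cplx_test (g := fun j z => (PP (ε j) (aj j) (u j) z : ℂ)) (m := fun _ => 1)
    measurable_const (by simp) hPc HP hg2 (hc.of_isClosed_subset (isClosed_tsupport _) hg2s)
    (hg2s.trans hs)
  -- error term
  obtain ⟨E, hE0, hE⟩ := ls_energy_le h
  obtain ⟨B, hB⟩ := hc.exists_bound_of_continuous hψ.continuous
  have hB0 : 0 ≤ B := (norm_nonneg _).trans (hB 0)
  have herr : Tendsto (fun j => ∫ z, (PP (ε j) (aj j) (u j) z : ℂ) * (ψ z * (bb (aj j) z - bb a z)))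
      atTop (𝓝 0) := by
    rw [Metric.tendsto_atTop]
    intro η hη
    obtain ⟨N, hN⟩ := eventually_atTop.mp (Metric.tendstoUniformlyOn_iff.mp (unif_bb h)
      (η / (2 * B * E + 1)) (by positivity))
    refine ⟨N, fun j hj => ?_⟩
    rw [dist_zero_right]
    have hκ := hN j hj
    set κ := η / (2 * B * E + 1) with hκdef
    have hκ0 : 0 < κ := by positivity
    have e1 : ∫ z, (PP (ε j) (aj j) (u j) z : ℂ) * (ψ z * (bb (aj j) z - bb a z)) =
        ∫ z in closedBall (0 : ℂ) 2, (PP (ε j) (aj j) (u j) z : ℂ) * (ψ z * (bb (aj j) z - bb a z)) := by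
      refine (setIntegral_eq_integral_of_forall_compl_eq_zero fun z hz => ?_).symm
      rw [image_eq_zero_of_notMem_tsupport fun hh => hz (ball_subset_closedBall (hs hh))]
      ring
    rw [e1]
    have e2 : ‖∫ z in closedBall (0 : ℂ) 2, (PP (ε j) (aj j) (u j) z : ℂ) *
        (ψ z * (bb (aj j) z - bb a z))‖ ≤
        ∫ z in closedBall (0 : ℂ) 2, (2 * B * κ) * ed (ε j) (aj j) (u j) z := by
      refine norm_integral_le_of_norm_le ((ls_ed_int h j le_rfl).const_mul _) ?_
      refine (ae_restrict_iff' measurableSet_closedBall).mpr (Eventually.of_forall fun z hz => ?_)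
      have hz3 := hsub hz
      have hen := ls_ed_nonneg h j hz3
      have h1 : |PP (ε j) (aj j) (u j) z| ≤ 2 * ed (ε j) (aj j) (u j) z := by
        rw [PP_eq]
        calc |ed (ε j) (aj j) (u j) z - disc (ε j) (aj j) (u j) z| ≤
            |ed (ε j) (aj j) (u j) z| + |disc (ε j) (aj j) (u j) z| := abs_sub _ _
          _ ≤ _ := by
            rw [abs_of_nonneg hen]
            linarith [ls_abs_disc_le h j hz3]
      have h2 : ‖bb (aj j) z - bb a z‖ ≤ κ := by
        rw [← dist_eq_norm, dist_comm]; exact (hκ z hz).le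
      rw [norm_mul, norm_mul, Complex.norm_real, Real.norm_eq_abs]
      calc |PP (ε j) (aj j) (u j) z| * (‖ψ z‖ * ‖bb (aj j) z - bb a z‖) ≤
          (2 * ed (ε j) (aj j) (u j) z) * (B * κ) := by
            refine mul_le_mul h1 (mul_le_mul (hB z) h2 (norm_nonneg _) hB0) (by positivity)
              (by positivity)
        _ = _ := by ring
    rw [integral_const_mul] at e2
    refine lt_of_le_of_lt e2 ?_
    calc 2 * B * κ * ∫ z in closedBall (0 : ℂ) 2, ed (ε j) (aj j) (u j) z ≤ 2 * B * κ * E := by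
          gcongr
          exact hE j _ le_rfl
      _ = 2 * B * E * κ := by ring
      _ < (2 * B * E + 1) * κ := by nlinarith
      _ = η := by rw [hκdef]; field_simp
  have hR2 := hR.add herr
  rw [add_zero] at hR2
  have hRj : ∀ j, (∫ z, (PP (ε j) (aj j) (u j) z : ℂ) * (dz ψ z + ψ z * bb a z)) +
      ∫ z, (PP (ε j) (aj j) (u j) z : ℂ) * (ψ z * (bb (aj j) z - bb a z)) =
      ∫ z, MM (ε j) (u j) z * dzb ψ z := by
    intro j
    rw [weak_sol (h.sol j) (h.eps_pos j) (h.aj_smooth j) (h.aj_pos j) hψ hs]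
    have i1 : Integrable fun z => (PP (ε j) (aj j) (u j) z : ℂ) * (dz ψ z + ψ z * bb a z) :=
      integrable_mulC hg2 (hg2s.trans hs) (hPc j)
    have i2 : Integrable fun z => (PP (ε j) (aj j) (u j) z : ℂ) * (ψ z * (bb (aj j) z - bb a z)) := by
      have := integrable_mulC hψ.continuous hs
        ((hPc j).mul ((cont_bb (h.aj_smooth j) (h.aj_pos j)).sub hbc))
      refine this.congr (Eventually.of_forall fun z => ?_)
      simp only [Pi.mul_apply, Pi.sub_apply]
      ring
    rw [← integral_add i1 i2]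
    congr 1; ext z; ring
  have hfin := tendsto_nhds_unique hL (hR2.congr hRj)
  rw [hfin]
  have i3 : Integrable (dz ψ) μ :=
    (continuous_dz' hψ).integrable_of_hasCompactSupport
      (hc.of_isClosed_subset (isClosed_tsupport _) (tsupport_dz_subset ψ))
  have i4 : Integrable (fun z => ψ z * bb a z) μ :=
    hgc.integrable_of_hasCompactSupport (hc.of_isClosed_subset (isClosed_tsupport _) hgs)
  rw [← integral_add i3 i4]
  congr 1; ext z; ring

end Pool.Agent.Helper85.CL
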