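import Mathlib

/-!
PROJECT CL, block D4: a measure of density zero with respect to a measure with linear lower
density vanishes; dyadic form of the monotonicity argument.
-/

open Set MeasureTheory Filter Topology Metric

namespace Pool.Agent.Helper85.CL

/-- If `ν ≪ μ`, `μ` has positive lower linear density and the linear density of `ν` along the
radii `(1/2)^i` is zero, then `ν` vanishes. -/
theorem density_zero {μ ν : Measure ℂ} [IsFiniteMeasure μ] [IsFiniteMeasure ν] (hac : ν ≪ μ)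
    {Ω : Set ℂ} (hΩ : MeasurableSet Ω)
    (hlow : ∀ᵐ x ∂μ, x ∈ Ω → ∃ c : ℝ, 0 < c ∧ ∀ᶠ r in 𝓝[>] (0 : ℝ), c * r ≤ μ.real (closedBall x r))
    (hd : ∀ᵐ x ∂μ, x ∈ Ω → Tendsto (fun i : ℕ => ν.real (closedBall x ((1 / 2) ^ i)) / (1 / 2) ^ i)
      atTop (𝓝 0)) : ν Ω = 0 := by
  have hzero : ∀ᵐ x ∂μ, x ∈ Ω → ν.rnDeriv μ x = 0 := by
    filter_upwards [hlow, hd, Besicovitch.ae_tendsto_rnDeriv ν μ] with x h1 h2 h3 hx
    obtain ⟨c, hc, hc'⟩ := h1 hx
    have h4 := h2 hx
    have hp : Tendsto (fun i : ℕ => ((1 / 2 : ℝ)) ^ i) atTop (𝓝[>] 0) := by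
      refine tendsto_nhdsWithin_iff.mpr ⟨tendsto_pow_atTop_nhds_zero_of_lt_one (by norm_num)
        (by norm_num), Eventually.of_forall fun i => ?_⟩
      exact pow_pos (by norm_num : (0 : ℝ) < 1 / 2) i
    have h5 := h3.comp hp
    have h6 : Tendsto (fun i : ℕ => ν (closedBall x ((1 / 2) ^ i)) / μ (closedBall x ((1 / 2) ^ i)))
        atTop (𝓝 0) := by
      have h7 : Tendsto (fun i : ℕ => ENNReal.ofReal
          (ν.real (closedBall x ((1 / 2) ^ i)) / (1 / 2) ^ i * c⁻¹)) atTop (𝓝 0) := by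
        have := ENNReal.tendsto_ofReal (h4.mul_const c⁻¹)
        rwa [zero_mul, ENNReal.ofReal_zero] at this
      refine tendsto_of_tendsto_of_tendsto_of_le_of_le' tendsto_const_nhds h7
        (Eventually.of_forall fun i => bot_le) ?_
      filter_upwards [hp.eventually hc'] with i hi
      have hi0 : (0 : ℝ) < (1 / 2) ^ i := pow_pos (by norm_num) i
      have h8 : 0 < μ.real (closedBall x ((1 / 2) ^ i)) := lt_of_lt_of_le (mul_pos hc hi0) hi
      rw [← ofReal_measureReal (μ := ν), ← ofReal_measureReal (μ := μ), ← ENNReal.ofReal_div_of_pos h8]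
      refine ENNReal.ofReal_le_ofReal ?_
      calc ν.real (closedBall x ((1 / 2) ^ i)) / μ.real (closedBall x ((1 / 2) ^ i))
          ≤ ν.real (closedBall x ((1 / 2) ^ i)) / (c * (1 / 2) ^ i) := by gcongr
        _ = _ := by rw [mul_comm c, ← div_div]; rfl
    exact tendsto_nhds_unique h5 h6
  have h1 : ν = μ.withDensity (ν.rnDeriv μ) := (Measure.withDensity_rnDeriv_eq ν μ hac).symm
  rw [h1, withDensity_apply _ hΩ]
  rw [setLIntegral_congr_fun_ae (g := fun _ => 0) hΩ hzero]
  simp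

/-- Dyadic telescoping. -/
theorem dyadic_tendsto_zero {J t : ℕ → ℝ} {C : ℝ} (hJ : ∀ i, 0 ≤ J i) (ht : ∀ i, 0 ≤ t i)
    (h : ∀ i, t i ≤ J i - J (i + 1) + C * (1 / 2) ^ i) : Tendsto t atTop (𝓝 0) := by
  have hs : Summable t := by
    refine summable_of_sum_range_le (c := J 0 + |C| * 2) ht fun n => ?_
    calc ∑ i ∈ Finset.range n, t i ≤ ∑ i ∈ Finset.range n, (J i - J (i + 1) + C * (1 / 2) ^ i) :=
          Finset.sum_le_sum fun i _ => h i
      _ = (J 0 - J n) + C * ∑ i ∈ Finset.range n, ((1 / 2 : ℝ)) ^ i := by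
          rw [Finset.sum_add_distrib, Finset.sum_range_sub', ← Finset.mul_sum]
      _ ≤ J 0 + |C| * 2 := by
          have h1 : ∑ i ∈ Finset.range n, ((1 / 2 : ℝ)) ^ i ≤ 2 := by
            have := Summable.sum_le_tsum (Finset.range n)
              (fun i _ => pow_nonneg (by norm_num : (0 : ℝ) ≤ 1 / 2) i)
              (summable_geometric_of_lt_one (by norm_num) (by norm_num : (1 / 2 : ℝ) < 1))
            rwa [tsum_geometric_two] at this
          have h2 : 0 ≤ ∑ i ∈ Finset.range n, ((1 / 2 : ℝ)) ^ i :=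
            Finset.sum_nonneg fun i _ => pow_nonneg (by norm_num) i
          have h3 : C * ∑ i ∈ Finset.range n, ((1 / 2 : ℝ)) ^ i ≤ |C| * 2 :=
            mul_le_mul (le_abs_self C) h1 h2 (abs_nonneg C)
          have := hJ n
          linarith
  exact hs.tendsto_atTop_zero

end Pool.Agent.Helper85.CL
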