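import Pool.Agent.Helper85.CL.XiPlus
import Pool.Agent.Helper85.CL.DensityZero
import Pool.Agent.Helper85.CL.Compact

/-!
PROJECT CL, block D: measures with a continuous density on a compact set, the cutoff function,
comparison of limit measures.
-/

open Set MeasureTheory Filter Topology Metric

open scoped ContDiff Real ENNReal

open Pool.Agent.Helper53.CL

namespace Pool.Agent.Helper85.CL

noncomputable section

/-- The measure `g dx` on `K`. -/
def dm (g : ℂ → ℝ) (K : Set ℂ) : Measure ℂ :=
  (volume.restrict K).withDensity fun z => ENNReal.ofReal (g z)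

section dm

variable {g : ℂ → ℝ} {K : Set ℂ} (hg : ContinuousOn g (ball 0 3)) (hK : IsCompact K)
  (hK2 : K ⊆ closedBall 0 2) (hg0 : ∀ z ∈ ball (0 : ℂ) 3, 0 ≤ g z)

include hg hK hK2

lemma aem_dm : AEMeasurable (fun z => ENNReal.ofReal (g z)) (volume.restrict K) := by
  have h1 : AEMeasurable g (volume.restrict K) :=
    (hg.mono (hK2.trans (closedBall_subset_ball (by norm_num)))).aemeasurable hK.measurableSet
  exact h1.ennreal_ofReal

lemma finite_dm : IsFiniteMeasure (dm g K) := by
  refine isFiniteMeasure_withDensity ?_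
  have h1 : IntegrableOn g K := integrableOn_two hg hK2
  exact (Integrable.lintegral_lt_top h1).ne

omit hg hK2 in
lemma dm_compl : dm g K Kᶜ = 0 := by
  have h1 : dm g K ≪ volume.restrict K := withDensity_absolutelyContinuous _ _
  refine h1 ?_
  rw [Measure.restrict_apply hK.measurableSet.compl, compl_inter_self, measure_empty]

include hg0

lemma integral_dm {F : Type*} [NormedAddCommGroup F] [NormedSpace ℝ F] (f : ℂ → F) :
    ∫ z, f z ∂(dm g K) = ∫ z in K, g z • f z := by
  rw [dm, integral_withDensity_eq_integral_toReal_smul₀ (aem_dm hg hK hK2)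
    (Eventually.of_forall fun _ => ENNReal.ofReal_lt_top)]
  refine setIntegral_congr_fun hK.measurableSet fun z hz => ?_
  rw [ENNReal.toReal_ofReal (hg0 z (closedBall_subset_ball (by norm_num) (hK2 hz)))]

lemma real_univ_dm : (dm g K).real univ = ∫ z in K, g z := by
  have h1 := integral_dm hg hK hK2 hg0 (fun _ => (1 : ℝ))
  have := finite_dm hg hK hK2
  rw [integral_const, smul_eq_mul, mul_one] at h1
  rw [h1]
  simp

end dm

section cut

lemma continuous_cut (x : ℂ) (r : ℝ) : Continuous (cut x r) := by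
  unfold cut
  fun_prop

lemma cut_nonneg (x : ℂ) (r : ℝ) (z : ℂ) : 0 ≤ cut x r z := by
  unfold cut; positivity

lemma cut_le_one (x : ℂ) (r : ℝ) (z : ℂ) : cut x r z ≤ 1 := by
  unfold cut
  have h1 : max (1 - ‖z - x‖ ^ 2 / r ^ 2) 0 ≤ 1 := by
    refine max_le ?_ zero_le_one
    have : 0 ≤ ‖z - x‖ ^ 2 / r ^ 2 := by positivity
    linarith
  have h2 : 0 ≤ max (1 - ‖z - x‖ ^ 2 / r ^ 2) 0 := le_max_right _ _
  nlinarith

lemma cut_eq_zero {x : ℂ} {r : ℝ} (hr : 0 < r) {z : ℂ} (hz : r ≤ ‖z - x‖) : cut x r z = 0 := by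
  unfold cut
  have h1 : 1 ≤ ‖z - x‖ ^ 2 / r ^ 2 := by
    rw [one_le_div (by positivity)]
    gcongr
  rw [max_eq_right (by linarith)]
  norm_num

lemma tsupport_cut {x : ℂ} {r : ℝ} (hr : 0 < r) : tsupport (cut x r) ⊆ closedBall x r := by
  refine closure_minimal ?_ isClosed_closedBall
  intro z hz
  by_contra h
  rw [mem_closedBall, not_le, dist_eq_norm] at h
  exact hz (cut_eq_zero hr h.le)

lemma hasCompactSupport_cut {x : ℂ} {r : ℝ} (hr : 0 < r) : HasCompactSupport (cut x r) :=
  (isCompact_closedBall x r).of_isClosed_subset (isClosed_tsupport _) (tsupport_cut hr)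

lemma cut_ge {x : ℂ} {r : ℝ} (hr : 0 < r) {z : ℂ} (hz : ‖z - x‖ ≤ r / 2) : 9 / 16 ≤ cut x r z := by
  unfold cut
  have h1 : ‖z - x‖ ^ 2 / r ^ 2 ≤ 1 / 4 := by
    rw [div_le_div_iff₀ (by positivity) (by norm_num)]
    nlinarith [norm_nonneg (z - x)]
  have h2 : 3 / 4 ≤ max (1 - ‖z - x‖ ^ 2 / r ^ 2) 0 := le_trans (by linarith) (le_max_left _ _)
  nlinarith

end cut

section compare

/-- Comparison of measures from test functions. -/
lemma ac_of_test {μ ν : Measure ℂ} [IsFiniteMeasure μ] [IsFiniteMeasure ν] {Ω : Set ℂ}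
    (hΩ : IsOpen Ω) (h : ∀ f : ℂ → ℝ, Continuous f → HasCompactSupport f → tsupport f ⊆ Ω →
      (∀ z, 0 ≤ f z) → ∫ z, f z ∂ν ≤ ∫ z, f z ∂μ) : ν.restrict Ω ≪ μ := by
  intro A hA
  -- reduce to compact subsets
  obtain ⟨B, hAB, hBm, hB0⟩ := exists_measurable_superset_of_null hA
  refine measure_mono_null hAB ?_
  rw [Measure.restrict_apply hBm]
  have hm : MeasurableSet (B ∩ Ω) := hBm.inter hΩ.measurableSet
  rw [hm.measure_eq_iSup_isCompact]
  simp only [ENNReal.iSup_eq_zero]
  intro K hKB hK
  have hK0 : μ K = 0 := measure_mono_null (hKB.trans inter_subset_left) hB0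
  refine le_antisymm (ENNReal.le_of_forall_pos_le_add fun η hη _ => ?_) bot_le
  rw [zero_add]
  obtain ⟨U, hKU, hUo, hUv⟩ := Set.exists_isOpen_lt_of_lt K (η : ℝ≥0∞) (by rw [hK0]; exact_mod_cast hη)
  obtain ⟨f, hf1, hf2, hf3, hf4⟩ := exists_continuousMap_one_of_isCompact_subset_isOpen hK
    (hUo.inter hΩ) (subset_inter hKU (hKB.trans inter_subset_right))
  have h1 := h f f.continuous hf2 (hf3.trans inter_subset_right) fun z => (hf4 z).1
  have hfi : ∀ (κ : Measure ℂ) [IsFiniteMeasure κ], Integrable f κ := fun κ _ =>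
    f.continuous.integrable_of_hasCompactSupport hf2
  have h2 : ν.real K ≤ ∫ z, f z ∂ν := by
    calc ν.real K = ∫ z, K.indicator (fun _ => (1 : ℝ)) z ∂ν := by
          rw [integral_indicator hK.measurableSet, setIntegral_const, smul_eq_mul, mul_one]
      _ ≤ ∫ z, f z ∂ν := by
          refine integral_mono ((integrable_const _).indicator hK.measurableSet) (hfi ν) fun z => ?_
          simp only
          by_cases hz : z ∈ K
          · rw [indicator_of_mem hz, hf1 hz]; simp
          · rw [indicator_of_notMem hz]; exact (hf4 z).1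
  have h3 : ∫ z, f z ∂μ ≤ μ.real U := by
    calc ∫ z, f z ∂μ ≤ ∫ z, U.indicator (fun _ => (1 : ℝ)) z ∂μ := by
          refine integral_mono (hfi μ) ((integrable_const _).indicator hUo.measurableSet) fun z => ?_
          simp only
          by_cases hz : z ∈ U
          · rw [indicator_of_mem hz]; exact (hf4 z).2
          · rw [indicator_of_notMem hz, image_eq_zero_of_notMem_tsupport fun h => hz (hf3 h).1]
      _ = μ.real U := by
          rw [integral_indicator hUo.measurableSet, setIntegral_const, smul_eq_mul, mul_one]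
  have h4 : μ.real U ≤ η := by
    have := ENNReal.toReal_mono ENNReal.coe_ne_top hUv.le
    rwa [ENNReal.coe_toReal] at this
  have h5 : ν.real K ≤ η := by linarith
  rw [← ofReal_measureReal (μ := ν)]
  calc ENNReal.ofReal (ν.real K) ≤ ENNReal.ofReal η := ENNReal.ofReal_le_ofReal h5
    _ = η := ENNReal.ofReal_coe_nnreal

end compare

end

end Pool.Agent.Helper85.CL
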