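import Pool.Agent.Helper85.CL.MLim
import Pool.Agent.Helper85.CL.Wells
import Pool.Agent.Helper59.CL.Main

/-!
PROJECT CL, block D4 to D6: unconditional statements.
-/

open Pool.Agent.Helper53.CL

namespace Pool.Agent.Helper85.CL.Final

theorem disc0 : Iface.Disc0 := CL.disc0 Pool.Agent.Helper59.CL.Main.monoD Pool.Agent.Helper59.CL.Main.densR

theorem mLim : Iface.MLim := CL.mLim Pool.Agent.Helper59.CL.Main.monoD Pool.Agent.Helper59.CL.Main.densR

theorem wells : Iface.Wells := CL.wells

end Pool.Agent.Helper85.CL.Final
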