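import Pool.Agent.Helper85.CL.LocBasic

/-!
PROJECT CL, block D5: the identity `∂bar (4 ε (∂u)^2) = (2 a / ε) ∂W` and its weak form.
-/

open Set MeasureTheory Filter Topology Metric

open scoped ContDiff Real

open Pool.Agent.Helper53.CL

namespace Pool.Agent.Helper85.CL

noncomputable section

/-- The quadratic differential. -/
def MM (ε : ℝ) (u : ℂ → ℝ) (z : ℂ) : ℂ := 4 * ε * dz (fun z => (u z : ℂ)) z ^ 2

/-- Twice the potential part of the energy density. -/
def PP (ε : ℝ) (a u : ℂ → ℝ) (z : ℂ) : ℝ := 2 * (1 / ε * (a z * (1 - Real.cos (u z))))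

lemma PP_eq (ε : ℝ) (a u : ℂ → ℝ) (z : ℂ) : PP ε a u z = ed ε a u z - disc ε a u z := by
  unfold PP ed disc; ring

lemma fderiv_ofReal {u : ℂ → ℝ} {z : ℂ} (h : DifferentiableAt ℝ u z) (v : ℂ) :
    fderiv ℝ (fun z => (u z : ℂ)) z v = (fderiv ℝ u z v : ℝ) := by
  have h1 := (Complex.ofRealCLM.hasFDerivAt (x := u z)).comp z h.hasFDerivAt
  have h2 : HasFDerivAt (fun z => (u z : ℂ)) _ z := h1
  rw [h2.fderiv]
  rfl

lemma dz_ofReal {u : ℂ → ℝ} {z : ℂ} (h : DifferentiableAt ℝ u z) :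
    dz (fun z => (u z : ℂ)) z = (((dx u z : ℝ) : ℂ) - Complex.I * ((dy u z : ℝ) : ℂ)) / 2 := by
  simp only [dz, dx, dy, fderiv_ofReal h]

lemma norm_dz_ofReal_sq {u : ℂ → ℝ} {z : ℂ} (h : DifferentiableAt ℝ u z) :
    ‖dz (fun z => (u z : ℂ)) z‖ ^ 2 = ‖gr u z‖ ^ 2 / 4 := by
  rw [dz_ofReal h, ← Complex.normSq_eq_norm_sq, ← Complex.normSq_eq_norm_sq]
  simp only [gr, Complex.normSq_apply]
  simp
  ring

lemma norm_MM {ε : ℝ} (hε : 0 < ε) {u : ℂ → ℝ} {z : ℂ} (h : DifferentiableAt ℝ u z) :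
    ‖MM ε u z‖ = ε * ‖gr u z‖ ^ 2 := by
  rw [MM, norm_mul, norm_mul, norm_pow, norm_dz_ofReal_sq h, Complex.norm_real, Real.norm_eq_abs,
    abs_of_pos hε]
  simp
  ring

lemma norm_MM_eq {ε : ℝ} (hε : 0 < ε) (a : ℂ → ℝ) {u : ℂ → ℝ} {z : ℂ} (h : DifferentiableAt ℝ u z) :
    ‖MM ε u z‖ = ed ε a u z + disc ε a u z := by
  rw [norm_MM hε h]
  unfold ed disc
  ring

section ident

variable {D : Set ℂ} {ε : ℝ} {a u : ℂ → ℝ}

lemma smooth_U (hu : ContDiffOn ℝ ∞ u D) : ContDiffOn ℝ ∞ (fun z => (u z : ℂ)) D :=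
  Complex.ofRealCLM.contDiff.comp_contDiffOn hu

lemma smooth_fderiv_apply {F : Type*} [NormedAddCommGroup F] [NormedSpace ℝ F] (hD : IsOpen D) {f : ℂ → F}
    (hf : ContDiffOn ℝ ∞ f D) (v : ℂ) : ContDiffOn ℝ ∞ (fun z => fderiv ℝ f z v) D := by
  have h1 : ContDiffOn ℝ ∞ (fderiv ℝ f) D := hf.fderiv_of_isOpen hD (by norm_cast)
  exact h1.clm_apply contDiffOn_const

lemma smooth_dz (hD : IsOpen D) {f : ℂ → ℂ} (hf : ContDiffOn ℝ ∞ f D) : ContDiffOn ℝ ∞ (dz f) D := by
  have h1 := smooth_fderiv_apply hD hf 1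
  have h2 := smooth_fderiv_apply hD hf Complex.I
  unfold dz dx dy
  exact (h1.sub (contDiffOn_const.mul h2)).div_const 2

lemma smooth_dzb (hD : IsOpen D) {f : ℂ → ℂ} (hf : ContDiffOn ℝ ∞ f D) : ContDiffOn ℝ ∞ (dzb f) D := by
  have h1 := smooth_fderiv_apply hD hf 1
  have h2 := smooth_fderiv_apply hD hf Complex.I
  unfold dzb dx dy
  exact (h1.add (contDiffOn_const.mul h2)).div_const 2

lemma smooth_MM (hD : IsOpen D) (hu : ContDiffOn ℝ ∞ u D) : ContDiffOn ℝ ∞ (MM ε u) D :=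
  contDiffOn_const.mul ((smooth_dz hD (smooth_U hu)).pow 2)

/-- Symmetry of the second derivatives. -/
lemma dxdy_comm (hD : IsOpen D) (hu : ContDiffOn ℝ ∞ u D) {z : ℂ} (hz : z ∈ D) :
    dx (dy u) z = dy (dx u) z := by
  have hu2 : ContDiffAt ℝ ∞ u z := hu.contDiffAt (hD.mem_nhds hz)
  have h1 : DifferentiableAt ℝ (fderiv ℝ u) z :=
    ((hu2.fderiv_right (m := 1) (by norm_cast)).differentiableAt one_ne_zero)
  have hs : IsSymmSndFDerivAt ℝ u z := hu2.isSymmSndFDerivAt (by simp only [minSmoothness_of_isRCLikeNormedField]; norm_cast)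
  have e1 : ∀ v w : ℂ, fderiv ℝ (fun z => fderiv ℝ u z v) z w = fderiv ℝ (fderiv ℝ u) z w v := by
    intro v w
    rw [fderiv_clm_apply h1 (differentiableAt_const v)]
    simp
  unfold dx dy
  rw [e1, e1]
  exact hs.eq 1 Complex.I

lemma dzb_dz (hD : IsOpen D) (hu : ContDiffOn ℝ ∞ u D) {z : ℂ} (hz : z ∈ D) :
    dzb (dz (fun z => (u z : ℂ))) z = (lap u z : ℝ) / 4 := by
  have hd : ∀ y ∈ D, DifferentiableAt ℝ u y := fun y hy =>
    (hu.contDiffAt (hD.mem_nhds hy)).differentiableAt (by simp)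
  have hev : dz (fun z => (u z : ℂ)) =ᶠ[𝓝 z]
      fun y => (((dx u y : ℝ) : ℂ) - Complex.I * ((dy u y : ℝ) : ℂ)) / 2 := by
    filter_upwards [hD.mem_nhds hz] with y hy
    exact dz_ofReal (hd y hy)
  have hdx : DifferentiableAt ℝ (dx u) z :=
    ((smooth_fderiv_apply hD hu 1).contDiffAt (hD.mem_nhds hz)).differentiableAt (by simp)
  have hdy : DifferentiableAt ℝ (dy u) z :=
    ((smooth_fderiv_apply hD hu Complex.I).contDiffAt (hD.mem_nhds hz)).differentiableAt (by simp)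
  have e1 : ∀ v : ℂ, fderiv ℝ (dz (fun z => (u z : ℂ))) z v =
      (((fderiv ℝ (dx u) z v : ℝ) : ℂ) - Complex.I * ((fderiv ℝ (dy u) z v : ℝ) : ℂ)) / 2 := by
    intro v
    rw [hev.fderiv_eq]
    have f1 : HasFDerivAt (fun y => ((dx u y : ℝ) : ℂ)) (Complex.ofRealCLM.comp (fderiv ℝ (dx u) z)) z :=
      (Complex.ofRealCLM.hasFDerivAt (x := dx u z)).comp z hdx.hasFDerivAt
    have f2 : HasFDerivAt (fun y => ((dy u y : ℝ) : ℂ)) (Complex.ofRealCLM.comp (fderiv ℝ (dy u) z)) z :=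
      (Complex.ofRealCLM.hasFDerivAt (x := dy u z)).comp z hdy.hasFDerivAt
    have f3 := (f1.sub (f2.const_mul Complex.I)).mul_const ((2 : ℂ)⁻¹)
    have f4 : HasFDerivAt (fun y => (((dx u y : ℝ) : ℂ) - Complex.I * ((dy u y : ℝ) : ℂ)) / 2) _ z := f3
    rw [f4.fderiv]
    simp
    ring
  rw [dzb, dx, dy, e1, e1]
  have hc := dxdy_comm hD hu hz
  unfold lap
  simp only [dx, dy] at hc ⊢
  rw [hc]
  push_cast
  ring_nf
  rw [Complex.I_sq]
  ring

/-- The product rule for the powers in `dzb`. -/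
lemma dzb_const_mul_sq {f : ℂ → ℂ} {z c : ℂ} (hf : DifferentiableAt ℝ f z) :
    dzb (fun z => c * f z ^ 2) z = 2 * c * f z * dzb f z := by
  have h1 := (hf.hasFDerivAt.mul hf.hasFDerivAt).const_mul c
  have h2 : (fun z => c * f z ^ 2) = fun z => c * (f * f) z := by
    funext y
    simp only [Pi.mul_apply]
    ring
  have e1 : ∀ v : ℂ, fderiv ℝ (fun z => c * f z ^ 2) z v = 2 * c * f z * fderiv ℝ f z v := by
    intro v
    rw [h2, h1.fderiv]
    simp
    ring
  rw [dzb, dzb, dx, dy, dx, dy, e1, e1]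
  ring

/-- The pointwise identity. -/
lemma dzb_MM (hD : IsOpen D) (h : LSol D ε a u) (hε : 0 < ε) {z : ℂ} (hz : z ∈ D) :
    dzb (MM ε u) z = 2 / ε * a z * Real.sin (u z) * dz (fun z => (u z : ℂ)) z := by
  have hU := smooth_U h.smooth
  have hdd : DifferentiableAt ℝ (dz (fun z => (u z : ℂ))) z :=
    ((smooth_dz hD hU).contDiffAt (hD.mem_nhds hz)).differentiableAt (by simp)
  have h1 : dzb (MM ε u) z = 2 * (4 * ε) * dz (fun z => (u z : ℂ)) z * dzb (dz (fun z => (u z : ℂ))) z :=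
    dzb_const_mul_sq hdd
  rw [h1, dzb_dz hD h.smooth hz]
  have h2 := h.eq z hz
  have h3 : ((lap u z : ℝ) : ℂ) = a z * Real.sin (u z) / ε ^ 2 := by
    have h4 : lap u z = a z * Real.sin (u z) / ε ^ 2 := by
      rw [← h2]; field_simp
    rw [h4]; push_cast; ring
  rw [h3]
  have h5 : (ε : ℂ) ≠ 0 := by exact_mod_cast hε.ne'
  field_simp

lemma dz_pot (hD : IsOpen D) (hu : ContDiffOn ℝ ∞ u D) {z : ℂ} (hz : z ∈ D) :
    dz (fun z => ((1 - Real.cos (u z) : ℝ) : ℂ)) z = Real.sin (u z) * dz (fun z => (u z : ℂ)) z := by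
  have hd : DifferentiableAt ℝ u z := (hu.contDiffAt (hD.mem_nhds hz)).differentiableAt (by simp)
  have hc : HasFDerivAt (fun z => 1 - Real.cos (u z)) (Real.sin (u z) • fderiv ℝ u z) z := by
    have := ((Real.hasDerivAt_cos (u z)).comp_hasFDerivAt z hd.hasFDerivAt).const_sub 1
    simpa using this
  rw [dz_ofReal hc.differentiableAt, dz_ofReal hd]
  simp only [dx, dy, hc.fderiv]
  simp
  ring

end ident

section weak

lemma integrable_mulC {f g : ℂ → ℂ} (hf : Continuous f) (hs : tsupport f ⊆ ball 0 2)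
    (hg : ContinuousOn g (ball 0 3)) : Integrable fun z => g z * f z := by
  have h1 : IntegrableOn (fun z => g z * f z) (closedBall (0 : ℂ) 2) :=
    integrableOn_two (hg.mul hf.continuousOn) le_rfl
  refine (integrableOn_iff_integrable_of_support_subset ?_).mp h1
  intro z hz
  have h2 : z ∈ Function.support f := fun h => hz (by simp [h])
  exact ball_subset_closedBall (hs (subset_tsupport f h2))

lemma tsupport_fderiv_apply_subset {ψ : ℂ → ℂ} (v : ℂ) :
    tsupport (fun z => fderiv ℝ ψ z v) ⊆ tsupport ψ := by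
  refine closure_minimal (fun z hz => ?_) (isClosed_tsupport _)
  by_contra h
  apply hz
  have h1 : fderiv ℝ ψ z = 0 := by
    have := support_fderiv_subset ℝ (f := ψ)
    by_contra hne
    exact h (this hne)
  simp [h1]

variable {ψ : ℂ → ℂ} {g : ℂ → ℂ}

lemma ibp_fderiv (hg : ContDiffOn ℝ ∞ g (ball 0 3)) (hψ : ContDiff ℝ 1 ψ)
    (hs : tsupport ψ ⊆ ball 0 2) (v : ℂ) :
    ∫ z, g z * fderiv ℝ ψ z v = -∫ z, fderiv ℝ g z v * ψ z := by
  have hD : IsOpen (ball (0 : ℂ) 3) := isOpen_ball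
  refine integral_mul_fderiv_eq_neg_fderiv_mul_of_integrable ?_ ?_ ?_ ?_ ?_
  · exact integrable_mulC hψ.continuous hs (smooth_fderiv_apply hD hg v).continuousOn
  · have hc : Continuous fun z => fderiv ℝ ψ z v :=
      (hψ.continuous_fderiv one_ne_zero).clm_apply continuous_const
    exact integrable_mulC hc ((tsupport_fderiv_apply_subset v).trans hs) hg.continuousOn
  · exact integrable_mulC hψ.continuous hs hg.continuousOn
  · intro z hz
    exact (hg.contDiffAt (hD.mem_nhds (ball_subset_ball (by norm_num) (hs hz)))).differentiableAt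
      (by simp)
  · intro z _
    exact hψ.differentiable one_ne_zero z

lemma int_fderiv (hg : ContinuousOn g (ball 0 3)) (hψ : ContDiff ℝ 1 ψ)
    (hs : tsupport ψ ⊆ ball 0 2) (v : ℂ) : Integrable fun z => g z * fderiv ℝ ψ z v := by
  have hc : Continuous fun z => fderiv ℝ ψ z v :=
    (hψ.continuous_fderiv one_ne_zero).clm_apply continuous_const
  exact integrable_mulC hc ((tsupport_fderiv_apply_subset v).trans hs) hg

lemma ibp_dz (hg : ContDiffOn ℝ ∞ g (ball 0 3)) (hψ : ContDiff ℝ 1 ψ)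
    (hs : tsupport ψ ⊆ ball 0 2) : ∫ z, g z * dz ψ z = -∫ z, dz g z * ψ z := by
  have hD : IsOpen (ball (0 : ℂ) 3) := isOpen_ball
  have i1 := int_fderiv hg.continuousOn hψ hs 1
  have i2 := int_fderiv hg.continuousOn hψ hs Complex.I
  have j1 : Integrable fun z => fderiv ℝ g z 1 * ψ z :=
    integrable_mulC hψ.continuous hs (smooth_fderiv_apply hD hg 1).continuousOn
  have j2 : Integrable fun z => fderiv ℝ g z Complex.I * ψ z :=
    integrable_mulC hψ.continuous hs (smooth_fderiv_apply hD hg Complex.I).continuousOn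
  have e1 : ∫ z, g z * dz ψ z =
      ((∫ z, g z * fderiv ℝ ψ z 1) - Complex.I * ∫ z, g z * fderiv ℝ ψ z Complex.I) / 2 := by
    rw [← integral_const_mul, ← integral_sub i1 (i2.const_mul _), ← integral_div]
    congr 1; ext z; simp only [dz, dx, dy]; ring
  have e2 : ∫ z, dz g z * ψ z =
      ((∫ z, fderiv ℝ g z 1 * ψ z) - Complex.I * ∫ z, fderiv ℝ g z Complex.I * ψ z) / 2 := by
    rw [← integral_const_mul, ← integral_sub j1 (j2.const_mul _), ← integral_div]
    congr 1; ext z; simp only [dz, dx, dy]; ring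
  rw [e1, e2, ibp_fderiv hg hψ hs, ibp_fderiv hg hψ hs]
  ring

lemma ibp_dzb (hg : ContDiffOn ℝ ∞ g (ball 0 3)) (hψ : ContDiff ℝ 1 ψ)
    (hs : tsupport ψ ⊆ ball 0 2) : ∫ z, g z * dzb ψ z = -∫ z, dzb g z * ψ z := by
  have hD : IsOpen (ball (0 : ℂ) 3) := isOpen_ball
  have i1 := int_fderiv hg.continuousOn hψ hs 1
  have i2 := int_fderiv hg.continuousOn hψ hs Complex.I
  have j1 : Integrable fun z => fderiv ℝ g z 1 * ψ z :=
    integrable_mulC hψ.continuous hs (smooth_fderiv_apply hD hg 1).continuousOn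
  have j2 : Integrable fun z => fderiv ℝ g z Complex.I * ψ z :=
    integrable_mulC hψ.continuous hs (smooth_fderiv_apply hD hg Complex.I).continuousOn
  have e1 : ∫ z, g z * dzb ψ z =
      ((∫ z, g z * fderiv ℝ ψ z 1) + Complex.I * ∫ z, g z * fderiv ℝ ψ z Complex.I) / 2 := by
    rw [← integral_const_mul, ← integral_add i1 (i2.const_mul _), ← integral_div]
    congr 1; ext z; simp only [dzb, dx, dy]; ring
  have e2 : ∫ z, dzb g z * ψ z =
      ((∫ z, fderiv ℝ g z 1 * ψ z) + Complex.I * ∫ z, fderiv ℝ g z Complex.I * ψ z) / 2 := by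
    rw [← integral_const_mul, ← integral_add j1 (j2.const_mul _), ← integral_div]
    congr 1; ext z; simp only [dzb, dx, dy]; ring
  rw [e1, e2, ibp_fderiv hg hψ hs, ibp_fderiv hg hψ hs]
  ring

lemma continuous_dz' (h : ContDiff ℝ 1 ψ) : Continuous (dz ψ) := by
  have h1 := h.continuous_fderiv one_ne_zero
  unfold dz dx dy
  fun_prop

lemma tsupport_dz_subset (ψ : ℂ → ℂ) : tsupport (dz ψ) ⊆ tsupport ψ := by
  refine closure_minimal (fun z hz => ?_) (isClosed_tsupport _)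
  by_contra h
  apply hz
  have h1 : fderiv ℝ ψ z = 0 := by
    by_contra hne
    exact h (support_fderiv_subset ℝ (f := ψ) hne)
  simp [dz, dx, dy, h1]

lemma tsupport_dzb_subset (ψ : ℂ → ℂ) : tsupport (dzb ψ) ⊆ tsupport ψ := by
  refine closure_minimal (fun z hz => ?_) (isClosed_tsupport _)
  by_contra h
  apply hz
  have h1 : fderiv ℝ ψ z = 0 := by
    by_contra hne
    exact h (support_fderiv_subset ℝ (f := ψ) hne)
  simp [dzb, dx, dy, h1]

/-- The coefficient `∂ log a`. -/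
def bb (a : ℂ → ℝ) (z : ℂ) : ℂ := dz (fun z => (a z : ℂ)) z / a z

/-- The weak form of the identity for a solution. -/
theorem weak_sol {ε : ℝ} {a u : ℂ → ℝ} (h : LSol (ball 0 3) ε a u) (hε : 0 < ε)
    (ha : ContDiffOn ℝ ∞ a (ball 0 3)) (hap : ∀ z ∈ ball (0 : ℂ) 3, 0 < a z)
    (hψ : ContDiff ℝ 1 ψ) (hs : tsupport ψ ⊆ ball 0 2) :
    ∫ z, MM ε u z * dzb ψ z = ∫ z, (PP ε a u z : ℂ) * (dz ψ z + ψ z * bb a z) := by
  have hD : IsOpen (ball (0 : ℂ) 3) := isOpen_ball
  have hMs : ContDiffOn ℝ ∞ (MM ε u) (ball 0 3) := smooth_MM hD h.smooth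
  have hW : ContDiffOn ℝ ∞ (fun z => ((1 - Real.cos (u z) : ℝ) : ℂ)) (ball 0 3) :=
    smooth_U (contDiffOn_const.sub (Real.contDiff_cos.comp_contDiffOn h.smooth))
  have hA : ContDiffOn ℝ ∞ (fun z => (a z : ℂ)) (ball 0 3) := smooth_U ha
  have hP : ContDiffOn ℝ ∞ (fun z => (PP ε a u z : ℂ)) (ball 0 3) := by
    unfold PP
    exact smooth_U (contDiffOn_const.mul (contDiffOn_const.mul (ha.mul
      (contDiffOn_const.sub (Real.contDiff_cos.comp_contDiffOn h.smooth)))))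
  have hdP : ∀ z ∈ ball (0 : ℂ) 3, dz (fun z => (PP ε a u z : ℂ)) z =
      2 / ε * a z * Real.sin (u z) * dz (fun z => (u z : ℂ)) z + PP ε a u z * bb a z := by
    intro z hz
    have hdA : DifferentiableAt ℝ (fun z => (a z : ℂ)) z :=
      (hA.contDiffAt (hD.mem_nhds hz)).differentiableAt (by simp)
    have hdW : DifferentiableAt ℝ (fun z => ((1 - Real.cos (u z) : ℝ) : ℂ)) z :=
      (hW.contDiffAt (hD.mem_nhds hz)).differentiableAt (by simp)
    have e0 : (fun z => (PP ε a u z : ℂ)) = fun z => (2 / ε : ℂ) *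
        ((fun z => (a z : ℂ)) * fun z => ((1 - Real.cos (u z) : ℝ) : ℂ)) z := by
      funext y
      simp only [PP, Pi.mul_apply]
      push_cast
      ring
    have hm := (hdA.hasFDerivAt.mul hdW.hasFDerivAt).const_mul (2 / ε : ℂ)
    have e1 : ∀ v : ℂ, fderiv ℝ (fun z => (PP ε a u z : ℂ)) z v = (2 / ε : ℂ) *
        (a z * fderiv ℝ (fun z => ((1 - Real.cos (u z) : ℝ) : ℂ)) z v +
          ((1 - Real.cos (u z) : ℝ) : ℂ) * fderiv ℝ (fun z => (a z : ℂ)) z v) := by
      intro v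
      rw [e0, hm.fderiv]
      simp
      ring
    have e2 := dz_pot hD h.smooth hz
    have haz : (a z : ℂ) ≠ 0 := by exact_mod_cast (hap z hz).ne'
    have e3 : dz (fun z => (PP ε a u z : ℂ)) z = (2 / ε : ℂ) *
        (a z * dz (fun z => ((1 - Real.cos (u z) : ℝ) : ℂ)) z +
          ((1 - Real.cos (u z) : ℝ) : ℂ) * dz (fun z => (a z : ℂ)) z) := by
      simp only [dz, dx, dy, e1]
      ring
    rw [e3, e2]
    simp only [PP, bb]
    push_cast
    field_simp
  rw [ibp_dzb hMs hψ hs]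
  have i1 : Integrable fun z => (PP ε a u z : ℂ) * dz ψ z :=
    integrable_mulC (continuous_dz' hψ) ((tsupport_dz_subset ψ).trans hs) hP.continuousOn
  have hbc : ContinuousOn (bb a) (ball 0 3) := by
    unfold bb
    refine (smooth_dz hD hA).continuousOn.div hA.continuousOn fun z hz => ?_
    exact_mod_cast (hap z hz).ne'
  have i2 : Integrable fun z => ((PP ε a u z : ℂ) * bb a z) * ψ z :=
    integrable_mulC hψ.continuous hs (hP.continuousOn.mul hbc)
  have e4 : ∫ z, (PP ε a u z : ℂ) * (dz ψ z + ψ z * bb a z) =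
      (∫ z, (PP ε a u z : ℂ) * dz ψ z) + ∫ z, ((PP ε a u z : ℂ) * bb a z) * ψ z := by
    rw [← integral_add i1 i2]
    congr 1; ext z; ring
  rw [e4, ibp_dz hP hψ hs]
  have i3 : Integrable fun z => dz (fun z => (PP ε a u z : ℂ)) z * ψ z :=
    integrable_mulC hψ.continuous hs (smooth_dz hD hP).continuousOn
  have i4 : Integrable fun z => -(dz (fun z => (PP ε a u z : ℂ)) z * ψ z) := i3.neg
  rw [← integral_neg, ← integral_neg, ← integral_add i4 i2]
  refine integral_congr_ae (Eventually.of_forall fun z => ?_)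
  simp only
  by_cases hz : z ∈ tsupport ψ
  · have hz3 : z ∈ ball (0 : ℂ) 3 := ball_subset_ball (by norm_num) (hs hz)
    rw [hdP z hz3, dzb_MM hD h hε hz3]
    ring
  · rw [image_eq_zero_of_notMem_tsupport hz]
    ring

end weak

end

end Pool.Agent.Helper85.CL
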