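import Pool.Agent.Helper53.CL.Defs

/-!
PROJECT CL, block D: elementary facts about the energy density and the discrepancy.
-/

open Set MeasureTheory Filter Topology Metric

open scoped ContDiff Real

open Pool.Agent.Helper53.CL

namespace Pool.Agent.Helper85.CL

section Pointwise

lemma ed_eq (ε : ℝ) (a u : ℂ → ℝ) (z : ℂ) :
    ed ε a u z = disc ε a u z + 2 * (1 / ε * (a z * (1 - Real.cos (u z)))) := by
  unfold ed disc; ring

lemma pot_nonneg {ε : ℝ} (hε : 0 < ε) {a u : ℂ → ℝ} {z : ℂ} (ha : 0 ≤ a z) :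
    0 ≤ 1 / ε * (a z * (1 - Real.cos (u z))) := by
  have : 0 ≤ 1 - Real.cos (u z) := by linarith [Real.cos_le_one (u z)]
  positivity

lemma kin_nonneg {ε : ℝ} (hε : 0 < ε) (u : ℂ → ℝ) (z : ℂ) : 0 ≤ ε / 2 * ‖gr u z‖ ^ 2 := by
  positivity

lemma ed_nonneg {ε : ℝ} (hε : 0 < ε) {a u : ℂ → ℝ} {z : ℂ} (ha : 0 ≤ a z) : 0 ≤ ed ε a u z :=
  add_nonneg (kin_nonneg hε u z) (pot_nonneg hε ha)

lemma abs_disc_le {ε : ℝ} (hε : 0 < ε) {a u : ℂ → ℝ} {z : ℂ} (ha : 0 ≤ a z) :
    |disc ε a u z| ≤ ed ε a u z := by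
  have h1 := kin_nonneg hε u z
  have h2 := pot_nonneg hε (u := u) ha
  unfold disc ed
  rw [abs_le]
  constructor <;> linarith

end Pointwise

section Cont

variable {D : Set ℂ} {ε : ℝ} {a u : ℂ → ℝ}

lemma contOn_dx (hD : IsOpen D) {n : WithTop ℕ∞} (hn : 1 ≤ n) (hu : ContDiffOn ℝ n u D) :
    ContinuousOn (dx u) D := by
  have h1 : ContinuousOn (fderiv ℝ u) D :=
    (hu.of_le hn).continuousOn_fderiv_of_isOpen hD le_rfl
  exact h1.clm_apply continuousOn_const

lemma contOn_dy (hD : IsOpen D) {n : WithTop ℕ∞} (hn : 1 ≤ n) (hu : ContDiffOn ℝ n u D) :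
    ContinuousOn (dy u) D := by
  have h1 : ContinuousOn (fderiv ℝ u) D :=
    (hu.of_le hn).continuousOn_fderiv_of_isOpen hD le_rfl
  exact h1.clm_apply continuousOn_const

lemma gr_eq (u : ℂ → ℝ) (z : ℂ) : gr u z = ((dx u z : ℝ) : ℂ) + ((dy u z : ℝ) : ℂ) * Complex.I :=
  Complex.mk_eq_add_mul_I _ _

lemma contOn_gr (hD : IsOpen D) {n : WithTop ℕ∞} (hn : 1 ≤ n) (hu : ContDiffOn ℝ n u D) :
    ContinuousOn (gr u) D := by
  have h1 := contOn_dx hD hn hu
  have h2 := contOn_dy hD hn hu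
  have : gr u = fun z => ((dx u z : ℝ) : ℂ) + ((dy u z : ℝ) : ℂ) * Complex.I := funext (gr_eq u)
  rw [this]
  exact (Complex.continuous_ofReal.comp_continuousOn h1).add
    ((Complex.continuous_ofReal.comp_continuousOn h2).mul continuousOn_const)

lemma contOn_ed (hD : IsOpen D) (hu : ContDiffOn ℝ ∞ u D) (ha : ContinuousOn a D) :
    ContinuousOn (ed ε a u) D := by
  have h1 := contOn_gr hD (by simp) hu
  have h2 := hu.continuousOn
  unfold ed
  exact (continuousOn_const.mul (h1.norm.pow 2)).add (continuousOn_const.mul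
    (ha.mul (continuousOn_const.sub (Real.continuous_cos.comp_continuousOn h2))))

lemma contOn_disc (hD : IsOpen D) (hu : ContDiffOn ℝ ∞ u D) (ha : ContinuousOn a D) :
    ContinuousOn (disc ε a u) D := by
  have h1 := contOn_gr hD (by simp) hu
  have h2 := hu.continuousOn
  unfold disc
  exact (continuousOn_const.mul (h1.norm.pow 2)).sub (continuousOn_const.mul
    (ha.mul (continuousOn_const.sub (Real.continuous_cos.comp_continuousOn h2))))

end Cont

section LocSeq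

variable {a : ℂ → ℝ} {aj : ℕ → ℂ → ℝ} {ε : ℕ → ℝ} {u : ℕ → ℂ → ℝ}

lemma ls_cont_ed (h : LocSeq a aj ε u) (j : ℕ) :
    ContinuousOn (ed (ε j) (aj j) (u j)) (ball 0 3) :=
  contOn_ed isOpen_ball (h.sol j).smooth (h.aj_smooth j).continuousOn

lemma ls_cont_disc (h : LocSeq a aj ε u) (j : ℕ) :
    ContinuousOn (disc (ε j) (aj j) (u j)) (ball 0 3) :=
  contOn_disc isOpen_ball (h.sol j).smooth (h.aj_smooth j).continuousOn

lemma ls_ed_nonneg (h : LocSeq a aj ε u) (j : ℕ) {z : ℂ} (hz : z ∈ ball (0 : ℂ) 3) :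
    0 ≤ ed (ε j) (aj j) (u j) z :=
  ed_nonneg (h.eps_pos j) (h.aj_pos j z hz).le

lemma ls_abs_disc_le (h : LocSeq a aj ε u) (j : ℕ) {z : ℂ} (hz : z ∈ ball (0 : ℂ) 3) :
    |disc (ε j) (aj j) (u j) z| ≤ ed (ε j) (aj j) (u j) z :=
  abs_disc_le (h.eps_pos j) (h.aj_pos j z hz).le

/-- Functions continuous on the disc of radius three are integrable on the closed disc of radius two. -/
lemma integrableOn_two {E : Type*} [NormedAddCommGroup E] {f : ℂ → E} (hf : ContinuousOn f (ball 0 3)) {A : Set ℂ}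
    (hA : A ⊆ closedBall 0 2) : IntegrableOn f A := by
  have h1 : IntegrableOn f (closedBall (0 : ℂ) 2) :=
    (hf.mono (closedBall_subset_ball (by norm_num))).integrableOn_compact (isCompact_closedBall 0 2)
  exact h1.mono_set hA

lemma ls_ed_int (h : LocSeq a aj ε u) (j : ℕ) {A : Set ℂ} (hA : A ⊆ closedBall 0 2) :
    IntegrableOn (ed (ε j) (aj j) (u j)) A := integrableOn_two (ls_cont_ed h j) hA

lemma ls_energy_le (h : LocSeq a aj ε u) : ∃ E, 0 ≤ E ∧ ∀ j, ∀ A : Set ℂ,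
    A ⊆ closedBall 0 2 → ∫ z in A, ed (ε j) (aj j) (u j) z ≤ E := by
  obtain ⟨E, hE⟩ := h.energy
  refine ⟨max E 0, le_max_right _ _, fun j A hA => ?_⟩
  have h1 : ∫ z in A, ed (ε j) (aj j) (u j) z ≤ ∫ z in closedBall (0 : ℂ) 2, ed (ε j) (aj j) (u j) z := by
    refine setIntegral_mono_set (ls_ed_int h j le_rfl) ?_ hA.eventuallyLE
    refine (ae_restrict_iff' measurableSet_closedBall).mpr (Eventually.of_forall fun z hz => ?_)
    exact ls_ed_nonneg h j (closedBall_subset_ball (by norm_num) hz)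
  have h2 : ∫ z in closedBall (0 : ℂ) 2, ed (ε j) (aj j) (u j) z = ∫ z in ball (0 : ℂ) 2, ed (ε j) (aj j) (u j) z := by
    refine setIntegral_congr_set ?_
    have h3 : volume (sphere (0 : ℂ) 2) = 0 := Measure.addHaar_sphere_of_ne_zero volume _ (by norm_num)
    refine (ae_eq_set.mpr ⟨?_, ?_⟩)
    · refine measure_mono_null (fun x hx => ?_) h3
      rw [mem_sphere]
      rcases hx with ⟨hx1, hx2⟩
      rw [mem_closedBall] at hx1
      rw [mem_ball, not_lt] at hx2
      linarith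
    · rw [sdiff_eq_empty.mpr ball_subset_closedBall, measure_empty]
  rw [h2] at h1
  exact h1.trans ((hE j).trans (le_max_left _ _))

end LocSeq

end Pool.Agent.Helper85.CL
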