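import Pool.Agent.Helper85.CL.Inputs

/-!
PROJECT CL, block D4: the support of a measure with positive lower linear density has area zero.
-/

open Set MeasureTheory Filter Topology Metric

open scoped ContDiff Real

open Pool.Agent.Helper53.CL

namespace Pool.Agent.Helper85.CL

/-- Points where the linear lower density is positive form a set of area zero. -/
theorem area_zero_of_lower {μ : Measure ℂ} [IsFiniteMeasure μ] {A : Set ℂ} {c r0 : ℝ} (hc : 0 < c)
    (hr0 : 0 < r0) (h : ∀ x ∈ A, ∀ r ∈ Ioo 0 r0, ENNReal.ofReal (c * r) ≤ μ (ball x r)) :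
    volume A = 0 := by
  have h1 := Besicovitch.ae_tendsto_rnDeriv μ (volume : Measure ℂ)
  have h2 := Measure.rnDeriv_lt_top μ (volume : Measure ℂ)
  have h3 : ∀ᵐ x ∂(volume : Measure ℂ), x ∉ A := by
    filter_upwards [h1, h2] with x hx1 hx2 hxA
    obtain ⟨M, hM1, hM2⟩ := ENNReal.lt_iff_exists_nnreal_btwn.mp hx2
    have h4 := hx1.eventually (gt_mem_nhds hM1)
    have h5 : ∀ᶠ r in 𝓝[>] (0 : ℝ), r < min r0 (c / (π * M + 1)) := by
      have : 0 < min r0 (c / (π * M + 1)) := by
        have := Real.pi_pos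
        positivity
      exact eventually_nhdsWithin_of_eventually_nhds (gt_mem_nhds this)
    obtain ⟨r, hr1, hr2, hr3⟩ := (h4.and (h5.and self_mem_nhdsWithin)).exists
    have hr : 0 < r := hr3
    have hr4 : r < r0 := hr2.trans_le (min_le_left _ _)
    have hr5 : r < c / (π * M + 1) := hr2.trans_le (min_le_right _ _)
    have h6 := h x hxA r ⟨hr, hr4⟩
    have h7 : μ (closedBall x r) < M * volume (closedBall x r) := by
      rwa [ENNReal.div_lt_iff] at hr1
      · left
        exact (measure_closedBall_pos volume x hr).ne'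
      · left
        exact measure_closedBall_lt_top.ne
    have h8 : ENNReal.ofReal (c * r) < M * volume (closedBall x r) :=
      lt_of_le_of_lt (h6.trans (measure_mono ball_subset_closedBall)) h7
    rw [Complex.volume_closedBall] at h8
    have h9 : (M : ENNReal) * (ENNReal.ofReal r ^ 2 * NNReal.pi) = ENNReal.ofReal (M * (r ^ 2 * π)) := by
      rw [ENNReal.ofReal_mul (by positivity), ENNReal.ofReal_mul (by positivity),
        ENNReal.ofReal_pow hr.le, ENNReal.ofReal_coe_nnreal]
      congr 2
      rw [← NNReal.coe_real_pi, ENNReal.ofReal_coe_nnreal]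
    rw [h9, ENNReal.ofReal_lt_ofReal_iff_of_nonneg (by positivity)] at h8
    have h10 : (0 : ℝ) ≤ M := M.2
    have h11 : 0 < π := Real.pi_pos
    have h12 : 0 < π * M + 1 := by positivity
    rw [lt_div_iff₀ h12] at hr5
    have h13 : c < M * (r * π) := by
      have : c * r < M * (r * π) * r := by linarith [h8, (by ring : (M : ℝ) * (r ^ 2 * π) = M * (r * π) * r)]
      exact lt_of_mul_lt_mul_right this hr.le
    nlinarith
  exact measure_eq_zero_iff_ae_notMem.mpr h3

/-- The support has area zero. -/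
theorem null_of_dens (hD : DensR) {a : ℂ → ℝ} {aj : ℕ → ℂ → ℝ} {ε : ℕ → ℝ} {u : ℕ → ℂ → ℝ}
    {μ : Measure ℂ} (h : LocSeq a aj ε u) (he : EConv aj ε u μ) (hf : IsFiniteMeasure μ) {R : ℝ}
    (hR : R < 2) : volume {x ∈ closedBall (0 : ℂ) R | ∀ r > 0, 0 < μ (ball x r)} = 0 := by
  obtain ⟨c, K, r0, hc, hr0, -, h2⟩ := hD a aj ε u μ h he hf R hR
  exact area_zero_of_lower hc hr0 fun x hx r hr => h2 x hx.1 hx.2 r hr

end Pool.Agent.Helper85.CL
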