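import Pool.Agent.Helper57.SOB.SClass
import Pool.Agent.Helper57.SOB.IBP
import Pool.Agent.Helper53.CL.C.C01
import Pool.Agent.Helper85.CL.LocBasic

/-!
PROJECT CL, block B3: the weak equation in a chart.
-/

open Set MeasureTheory Filter Topology Metric

open scoped ContDiff Real

open Pool.Agent.Helper53.CL Pool.Agent.Helper53.CL.C Pool.Agent.Helper53.CL.H

set_option linter.unusedSectionVars false

namespace Pool.Agent.Helper85.CL

noncomputable section

section Ext

variable {S : Type*} [TopologicalSpace S] [MeasurableSpace S]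

open Classical in
/-- Extension by zero of a function given in a chart. -/
def ext0 (C : CSurf S) (i : Fin C.n) (φ : ℂ → ℝ) (x : S) : ℝ :=
  if x ∈ (C.φ i).source then φ (C.φ i x) else 0

variable (C : CSurf S) (i : Fin C.n)

lemma symm_mem {z : ℂ} (hz : z ∈ ball (0 : ℂ) 3) : (C.φ i).symm z ∈ (C.φ i).source :=
  (C.φ i).map_target (by rw [C.target]; exact hz)

lemma right_inv {z : ℂ} (hz : z ∈ ball (0 : ℂ) 3) : C.φ i ((C.φ i).symm z) = z :=
  (C.φ i).right_inv (by rw [C.target]; exact hz)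

lemma map_mem {x : S} (hx : x ∈ (C.φ i).source) : C.φ i x ∈ ball (0 : ℂ) 3 := by
  rw [← C.target i]; exact (C.φ i).map_source hx

lemma ext0_symm (φ : ℂ → ℝ) {z : ℂ} (hz : z ∈ ball (0 : ℂ) 3) :
    ext0 C i φ ((C.φ i).symm z) = φ z := by
  unfold ext0
  rw [if_pos (symm_mem C i hz), right_inv C i hz]

lemma ext0_off (φ : ℂ → ℝ) {x : S} (hx : x ∉ (C.φ i).source) : ext0 C i φ x = 0 := by
  unfold ext0
  rw [if_neg hx]

/-- The image of the support. -/
def supK (φ : ℂ → ℝ) : Set S := (C.φ i).symm '' tsupport φ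

lemma isClosed_supK [T2Space S] {φ : ℂ → ℝ} (hc : HasCompactSupport φ) (hs : tsupport φ ⊆ ball 0 3) :
    IsClosed (supK C i φ) := by
  have h1 : ContinuousOn (C.φ i).symm (tsupport φ) :=
    (C.φ i).continuousOn_symm.mono (by rw [C.target]; exact hs)
  exact (hc.isCompact.image_of_continuousOn h1).isClosed

lemma supK_sub {φ : ℂ → ℝ} (hs : tsupport φ ⊆ ball 0 3) : supK C i φ ⊆ (C.φ i).source := by
  rintro _ ⟨z, hz, rfl⟩
  exact symm_mem C i (hs hz)

lemma ext0_zero {φ : ℂ → ℝ} {x : S} (hx : x ∉ supK C i φ) : ext0 C i φ x = 0 := by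
  by_cases h : x ∈ (C.φ i).source
  · unfold ext0
    rw [if_pos h]
    refine image_eq_zero_of_notMem_tsupport fun h2 => hx ⟨C.φ i x, h2, (C.φ i).left_inv h⟩
  · exact ext0_off C i φ h

lemma ext0_ev_zero [T2Space S] {φ : ℂ → ℝ} (hc : HasCompactSupport φ) (hs : tsupport φ ⊆ ball 0 3)
    (j : Fin C.n) {z : ℂ} (hz : z ∈ ball (0 : ℂ) 3) (hx : (C.φ j).symm z ∉ supK C i φ) :
    (ext0 C i φ ∘ (C.φ j).symm) =ᶠ[𝓝 z] fun _ => 0 := by
  have h1 : ContinuousAt (C.φ j).symm z :=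
    (C.φ j).continuousAt_symm (by rw [C.target]; exact hz)
  filter_upwards [h1.preimage_mem_nhds ((isClosed_supK C i hc hs).isOpen_compl.mem_nhds hx)] with y hy
  exact ext0_zero C i hy

lemma isC1_ext0 [T2Space S] {φ : ℂ → ℝ} (hφ : ContDiff ℝ ∞ φ) (hc : HasCompactSupport φ)
    (hs : tsupport φ ⊆ ball 0 3) : C.IsC1 (ext0 C i φ) := by
  intro j z hz
  refine ContDiffAt.contDiffWithinAt ?_
  by_cases hx : (C.φ j).symm z ∈ (C.φ i).source
  · have ho : IsOpen ((C.φ j).symm.trans (C.φ i)).source := ((C.φ j).symm.trans (C.φ i)).open_source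
    have hm : z ∈ ((C.φ j).symm.trans (C.φ i)).source := by
      rw [OpenPartialHomeomorph.trans_source]
      refine ⟨?_, hx⟩
      rw [OpenPartialHomeomorph.symm_source, C.target]
      exact hz
    have h1 : ContDiffAt ℝ ∞ (C.φ i ∘ (C.φ j).symm) z :=
      (C.trans_smooth j i).contDiffAt (ho.mem_nhds hm)
    have h2 : ContDiffAt ℝ 1 (φ ∘ (C.φ i ∘ (C.φ j).symm)) z :=
      ((hφ.contDiffAt).comp z h1).of_le (by exact_mod_cast le_top)
    refine h2.congr_of_eventuallyEq ?_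
    filter_upwards [ho.mem_nhds hm] with y hy
    rw [OpenPartialHomeomorph.trans_source] at hy
    have hy2 : (C.φ j).symm y ∈ (C.φ i).source := hy.2
    simp only [Function.comp_apply]
    unfold ext0
    rw [if_pos hy2]
  · have h1 : (C.φ j).symm z ∉ supK C i φ := fun h => hx (supK_sub C i hs h)
    exact contDiffAt_const.congr_of_eventuallyEq (ext0_ev_zero C i hc hs j hz h1)

lemma idx_spec' (x : S) : x ∈ (C.φ (C.idx x)).source ∧ C.φ (C.idx x) x ∈ ball (0 : ℂ) 1 := by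
  classical
  have h := Finset.min'_mem (Finset.univ.filter fun i =>
    x ∈ (C.φ i).source ∧ C.φ i x ∈ ball (0 : ℂ) 1)
    (let ⟨i, hi⟩ := C.cover x; ⟨i, Finset.mem_filter.2 ⟨Finset.mem_univ i, hi⟩⟩)
  have h2 := (Finset.mem_filter.1 h).2
  convert h2 using 2 <;> unfold CSurf.idx <;> congr!

lemma gr_congr {f g : ℂ → ℝ} {z : ℂ} (h : f =ᶠ[𝓝 z] g) : gr f z = gr g z := by
  unfold gr dx dy
  rw [h.fderiv_eq]

lemma gr_const' (c : ℝ) (z : ℂ) : gr (fun _ => c) z = 0 := by
  unfold gr dx dy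
  rw [(hasFDerivAt_const c z).fderiv]
  rfl

lemma grad_ext0_off [T2Space S] {φ : ℂ → ℝ} (hc : HasCompactSupport φ) (hs : tsupport φ ⊆ ball 0 3)
    {x : S} (hx : x ∉ (C.φ i).source) : C.grad (ext0 C i φ) x = 0 := by
  obtain ⟨h1, h2⟩ := idx_spec' C x
  have h3 : (C.φ (C.idx x)).symm (C.φ (C.idx x) x) ∉ supK C i φ := by
    rw [(C.φ (C.idx x)).left_inv h1]
    exact fun h => hx (supK_sub C i hs h)
  unfold CSurf.grad
  rw [gr_congr (ext0_ev_zero C i hc hs _ (ball_subset_ball (by norm_num) h2) h3), gr_const', zero_div]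

end Ext

section Int

variable {S : Type*} [TopologicalSpace S] [MeasurableSpace S] [BorelSpace S]

variable (C : CSurf S) (i : Fin C.n)

/-- Integrals of functions vanishing off the chart. -/
lemma int_ext' {F : S → ℝ} {G : ℂ → ℝ} (h1 : ∀ x ∉ (C.φ i).source, F x = 0)
    (h2 : ∀ z ∈ ball (0 : ℂ) 3, C.ρ i z * F ((C.φ i).symm z) = G z)
    (h3 : ∀ z ∉ ball (0 : ℂ) 3, G z = 0) : ∫ x, F x ∂C.area = ∫ z, G z := by
  rw [← setIntegral_eq_integral_of_forall_compl_eq_zero h1, H.integral_chart,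
    ← setIntegral_eq_integral_of_forall_compl_eq_zero h3]
  exact setIntegral_congr_fun measurableSet_ball fun z hz => h2 z hz

lemma der_off {φ : ℂ → ℝ} {z : ℂ} (h : z ∉ tsupport φ) :
    φ z = 0 ∧ dx φ z = 0 ∧ dy φ z = 0 ∧ lap φ z = 0 := by
  have h0 : (tsupport φ)ᶜ ∈ 𝓝 z := (isClosed_tsupport φ).isOpen_compl.mem_nhds h
  have hev : φ =ᶠ[𝓝 z] fun _ => 0 := by
    filter_upwards [h0] with y hy
    exact image_eq_zero_of_notMem_tsupport hy
  have hz : ∀ y ∉ tsupport φ, dx φ y = 0 ∧ dy φ y = 0 := by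
    intro y hy
    have h1 : fderiv ℝ φ y = 0 := by
      by_contra h2
      exact hy (support_fderiv_subset ℝ h2)
    constructor
    · unfold dx
      rw [h1]
      rfl
    · unfold dy
      rw [h1]
      rfl
  refine ⟨image_eq_zero_of_notMem_tsupport h, (hz z h).1, (hz z h).2, ?_⟩
  have h1 : dx φ =ᶠ[𝓝 z] fun _ => 0 := by
    filter_upwards [h0] with y hy
    exact (hz y hy).1
  have h2 : dy φ =ᶠ[𝓝 z] fun _ => 0 := by
    filter_upwards [h0] with y hy
    exact (hz y hy).2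
  have e1 : fderiv ℝ (dx φ) z = 0 := by
    rw [h1.fderiv_eq, (hasFDerivAt_const (0 : ℝ) z).fderiv]
  have e2 : fderiv ℝ (dy φ) z = 0 := by
    rw [h2.fderiv_eq, (hasFDerivAt_const (0 : ℝ) z).fderiv]
  show fderiv ℝ (dx φ) z 1 + fderiv ℝ (dy φ) z Complex.I = 0
  rw [e1, e2]
  simp

lemma integrable_mul_test' {D : Set ℂ} (hD : IsOpen D) {g : ℂ → ℝ} (hg : ContinuousOn g D)
    {ψ : ℂ → ℝ} (hψ : Continuous ψ) (hc : HasCompactSupport ψ) (hs : tsupport ψ ⊆ D) :
    Integrable (fun z => g z * ψ z) := by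
  have h1 : tsupport (fun z => g z * ψ z) ⊆ D := (tsupport_mul_subset_right).trans hs
  have h2 : Continuous (fun z => g z * ψ z) :=
    (hg.mul hψ.continuousOn).continuous_of_tsupport_subset hD h1
  exact h2.integrable_of_hasCompactSupport hc.mul_left

lemma contDiff_dd {φ : ℂ → ℝ} (hφ : ContDiff ℝ ∞ φ) (w : ℂ) : ContDiff ℝ ∞ (fun z => fderiv ℝ φ z w) :=
  (hφ.fderiv_right (m := ∞) (by simp)).clm_apply contDiff_const

/-- Green formula for a function of class `C^1` and a test function. -/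
lemma green {v φ : ℂ → ℝ} (hv : ContDiffOn ℝ 1 v (ball 0 3)) (hφ : ContDiff ℝ ∞ φ) (hc : HasCompactSupport φ)
    (hs : tsupport φ ⊆ ball 0 3) : ∫ z, inner ℝ (gr v z) (gr φ z) = -∫ z, v z * lap φ z := by
  have hcx : HasCompactSupport (dx φ) := hc.fderiv_apply ℝ 1
  have hcy : HasCompactSupport (dy φ) := hc.fderiv_apply ℝ Complex.I
  have hsx : tsupport (dx φ) ⊆ ball 0 3 := (tsupport_fderiv_apply_subset ℝ (1 : ℂ)).trans hs
  have hsy : tsupport (dy φ) ⊆ ball 0 3 := (tsupport_fderiv_apply_subset ℝ Complex.I).trans hs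
  have hxs : ContDiff ℝ ∞ (dx φ) := contDiff_dd hφ 1
  have hys : ContDiff ℝ ∞ (dy φ) := contDiff_dd hφ Complex.I
  obtain ⟨h1, -⟩ := SOB.ibp isOpen_ball hv hxs hcx hsx
  obtain ⟨-, h2⟩ := SOB.ibp isOpen_ball hv hys hcy hsy
  have hvx : ContinuousOn (dx v) (ball 0 3) :=
    (hv.continuousOn_fderiv_of_isOpen isOpen_ball le_rfl).clm_apply continuousOn_const
  have hvy : ContinuousOn (dy v) (ball 0 3) :=
    (hv.continuousOn_fderiv_of_isOpen isOpen_ball le_rfl).clm_apply continuousOn_const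
  have i1 := integrable_mul_test' isOpen_ball hvx hxs.continuous hcx hsx
  have i2 := integrable_mul_test' isOpen_ball hvy hys.continuous hcy hsy
  have hxx : ContDiff ℝ ∞ (dx (dx φ)) := contDiff_dd hxs 1
  have hyy : ContDiff ℝ ∞ (dy (dy φ)) := contDiff_dd hys Complex.I
  have i3 := integrable_mul_test' isOpen_ball hv.continuousOn hxx.continuous (hcx.fderiv_apply ℝ 1)
    ((tsupport_fderiv_apply_subset ℝ (1 : ℂ)).trans hsx)
  have i4 := integrable_mul_test' isOpen_ball hv.continuousOn hyy.continuous (hcy.fderiv_apply ℝ Complex.I)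
    ((tsupport_fderiv_apply_subset ℝ Complex.I).trans hsy)
  have e1 : ∀ z, inner ℝ (gr v z) (gr φ z) = dx v z * dx φ z + dy v z * dy φ z := by
    intro z
    rw [Complex.inner]
    unfold gr
    simp
    ring
  have e2 : ∀ z, v z * lap φ z = v z * dx (dx φ) z + v z * dy (dy φ) z := by
    intro z
    unfold lap
    ring
  simp_rw [e1, e2]
  rw [integral_add i1 i2, integral_add i3 i4, h1, h2]
  ring

/-- The function `L`. -/
def lapR (φ : ℂ → ℝ) (z : ℂ) : ℝ := lap φ z / C.ρ i z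

lemma tsupport_lapR {φ : ℂ → ℝ} : tsupport (lapR C i φ) ⊆ tsupport φ := by
  refine closure_minimal ?_ (isClosed_tsupport φ)
  intro z hz
  by_contra h
  apply hz
  unfold lapR
  rw [(der_off h).2.2.2, zero_div]

lemma contDiff_lap {φ : ℂ → ℝ} (hφ : ContDiff ℝ ∞ φ) : ContDiff ℝ ∞ (lap φ) :=
  (contDiff_dd (contDiff_dd hφ 1) 1).add (contDiff_dd (contDiff_dd hφ Complex.I) Complex.I)

lemma contDiff_lapR {φ : ℂ → ℝ} (hφ : ContDiff ℝ ∞ φ) (hs : tsupport φ ⊆ ball 0 3) :
    ContDiff ℝ ∞ (lapR C i φ) := by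
  rw [contDiff_iff_contDiffAt]
  intro z
  by_cases hz : z ∈ tsupport φ
  · have hz3 := hs hz
    exact (contDiff_lap hφ).contDiffAt.div ((C.ρ_smooth i).contDiffAt (isOpen_ball.mem_nhds hz3))
      (C.ρ_pos i z hz3).ne'
  · have hev : lapR C i φ =ᶠ[𝓝 z] fun _ => 0 := by
      filter_upwards [(isClosed_tsupport φ).isOpen_compl.mem_nhds hz] with y hy
      unfold lapR
      rw [(der_off hy).2.2.2, zero_div]
    exact contDiffAt_const.congr_of_eventuallyEq hev

variable [CompactSpace S] [T2Space S]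

lemma green_S {v : S → ℝ} (hv : C.IsC1 v) {φ : ℂ → ℝ} (hφ : ContDiff ℝ ∞ φ) (hc : HasCompactSupport φ)
    (hs : tsupport φ ⊆ ball 0 3) :
    ∫ x, inner ℝ (C.grad v x) (C.grad (ext0 C i φ) x) ∂C.area = -∫ x, v x * ext0 C i (lapR C i φ) x ∂C.area := by
  have h1 : ∫ x, inner ℝ (C.grad v x) (C.grad (ext0 C i φ) x) ∂C.area =
      ∫ z, inner ℝ (gr (v ∘ (C.φ i).symm) z) (gr φ z) := by
    refine int_ext' C i (fun x hx => ?_) (fun z hz => ?_) (fun z hz => ?_)
    · rw [grad_ext0_off C i hc hs hx, inner_zero_right]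
    · rw [H.inner_grad C hv (isC1_ext0 C i hφ hc hs) (symm_mem C i hz), right_inv C i hz]
      have h2 : gr (ext0 C i φ ∘ (C.φ i).symm) z = gr φ z := by
        refine gr_congr ?_
        filter_upwards [isOpen_ball.mem_nhds hz] with y hy
        exact ext0_symm C i φ hy
      rw [h2]
      have := (C.ρ_pos i z hz).ne'
      field_simp
    · have h2 := der_off (φ := φ) (z := z) fun h => hz (hs h)
      have h3 : gr φ z = 0 := by
        unfold gr
        rw [h2.2.1, h2.2.2.1]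
        rfl
      rw [h3, inner_zero_right]
  have h2 : ∫ x, v x * ext0 C i (lapR C i φ) x ∂C.area = ∫ z, (v ∘ (C.φ i).symm) z * lap φ z := by
    refine int_ext' C i (fun x hx => ?_) (fun z hz => ?_) (fun z hz => ?_)
    · rw [ext0_off C i _ hx, mul_zero]
    · rw [ext0_symm C i _ hz]
      unfold lapR
      have := (C.ρ_pos i z hz).ne'
      simp only [Function.comp_apply]
      field_simp
    · rw [(der_off (φ := φ) (z := z) fun h => hz (hs h)).2.2.2, mul_zero]
  rw [h1, h2]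
  exact green (hv i) hφ hc hs

lemma memLp_C1 {v : S → ℝ} (hv : C.IsC1 v) : MemLp v 2 C.area :=
  ((SOB.jclassS C).memLp v (C.grad v) ⟨hv, rfl⟩).1

lemma isC1_L {φ : ℂ → ℝ} (hφ : ContDiff ℝ ∞ φ) (hc : HasCompactSupport φ)
    (hs : tsupport φ ⊆ ball 0 3) : C.IsC1 (ext0 C i (lapR C i φ)) :=
  isC1_ext0 C i (contDiff_lapR C i hφ hs)
    (HasCompactSupport.intro' hc.isCompact (isClosed_tsupport φ) fun z hz => by
      unfold lapR
      rw [(der_off hz).2.2.2, zero_div])
    ((tsupport_lapR C i).trans hs)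

/-- Green formula for functions in the Sobolev space. -/
lemma green_HS {φ : ℂ → ℝ} (hφ : ContDiff ℝ ∞ φ) (hc : HasCompactSupport φ)
    (hs : tsupport φ ⊆ ball 0 3) {P : JetSp C.area} (hP : IsJet P (ext0 C i φ) (C.grad (ext0 C i φ)))
    {U : JetSp C.area} (hU : U ∈ C.HS) :
    inner ℝ U.snd P.snd = -∫ x, U.fst x * ext0 C i (lapR C i φ) x ∂C.area := by
  have hL := memLp_C1 C (isC1_L C i hφ hc hs)
  rw [SOB.HS_eq, SOB.mem_HJ_iff (SOB.jclassS C)] at hU
  obtain ⟨V, v, g, hV, hlim⟩ := hU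
  have key : ∀ n, inner ℝ (V n).snd P.snd = -inner ℝ (V n).fst (hL.toLp _) := by
    intro n
    obtain ⟨⟨hv, hg⟩, hj⟩ := hV n
    rw [hg] at hj
    rw [L2.inner_def, L2.inner_def]
    have e1 : ∫ x, inner ℝ ((V n).snd x) (P.snd x) ∂C.area =
        ∫ x, inner ℝ (C.grad (v n) x) (C.grad (ext0 C i φ) x) ∂C.area := by
      refine integral_congr_ae ?_
      filter_upwards [hj.2, hP.2] with x h1 h2
      rw [h1, h2]
    have e2 : ∫ x, inner ℝ ((V n).fst x) (hL.toLp _ x) ∂C.area =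
        ∫ x, v n x * ext0 C i (lapR C i φ) x ∂C.area := by
      refine integral_congr_ae ?_
      filter_upwards [hj.1, hL.coeFn_toLp] with x h1 h2
      rw [h1, h2]
      simp [mul_comm]
    rw [e1, e2]
    exact green_S C i hv hφ hc hs
  have l1 : Tendsto (fun n => inner ℝ (V n).snd P.snd) atTop (𝓝 (inner ℝ U.snd P.snd)) := by
    have : Tendsto (fun n => (V n).snd) atTop (𝓝 U.snd) :=
      ((WithLp.prod_continuous_ofLp 2 _ _).snd.tendsto U).comp hlim
    exact this.inner tendsto_const_nhds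
  have l2 : Tendsto (fun n => -inner ℝ (V n).fst (hL.toLp _)) atTop (𝓝 (-inner ℝ U.fst (hL.toLp _))) := by
    have : Tendsto (fun n => (V n).fst) atTop (𝓝 U.fst) :=
      ((WithLp.prod_continuous_ofLp 2 _ _).fst.tendsto U).comp hlim
    exact (this.inner tendsto_const_nhds).neg
  have l3 := tendsto_nhds_unique l1 (l2.congr fun n => (key n).symm)
  rw [l3, L2.inner_def]
  congr 1
  refine integral_congr_ae ?_
  filter_upwards [hL.coeFn_toLp] with x h2
  rw [h2]
  simp [mul_comm]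

lemma wt'_in {t : ℝ} (h : |t| ≤ π) : Wt' t = -Real.sin t := by
  unfold Wt'
  rw [if_pos h]

/-- The weak equation in a chart. -/
theorem chart_eq {ε : ℝ} {w : S → ℝ} {U : JetSp C.area} (hU : IsWeak C.HS ε w U) {f : S → ℝ}
    (hf : U.fst =ᵐ[C.area] f) (hb : ∀ x, |f x| ≤ π) {φ : ℂ → ℝ} (hφ : ContDiff ℝ ∞ φ)
    (hc : HasCompactSupport φ) (hs : tsupport φ ⊆ ball 0 3) :
    ε ^ 2 * ∫ z, (ball (0 : ℂ) 3).indicator (f ∘ (C.φ i).symm) z * lap φ z =
      -∫ z, C.a w i z * Real.sin ((ball (0 : ℂ) 3).indicator (f ∘ (C.φ i).symm) z) * φ z := by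
  obtain ⟨P, hP, hPm⟩ := SOB.exists_jet (SOB.jclassS C)
    (show SOB.JS C (ext0 C i φ) (C.grad (ext0 C i φ)) from ⟨isC1_ext0 C i hφ hc hs, rfl⟩)
  rw [← SOB.HS_eq] at hPm
  have h1 := hU.2 P hPm
  rw [green_HS C i hφ hc hs hP hU.1] at h1
  have e1 : ∫ x, U.fst x * ext0 C i (lapR C i φ) x ∂C.area =
      ∫ z, (ball (0 : ℂ) 3).indicator (f ∘ (C.φ i).symm) z * lap φ z := by
    have : ∫ x, U.fst x * ext0 C i (lapR C i φ) x ∂C.area = ∫ x, f x * ext0 C i (lapR C i φ) x ∂C.area := by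
      refine integral_congr_ae ?_
      filter_upwards [hf] with x h
      rw [h]
    rw [this]
    refine int_ext' C i (fun x hx => ?_) (fun z hz => ?_) (fun z hz => ?_)
    · rw [ext0_off C i _ hx, mul_zero]
    · rw [ext0_symm C i _ hz, Set.indicator_of_mem hz]
      unfold lapR
      have := (C.ρ_pos i z hz).ne'
      simp only [Function.comp_apply]
      field_simp
    · rw [(der_off (φ := φ) (z := z) fun h => hz (hs h)).2.2.2, mul_zero]
  have e2 : ∫ x, w x * Wt' (U.fst x) * P.fst x ∂C.area =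
      -∫ z, C.a w i z * Real.sin ((ball (0 : ℂ) 3).indicator (f ∘ (C.φ i).symm) z) * φ z := by
    have : ∫ x, w x * Wt' (U.fst x) * P.fst x ∂C.area =
        ∫ x, -(w x * Real.sin (f x) * ext0 C i φ x) ∂C.area := by
      refine integral_congr_ae ?_
      filter_upwards [hf, hP.1] with x h h'
      rw [h, h', wt'_in (hb x)]
      ring
    rw [this, integral_neg]
    congr 1
    refine int_ext' C i (fun x hx => ?_) (fun z hz => ?_) (fun z hz => ?_)
    · rw [ext0_off C i _ hx, mul_zero]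
    · rw [ext0_symm C i _ hz, Set.indicator_of_mem hz]
      unfold CSurf.a
      simp only [Function.comp_apply]
      ring
    · rw [(der_off (φ := φ) (z := z) fun h => hz (hs h)).1, mul_zero]
  rw [e1, e2] at h1
  linarith

end Int

end

end Pool.Agent.Helper85.CL
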