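import Mathlib

/-!
PROJECT CL, block D5: the test functions `psi_L(z) = z g(|z|^2)` with
`g(s) = (1 - s / L^2)_+^2 / (1 + s)`, and their complex derivatives.
-/

open Complex Set

namespace Pool.Agent.Helper85.CL

noncomputable section

/-- The function `max x 0 ^ 2`. -/
def q2 (x : ℝ) : ℝ := (max x 0) ^ 2

lemma hasDerivAt_q2 (x : ℝ) : HasDerivAt q2 (2 * max x 0) x := by
  rcases lt_trichotomy x 0 with hx | hx | hx
  · have h : q2 =ᶠ[nhds x] fun _ => 0 := by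
      filter_upwards [gt_mem_nhds hx] with y hy
      simp [q2, max_eq_right hy.le]
    rw [max_eq_right hx.le, mul_zero]
    exact (hasDerivAt_const x (0 : ℝ)).congr_of_eventuallyEq h
  · subst hx
    rw [max_self, mul_zero, hasDerivAt_iff_isLittleO_nhds_zero]
    rw [Asymptotics.isLittleO_iff]
    intro c hc
    filter_upwards [Metric.ball_mem_nhds (0 : ℝ) hc] with h hh
    rw [mem_ball_zero_iff, Real.norm_eq_abs] at hh
    simp only [zero_add, smul_zero, sub_zero, q2, max_self, Real.norm_eq_abs, ne_eq,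
      OfNat.ofNat_ne_zero, not_false_eq_true, zero_pow, mul_zero]
    rw [abs_pow]
    have h1 : |max h 0| ≤ |h| := by
      rcases le_total h 0 with h0 | h0
      · rw [max_eq_right h0, abs_zero]; exact abs_nonneg h
      · rw [max_eq_left h0]
    nlinarith [abs_nonneg (max h 0), abs_nonneg h]
  · have h : q2 =ᶠ[nhds x] fun y => y ^ 2 := by
      filter_upwards [lt_mem_nhds hx] with y hy
      simp [q2, max_eq_left (le_of_lt hy)]
    rw [max_eq_left hx.le]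
    have := (hasDerivAt_pow 2 x).congr_of_eventuallyEq h
    simpa using this

lemma contDiff_q2 : ContDiff ℝ 1 q2 := by
  rw [contDiff_one_iff_deriv]
  refine ⟨fun x => (hasDerivAt_q2 x).differentiableAt, ?_⟩
  have : deriv q2 = fun x => 2 * max x 0 := funext fun x => (hasDerivAt_q2 x).deriv
  rw [this]
  fun_prop

/-- The positive part `(1 - s / L^2)_+`. -/
def pp (L s : ℝ) : ℝ := max (1 - s / L ^ 2) 0

/-- `g(s) = (1 - s / L^2)_+^2 / (1 + s)`. -/
def gg (L s : ℝ) : ℝ := q2 (1 - s / L ^ 2) / (1 + s)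

/-- `g'(s)`. -/
def gB (L s : ℝ) : ℝ := -(2 * pp L s / (L ^ 2 * (1 + s))) - (pp L s) ^ 2 / (1 + s) ^ 2

/-- `g(s) + s g'(s)`. -/
def gA (L s : ℝ) : ℝ := gg L s + s * gB L s

lemma hasDerivAt_gg (L s : ℝ) (hs : 0 ≤ s) : HasDerivAt (gg L) (gB L s) s := by
  have h1 : HasDerivAt (fun s => 1 - s / L ^ 2) (-(1 / L ^ 2)) s := by
    simpa using ((hasDerivAt_id s).div_const (L ^ 2)).const_sub 1
  have h2 := (hasDerivAt_q2 (1 - s / L ^ 2)).comp s h1
  have h3 : HasDerivAt (fun s : ℝ => 1 + s) 1 s := by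
    simpa using (hasDerivAt_id s).const_add 1
  have h4 := h2.div h3 (by positivity : (1 + s : ℝ) ≠ 0)
  have h5 : HasDerivAt (gg L) _ s := h4
  convert h5 using 1
  have hs1 : (1 + s : ℝ) ≠ 0 := by positivity
  simp only [gB, pp, q2, Function.comp]
  by_cases hL : L = 0
  · subst hL; simp [neg_div]
  · field_simp

lemma pp_nonneg (L s : ℝ) : 0 ≤ pp L s := le_max_right _ _

lemma pp_le_one {L s : ℝ} (hs : 0 ≤ s) : pp L s ≤ 1 :=
  max_le (by have : 0 ≤ s / L ^ 2 := by positivity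
             linarith) zero_le_one

lemma pp_eq_zero {L s : ℝ} (hL : 0 < L) (hs : L ^ 2 ≤ s) : pp L s = 0 := by
  refine max_eq_right ?_
  have : 1 ≤ s / L ^ 2 := by rw [one_le_div (by positivity)]; exact hs
  linarith

lemma gA_eq_zero {L s : ℝ} (hL : 0 < L) (hs : L ^ 2 ≤ s) : gA L s = 0 := by
  have h := pp_eq_zero hL hs
  have h2 : q2 (1 - s / L ^ 2) = 0 := by
    have : q2 (1 - s / L ^ 2) = (pp L s) ^ 2 := rfl
    rw [this, h]; norm_num
  simp [gA, gg, gB, h, h2]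

lemma gB_eq_zero {L s : ℝ} (hL : 0 < L) (hs : L ^ 2 ≤ s) : gB L s = 0 := by
  simp [gB, pp_eq_zero hL hs]

lemma gg_eq_zero {L s : ℝ} (hL : 0 < L) (hs : L ^ 2 ≤ s) : gg L s = 0 := by
  have h := pp_eq_zero hL hs
  have h2 : q2 (1 - s / L ^ 2) = 0 := by
    have : q2 (1 - s / L ^ 2) = (pp L s) ^ 2 := rfl
    rw [this, h]; norm_num
  simp [gg, h2]

lemma gA_formula {L s : ℝ} (hL : 0 < L) (hs : 0 ≤ s) :
    gA L s = (pp L s) ^ 2 / (1 + s) ^ 2 - 2 * (s / (1 + s)) * pp L s / L ^ 2 := by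
  have : q2 (1 - s / L ^ 2) = (pp L s) ^ 2 := rfl
  have hs1 : (1 + s : ℝ) ≠ 0 := by positivity
  simp only [gA, gg, gB, this]
  field_simp
  ring

lemma gA_ge {L s : ℝ} (hL : 0 < L) (hs : 0 ≤ s) : -(2 / L ^ 2) ≤ gA L s := by
  rw [gA_formula hL hs]
  have h1 : 0 ≤ (pp L s) ^ 2 / (1 + s) ^ 2 := by positivity
  have h2 : s / (1 + s) ≤ 1 := by rw [div_le_one (by positivity)]; linarith
  have h3 : 0 ≤ s / (1 + s) := by positivity
  have h4 := pp_nonneg L s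
  have h5 := pp_le_one (L := L) hs
  have h6 : 2 * (s / (1 + s)) * pp L s / L ^ 2 ≤ 2 / L ^ 2 := by
    gcongr
    nlinarith
  linarith

lemma gA_ge_of_le_one {L s : ℝ} (hL : 4 ≤ L) (hs : 0 ≤ s) (hs1 : s ≤ 1) : 1 / 16 ≤ gA L s := by
  have hL0 : 0 < L := by linarith
  rw [gA_formula hL0 hs]
  have hL2 : 16 ≤ L ^ 2 := by nlinarith
  have h3 : s / L ^ 2 ≤ 1 / 16 := by
    rw [div_le_div_iff₀ (by positivity) (by norm_num)]
    nlinarith
  have h4 : 15 / 16 ≤ pp L s := le_trans (by linarith) (le_max_left _ _)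
  have h5 := pp_le_one (L := L) hs
  have h6 : (pp L s) ^ 2 / 4 ≤ (pp L s) ^ 2 / (1 + s) ^ 2 := by
    gcongr
    nlinarith
  have h7 : s / (1 + s) ≤ 1 / 2 := by
    rw [div_le_div_iff₀ (by positivity) (by norm_num)]
    linarith
  have h8 : 2 * (s / (1 + s)) * pp L s / L ^ 2 ≤ 1 / 16 := by
    rw [div_le_div_iff₀ (by positivity) (by norm_num)]
    have h9 : 0 ≤ s / (1 + s) := by positivity
    nlinarith [pp_nonneg L s, mul_nonneg h9 (pp_nonneg L s)]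
  nlinarith

lemma abs_gA_le {L s : ℝ} (hL : 1 ≤ L) (hs : 0 ≤ s) : |gA L s| ≤ 3 := by
  have hL0 : 0 < L := by linarith
  have h1 := gA_ge hL0 hs
  have h2 : 2 / L ^ 2 ≤ 2 := by
    rw [div_le_iff₀ (by positivity)]
    nlinarith
  rw [abs_le]
  refine ⟨by linarith, ?_⟩
  rw [gA_formula hL0 hs]
  have h3 : (pp L s) ^ 2 / (1 + s) ^ 2 ≤ 1 := by
    rw [div_le_one (by positivity)]
    have := pp_le_one (L := L) hs
    have := pp_nonneg L s
    nlinarith
  have h4 : 0 ≤ 2 * (s / (1 + s)) * pp L s / L ^ 2 := by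
    have := pp_nonneg L s
    positivity
  linarith

lemma abs_mul_gB_le {L s : ℝ} (hL : 1 ≤ L) (hs : 0 ≤ s) : |s * gB L s| ≤ 3 := by
  have hL0 : 0 < L := by linarith
  have h0 := pp_nonneg L s
  have h1 := pp_le_one (L := L) hs
  have hs1 : (0 : ℝ) < 1 + s := by positivity
  have h2 : s * gB L s = -(2 * (s / (1 + s)) * pp L s / L ^ 2 + (s / (1 + s)) * ((pp L s) ^ 2 / (1 + s))) := by
    simp only [gB]
    field_simp
    ring
  rw [h2, abs_neg]
  have h3 : s / (1 + s) ≤ 1 := by rw [div_le_one hs1]; linarith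
  have h3' : 0 ≤ s / (1 + s) := by positivity
  have h4 : 2 * (s / (1 + s)) * pp L s / L ^ 2 ≤ 2 := by
    rw [div_le_iff₀ (by positivity)]
    have hL2 : 1 ≤ L ^ 2 := by nlinarith
    nlinarith [mul_nonneg h3' h0]
  have h5 : (pp L s) ^ 2 / (1 + s) ≤ 1 := by
    rw [div_le_one hs1]
    nlinarith
  have h5' : 0 ≤ (pp L s) ^ 2 / (1 + s) := by positivity
  have h6 : (s / (1 + s)) * ((pp L s) ^ 2 / (1 + s)) ≤ 1 := by nlinarith
  rw [abs_of_nonneg (by positivity)]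
  linarith

/-- The test function. -/
def psi (L : ℝ) (z : ℂ) : ℂ := z * (gg L (‖z‖ ^ 2) : ℝ)

lemma contDiff_psi (L : ℝ) : ContDiff ℝ 1 (psi L) := by
  have h1 : ContDiff ℝ 1 (fun z : ℂ => ‖z‖ ^ 2) := contDiff_norm_sq ℝ
  have h2 : ContDiff ℝ 1 (fun z : ℂ => gg L (‖z‖ ^ 2)) := by
    unfold gg
    refine ContDiff.div (contDiff_q2.comp (contDiff_const.sub (h1.div_const _)))
      (contDiff_const.add h1) fun z => by positivity
  unfold psi
  exact contDiff_id.mul (Complex.ofRealCLM.contDiff.comp h2)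

lemma hasFDerivAt_psi (L : ℝ) (z : ℂ) :
    HasFDerivAt (psi L)
      ((gg L (‖z‖ ^ 2) : ℂ) • (ContinuousLinearMap.id ℝ ℂ) +
        ((2 * gB L (‖z‖ ^ 2) : ℝ) • (innerSL ℝ z)).smulRight z) z := by
  have h1 : HasFDerivAt (fun z : ℂ => ‖z‖ ^ 2) (2 • (innerSL ℝ z)) z :=
    (hasStrictFDerivAt_norm_sq z).hasFDerivAt
  have h2 : HasFDerivAt (gg L ∘ fun z : ℂ => ‖z‖ ^ 2)
      (gB L (‖z‖ ^ 2) • (2 • (innerSL ℝ z))) z :=
    HasDerivAt.comp_hasFDerivAt (h₂ := gg L) (f := fun z : ℂ => ‖z‖ ^ 2) z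
      (hasDerivAt_gg L (‖z‖ ^ 2) (by positivity)) h1
  have h3 : HasFDerivAt (fun z : ℂ => ((gg L (‖z‖ ^ 2) : ℝ) : ℂ))
      (Complex.ofRealCLM.comp (gB L (‖z‖ ^ 2) • (2 • (innerSL ℝ z)))) z :=
    Complex.ofRealCLM.hasFDerivAt.comp z h2
  have h4 := (hasFDerivAt_id (𝕜 := ℝ) z).mul h3
  have h5 : HasFDerivAt (psi L) _ z := h4
  convert h5 using 1
  ext w <;> simp <;> ring

lemma fderiv_psi_one (L : ℝ) (z : ℂ) :
    fderiv ℝ (psi L) z 1 = (gg L (‖z‖ ^ 2) : ℂ) + 2 * gB L (‖z‖ ^ 2) * z.re * z := by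
  rw [(hasFDerivAt_psi L z).fderiv]
  simp [Complex.inner]

lemma fderiv_psi_I (L : ℝ) (z : ℂ) :
    fderiv ℝ (psi L) z I = (gg L (‖z‖ ^ 2) : ℂ) * I + 2 * gB L (‖z‖ ^ 2) * z.im * z := by
  rw [(hasFDerivAt_psi L z).fderiv]
  simp [Complex.inner]

lemma psi_eq_zero {L : ℝ} (hL : 0 < L) {z : ℂ} (hz : L ≤ ‖z‖) : psi L z = 0 := by
  rw [psi, gg_eq_zero hL (by gcongr), ofReal_zero, mul_zero]

end

end Pool.Agent.Helper85.CL
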