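import Pool.Agent.Helper85.CL.Null
import Pool.Agent.Helper85.CL.LocBasic

/-!
PROJECT CL, block D4: the positive part of the discrepancy tends to zero.
-/

open Set MeasureTheory Filter Topology Metric

open scoped ContDiff Real

open Pool.Agent.Helper53.CL

namespace Pool.Agent.Helper85.CL

/-- The complement of the support. -/
def offs (μ : Measure ℂ) : Set ℂ := {x | ∃ r > 0, μ (ball x r) = 0}

lemma isOpen_offs (μ : Measure ℂ) : IsOpen (offs μ) := by
  rw [Metric.isOpen_iff]
  rintro x ⟨r, hr, hx⟩
  refine ⟨r, hr, fun y hy => ?_⟩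
  rw [mem_ball] at hy
  refine ⟨r - dist y x, by linarith, measure_mono_null ?_ hx⟩
  exact ball_subset_ball' (by linarith)

lemma measure_offs (μ : Measure ℂ) : μ (offs μ) = 0 := by
  refine measure_null_of_locally_null _ fun x hx => ?_
  obtain ⟨r, hr, h⟩ := hx
  exact ⟨ball x r, mem_nhdsWithin_of_mem_nhds (ball_mem_nhds x hr), h⟩

lemma mem_offs_iff {μ : Measure ℂ} {x : ℂ} : x ∉ offs μ ↔ ∀ r > 0, 0 < μ (ball x r) := by
  simp only [offs, mem_ofPred_eq, not_exists, not_and, pos_iff_ne_zero]

variable {a : ℂ → ℝ} {aj : ℕ → ℂ → ℝ} {ε : ℕ → ℝ} {u : ℕ → ℂ → ℝ}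

/-- Integrals of test functions against densities continuous on the disc of radius three. -/
lemma integrable_mul {f : ℂ → ℝ} (hf : Continuous f) (hs : tsupport f ⊆ ball 0 2) {g : ℂ → ℝ}
    (hg : ContinuousOn g (ball 0 3)) : Integrable fun z => f z * g z := by
  have h1 : IntegrableOn (fun z => f z * g z) (closedBall (0 : ℂ) 2) :=
    integrableOn_two (hf.continuousOn.mul hg) le_rfl
  refine (integrableOn_iff_integrable_of_support_subset ?_).mp h1
  intro z hz
  have h2 : z ∈ Function.support f := fun h => hz (by simp [h])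
  exact ball_subset_closedBall (hs (subset_tsupport f h2))

/-- The energy of compact sets disjoint from the support tends to zero. -/
lemma energy_offs (h : LocSeq a aj ε u) {μ : Measure ℂ} (he : EConv aj ε u μ) {K : Set ℂ}
    (hK : IsCompact K) (hKs : K ⊆ ball 0 2) (hKμ : K ⊆ offs μ) :
    Tendsto (fun j => ∫ z in K, ed (ε j) (aj j) (u j) z) atTop (𝓝 0) := by
  obtain ⟨f, hf1, hf2, hf3, hf4⟩ := exists_continuousMap_one_of_isCompact_subset_isOpen hK
    ((isOpen_offs μ).inter isOpen_ball) (subset_inter hKμ hKs)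
  have h1 := he f f.continuous hf2 (hf3.trans inter_subset_right)
  have h2 : ∫ z, f z ∂μ = 0 := by
    refine integral_eq_zero_of_ae ?_
    filter_upwards [measure_eq_zero_iff_ae_notMem.mp (measure_offs μ)] with x hx
    by_contra hne
    exact hx (hf3 (subset_tsupport f hne)).1
  rw [h2] at h1
  refine squeeze_zero (fun j => ?_) (fun j => ?_) h1
  · refine setIntegral_nonneg hK.measurableSet fun z hz => ?_
    exact ls_ed_nonneg h j (ball_subset_ball (by norm_num) (hKs hz))
  · have hsub : K ⊆ closedBall 0 2 := hKs.trans ball_subset_closedBall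
    calc ∫ z in K, ed (ε j) (aj j) (u j) z = ∫ z in K, f z * ed (ε j) (aj j) (u j) z := by
          refine setIntegral_congr_fun hK.measurableSet fun z hz => ?_
          rw [hf1 hz]; simp
      _ ≤ ∫ z, f z * ed (ε j) (aj j) (u j) z := by
          refine setIntegral_le_integral
            (integrable_mul f.continuous (hf3.trans inter_subset_right) (ls_cont_ed h j)) ?_
          refine Eventually.of_forall fun z => ?_
          by_cases hz : z ∈ tsupport f
          · exact mul_nonneg (hf4 z).1
              (ls_ed_nonneg h j (ball_subset_ball (by norm_num) (hf3 hz).2))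
          · change 0 ≤ f z * ed (ε j) (aj j) (u j) z
            rw [image_eq_zero_of_notMem_tsupport hz, zero_mul]

/-- The positive part of the discrepancy tends to zero. -/
theorem disc_pos_tendsto (h : LocSeq a aj ε u) {μ : Measure ℂ} (he : EConv aj ε u μ) {R : ℝ}
    (hR : R < 2) (hnull : volume {x ∈ closedBall (0 : ℂ) R | ∀ r > 0, 0 < μ (ball x r)} = 0) :
    Tendsto (fun j => ∫ z in closedBall (0 : ℂ) R, max (disc (ε j) (aj j) (u j) z) 0) atTop (𝓝 0) := by
  obtain ⟨C, hC⟩ := h.modica
  have hsub2 : closedBall (0 : ℂ) R ⊆ ball 0 2 := closedBall_subset_ball hR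
  rw [Metric.tendsto_atTop]
  intro η hη
  set C0 : ℝ := max C 0 + 1 with hC0
  have hC0p : 0 < C0 := by positivity
  obtain ⟨U, hNU, hUo, hUv⟩ := Set.exists_isOpen_lt_of_lt
    {x ∈ closedBall (0 : ℂ) R | ∀ r > 0, 0 < μ (ball x r)} (ENNReal.ofReal (η / (4 * C0)))
    (by rw [hnull]; exact ENNReal.ofReal_pos.mpr (by positivity))
  set K := closedBall (0 : ℂ) R \ U with hKdef
  have hK : IsCompact K := (isCompact_closedBall _ _).diff hUo
  have hKs : K ⊆ ball 0 2 := sdiff_subset.trans hsub2
  have hKμ : K ⊆ offs μ := by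
    intro x hx
    by_contra hcon
    exact hx.2 (hNU ⟨hx.1, mem_offs_iff.mp hcon⟩)
  have h1 := energy_offs h he hK hKs hKμ
  obtain ⟨N, hN⟩ := (Metric.tendsto_atTop.mp h1) (η / 2) (by positivity)
  refine ⟨N, fun j hj => ?_⟩
  have h2 := hN j hj
  rw [Real.dist_eq, sub_zero] at h2 ⊢
  have hcont : ContinuousOn (fun z => max (disc (ε j) (aj j) (u j) z) 0) (ball 0 3) :=
    (ls_cont_disc h j).sup continuousOn_const
  have hnn : 0 ≤ ∫ z in closedBall (0 : ℂ) R, max (disc (ε j) (aj j) (u j) z) 0 :=
    setIntegral_nonneg measurableSet_closedBall fun z _ => le_max_right _ _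
  rw [abs_of_nonneg hnn]
  have hsplit : ∫ z in closedBall (0 : ℂ) R, max (disc (ε j) (aj j) (u j) z) 0 =
      (∫ z in closedBall (0 : ℂ) R ∩ U, max (disc (ε j) (aj j) (u j) z) 0) +
        ∫ z in K, max (disc (ε j) (aj j) (u j) z) 0 := by
    rw [hKdef]
    exact (integral_inter_add_sdiff hUo.measurableSet
      (integrableOn_two hcont (hsub2.trans ball_subset_closedBall))).symm
  rw [hsplit]
  have b1 : ∫ z in K, max (disc (ε j) (aj j) (u j) z) 0 ≤ ∫ z in K, ed (ε j) (aj j) (u j) z := by
    refine setIntegral_mono_on (integrableOn_two hcont (hKs.trans ball_subset_closedBall))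
      (ls_ed_int h j (hKs.trans ball_subset_closedBall)) hK.measurableSet fun z hz => ?_
    have hz3 : z ∈ ball (0 : ℂ) 3 := ball_subset_ball (by norm_num) (hKs hz)
    exact max_le ((le_abs_self _).trans (ls_abs_disc_le h j hz3)) (ls_ed_nonneg h j hz3)
  have b2 : ∫ z in closedBall (0 : ℂ) R ∩ U, max (disc (ε j) (aj j) (u j) z) 0 ≤ C0 * (η / (4 * C0)) := by
    have hfin : volume (closedBall (0 : ℂ) R ∩ U) ≠ ⊤ :=
      (lt_of_le_of_lt (measure_mono inter_subset_left) measure_closedBall_lt_top).ne
    calc ∫ z in closedBall (0 : ℂ) R ∩ U, max (disc (ε j) (aj j) (u j) z) 0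
        ≤ ∫ z in closedBall (0 : ℂ) R ∩ U, C0 := by
          refine setIntegral_mono_on (integrableOn_two hcont
            (inter_subset_left.trans (hsub2.trans ball_subset_closedBall)))
            (integrableOn_const hfin) (measurableSet_closedBall.inter hUo.measurableSet) fun z hz => ?_
          have := hC j z (hsub2 hz.1)
          rw [hC0]
          refine max_le ?_ (by positivity)
          linarith [le_max_left C 0]
      _ = C0 * volume.real (closedBall (0 : ℂ) R ∩ U) := by
          rw [setIntegral_const, smul_eq_mul, mul_comm]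
      _ ≤ C0 * (η / (4 * C0)) := by
          gcongr
          calc volume.real (closedBall (0 : ℂ) R ∩ U) ≤ (ENNReal.ofReal (η / (4 * C0))).toReal := by
                refine ENNReal.toReal_mono ENNReal.ofReal_ne_top ?_
                exact (measure_mono inter_subset_right).trans hUv.le
            _ = η / (4 * C0) := ENNReal.toReal_ofReal (by positivity)
  have b3 : C0 * (η / (4 * C0)) = η / 4 := by field_simp
  have b4 := le_abs_self (∫ z in K, ed (ε j) (aj j) (u j) z)
  linarith

end Pool.Agent.Helper85.CL
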